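import Pool.Agent.H9.KA.Defs
import Pool.Agent.H53.Kak.Basic

/-!
# Kakeya sets in dimension `k + 3` from the Kakeya theorem in dimension `k + 1`: statements
-/

set_option autoImplicit false

open MeasureTheory

namespace Pool.KRN

open Pool.Agent.H49.Ent Pool.KA
open Pool.Agent.H53.Kak (E tube)

/-- The entropy bound `s` for families with bounded base points and nearly uniform directions in
dimension `m`. -/
def EF (m : ℕ) (s : ℝ) : Prop :=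
  ∀ ε > 0, ∃ θ > 0, ∃ J₀ : ℕ, ∀ J ≥ J₀, ∀ F : Pool.KA.Fam m J, (∀ ω i, |F.u ω i| ≤ 1) →
    F.Tm (θ * J) → ((m : ℝ) - θ) * (J * Real.log 2) ≤ H F.p (F.D J) →
    (s - ε) * (J * Real.log 2) ≤ CH F.p (F.X J) F.T

/-- Density bound for tubes, linear in the number of tubes, with the loss `δ ^ g`. -/
def DensG (d : ℕ) (g : ℝ) : Prop :=
  ∀ ε : ℝ, 0 < ε → ∃ c P : ℝ, 0 < c ∧ ∀ δ : ℝ, 0 < δ → δ < 1 → ∀ (ι : Type) (S : Finset ι)
    (x₀ e : ι → E d), Pool.Agent.H53.Kak.Fam δ e S → ∀ (X : Set (E d)), MeasurableSet X →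
    ∀ lam : ℝ, 0 < lam → lam ≤ 1 →
    (∀ i ∈ S, ENNReal.ofReal (lam * δ ^ d) ≤ volume (X ∩ tube δ (x₀ i) (e i))) →
    ENNReal.ofReal (c * δ ^ (g + ε) * (lam ^ P * δ ^ d * (S.card : ℝ))) ≤ volume X

/-- (GEO1) -/
def GeoOneStmt : Prop :=
  ∀ (d : ℕ) (s : ℝ), 1 ≤ d → 0 ≤ s → s ≤ d → EF d s → DensG d (d - s)

/-- (GEO2) -/
def GeoTwoStmt : Prop :=
  ∀ (d : ℕ) (g : ℝ), 0 ≤ g → g ≤ d → DensG d g → ∀ K : Set (E d),
    (∀ e : E d, ‖e‖ = 1 → ∃ x : E d, ∀ t : ℝ, 0 ≤ t → t ≤ 1 → x + t • e ∈ K) →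
    ENNReal.ofReal (d + 1 - g) ≤ dimH K

end Pool.KRN
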