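import Pool.Agent.H56.K5.Vb
import Pool.Agent.H21.STE.All
import Pool.Agent.H56.KPM.Thm

/-!
# Kakeya sets in the Euclidean space of dimension five
-/

set_option autoImplicit false

open MeasureTheory

namespace Pool.KRN

/-- The sticky theorem with times dependent on the line, in the form used in `H56/K5`. -/
theorem kst_five (m : ℕ) : Pool.Agent.H56.K5.KST m := by
  intro a ha R hR
  obtain ⟨ε, hε, θ, hθ, J₀, h⟩ := Pool.STE.kst m a R ha hR
  exact ⟨ε, hε, θ, hθ, J₀, fun J hJ F hT hS => h J hJ F hT hS⟩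

/-- Kakeya sets in dimension five: more than four. -/
theorem dim_five : ∃ c : ℝ, 0 < c ∧ ∀ K : Set (EuclideanSpace ℝ (Fin (4 + 1))),
    (∀ e : EuclideanSpace ℝ (Fin (4 + 1)), ‖e‖ = 1 →
      ∃ x : EuclideanSpace ℝ (Fin (4 + 1)), ∀ t : ℝ, 0 ≤ t → t ≤ 1 → x + t • e ∈ K) →
    ENNReal.ofReal (4 + c) ≤ dimH K := by
  obtain ⟨c, hc0, -, h⟩ := Pool.Agent.H56.K5.dim_of (m := 3) (by norm_num) Pool.PB.kp3_thm
    (kst_five 4)
  refine ⟨c, hc0, fun K hK => ?_⟩
  have h1 := h K hK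
  refine le_trans (le_of_eq ?_) h1
  congr 1
  norm_num

end Pool.KRN
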