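import Pool.Agent.H9.KRN.ClsP

/-!
# The entropy bound from classes with pairs
-/

set_option autoImplicit false

open Finset Real

namespace Pool.KRN

open Pool.Agent.H49.Ent Pool.Agent.H32.Dense Pool.STK Pool.KA Pool.GP

/-- **The bound in all classes.** -/
theorem clsB_pair {m k : ℕ} (hk : 3 ≤ k) (hm4 : 4 ≤ m) (hmk : m ≤ k + 3) (hKP1 : KP 1)
    (hKP2 : KP 2) (hKP3 : KP 3) (hKPk : KP k) (hKPm : KP (m - 3)) {s : ℝ}
    (hs : ∀ S x y : ℝ, 0 ≤ x → x ≤ 1 → 0 ≤ y → y ≤ 1 →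
      3 * (k : ℝ) + 2 + (m - 2 - k) * y + (m - 2 * k) * x ≤ 3 * S →
      (m : ℝ) + 4 + 6 * k + (m - 1 - 2 * k) * y + (2 * m - 4 * k) * x ≤ 7 * S →
      (m : ℝ) + 3 * k + (2 * m - 3 * k) * x ≤ 4 * S → s ≤ S) : ClsB m s := by
  classical
  intro ε hε
  have hlog2 : 0 < Real.log 2 := Real.log_pos (by norm_num)
  have hlog3 : 0 < Real.log 3 := Real.log_pos (by norm_num)
  obtain ⟨ε₄, hε₄⟩ : ∃ ε₄ : ℝ, ε₄ = ε / 128 * Real.log 2 := ⟨_, rfl⟩
  have hε₄0 : 0 < ε₄ := by rw [hε₄]; positivity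
  obtain ⟨N, hN⟩ := exists_nat_ge (2 * (k * Real.log 2) / ε₄ + 1)
  have hkr : (3 : ℝ) ≤ k := by exact_mod_cast hk
  have hN1 : (1 : ℝ) ≤ N := by
    have : 0 ≤ 2 * (k * Real.log 2) / ε₄ := by positivity
    linarith
  have hN0 : 0 < N := by
    have : (0 : ℝ) < N := by linarith
    exact_mod_cast this
  have hNε : k * Real.log 2 / N ≤ ε₄ / 2 := by
    have h1 : 2 * (k * Real.log 2) / ε₄ ≤ N := by linarith
    rw [div_le_iff₀ hε₄0] at h1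
    rw [div_le_div_iff₀ (by linarith) (by norm_num)]
    linarith
  obtain ⟨K, hK⟩ : ∃ K : ℕ, K = (N + 2) * (N + 1) + 1 + m := ⟨_, rfl⟩
  obtain ⟨a, C, hG⟩ := exists_gpos (m := m) (by omega) K
  obtain ⟨θ1, hθ1, J1, hJ1⟩ := imgB_of_KP hKP1 hε₄0
  obtain ⟨θ2, hθ2, J2, hJ2⟩ := imgB_of_KP hKP2 hε₄0
  obtain ⟨θ3, hθ3, J3, hJ3⟩ := imgB_of_KP hKP3 hε₄0
  obtain ⟨θ4, hθ4, J4, hJ4⟩ := imgB_of_KP hKPk hε₄0
  obtain ⟨θ5, hθ5, J5, hJ5⟩ := imgB_of_KP hKPm hε₄0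
  obtain ⟨θ', hθ'⟩ : ∃ θ' : ℝ, θ' = min ε₄ (min θ1 (min θ2 (min θ3 (min θ4 θ5)))) := ⟨_, rfl⟩
  have hθ'0 : 0 < θ' := by rw [hθ']; positivity
  have l0 : θ' ≤ ε₄ := by rw [hθ']; exact min_le_left _ _
  have lr : θ' ≤ min θ1 (min θ2 (min θ3 (min θ4 θ5))) := by rw [hθ']; exact min_le_right _ _
  have l1 : θ' ≤ θ1 := lr.trans (min_le_left _ _)
  have lr2 := lr.trans (min_le_right _ _)
  have l2 : θ' ≤ θ2 := lr2.trans (min_le_left _ _)
  have lr3 := lr2.trans (min_le_right _ _)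
  have l3 : θ' ≤ θ3 := lr3.trans (min_le_left _ _)
  have lr4 := lr3.trans (min_le_right _ _)
  have l4 : θ' ≤ θ4 := lr4.trans (min_le_left _ _)
  have l5 : θ' ≤ θ5 := lr4.trans (min_le_right _ _)
  -- constants
  obtain ⟨B₀, hB₀⟩ : ∃ B₀ : ℝ, B₀ = |Ci 2 m k N 0 (m - 2) C| + |Cc m 3 (m - 3) C| +
    (|Ci 1 m k N 0 (m - 1) C| + (m * Real.log 3 +
      m * Real.log (2 * ((C + 1 : ℕ) : ℝ) + 1)) + 2 * Real.log 3) :=
    ⟨_, rfl⟩
  have hlogC : 0 ≤ (m : ℝ) * Real.log (2 * ((C + 1 : ℕ) : ℝ) + 1) := by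
    refine mul_nonneg (Nat.cast_nonneg _) (Real.log_nonneg ?_)
    have : (0 : ℝ) ≤ ((C + 1 : ℕ) : ℝ) := Nat.cast_nonneg _
    linarith
  have a1' := abs_nonneg (Ci 2 m k N 0 (m - 2) C)
  have a2' := abs_nonneg (Cc m 3 (m - 3) C)
  have a3' := abs_nonneg (Ci 1 m k N 0 (m - 1) C)
  have a4 : 0 ≤ (m : ℝ) * Real.log 3 := by positivity
  have hB₀0 : 0 ≤ B₀ := by rw [hB₀]; linarith
  refine ⟨(Fin 3 → Fin K) × (Fin (N + 1) × Fin (N + 1)), inferInstance, ?_⟩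
  intro c₀ hc₀0 hc₀1
  obtain ⟨Jb, hJb⟩ := exists_nat_ge ((B₀ + k * Real.log 2) / (ε₄ / 2) +
    (-Real.log c₀) / ε₄ + 1)
  have hlc : 0 ≤ -Real.log c₀ := by
    rw [neg_nonneg]
    exact Real.log_nonpos hc₀0.le hc₀1
  refine ⟨θ', hθ'0, max Jb (max J1 (max J2 (max J3 (max J4 J5)))), ?_⟩
  intro J hJ F hu
  have b0 : Jb ≤ J := le_trans (le_max_left _ _) hJ
  have b' : max J1 (max J2 (max J3 (max J4 J5))) ≤ J := le_trans (le_max_right _ _) hJ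
  have b1 : J1 ≤ J := le_trans (le_max_left _ _) b'
  have b'2 := le_trans (le_max_right _ _) b'
  have b2 : J2 ≤ J := le_trans (le_max_left _ _) b'2
  have b'3 := le_trans (le_max_right _ _) b'2
  have b3 : J3 ≤ J := le_trans (le_max_left _ _) b'3
  have b'4 := le_trans (le_max_right _ _) b'3
  have b4 : J4 ≤ J := le_trans (le_max_left _ _) b'4
  have b5 : J5 ≤ J := le_trans (le_max_right _ _) b'4
  have hJr : (Jb : ℝ) ≤ J := by exact_mod_cast b0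
  have t1 : 0 ≤ (B₀ + k * Real.log 2) / (ε₄ / 2) := by positivity
  have t3 : 0 ≤ (-Real.log c₀) / ε₄ := div_nonneg hlc hε₄0.le
  have c1 : B₀ + k * Real.log 2 ≤ ε₄ / 2 * J := by
    have h1 : (B₀ + k * Real.log 2) / (ε₄ / 2) ≤ J := by linarith
    rw [div_le_iff₀ (by positivity)] at h1
    linarith
  have c3 : -Real.log c₀ ≤ ε₄ * J := by
    have h1 : (-Real.log c₀) / ε₄ ≤ J := by linarith
    rw [div_le_iff₀ hε₄0] at h1
    linarith
  have hJ1' : (1 : ℝ) ≤ J := by linarith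
  have hJ0 : (0 : ℝ) < J := by linarith
  obtain ⟨L, hL⟩ : ∃ L : ℝ, L = J * Real.log 2 := ⟨_, rfl⟩
  have hL0 : 0 < L := by rw [hL]; positivity
  have hεL : ε * L = 128 * (ε₄ * J) := by rw [hL, hε₄]; ring
  have hp := F.isLaw.nonneg
  -- the grid and the classes
  obtain ⟨g, hgdef⟩ : ∃ g : ℕ → ℕ, g = fun n => min n N * J / N := ⟨_, rfl⟩
  obtain ⟨G, hGdef⟩ : ∃ G : ℕ, G = J / N + 1 := ⟨_, rfl⟩
  have hg : Grid J N G g := by
    rw [hgdef, hGdef]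
    exact exists_grid J hN0
  obtain ⟨A, hA⟩ := exists_cls2 (Ω := F.Ω) (K := K) (N := N) (by omega)
    (fun i n ω => fi F.p (Lb F (r1 a i)) F.d J k g n ω)
    (fun i i' n ω => fi F.p (Lb F (r2 a i i')) F.d J k g n ω)
  -- the bound `B`
  obtain ⟨B, hB⟩ : ∃ B : ℝ, B = B₀ + k * (G : ℝ) * Real.log 2 := ⟨_, rfl⟩
  have hGr : (G : ℝ) ≤ J / N + 1 := by
    rw [hGdef]
    push_cast
    have : ((J / N : ℕ) : ℝ) ≤ (J : ℝ) / N := Nat.cast_div_le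
    linarith
  have hBJ : B ≤ ε₄ * J := by
    have h1 : k * (G : ℝ) * Real.log 2 ≤ k * ((J : ℝ) / N + 1) * Real.log 2 := by gcongr
    have h2 : k * ((J : ℝ) / N + 1) * Real.log 2 = (k * Real.log 2 / N) * J + k * Real.log 2 := by
      ring
    have h3 : (k * Real.log 2 / N) * J ≤ ε₄ / 2 * J := mul_le_mul_of_nonneg_right hNε hJ0.le
    rw [hB]
    linarith
  have hkG : 0 ≤ k * (G : ℝ) * Real.log 2 := by positivity
  have a1 := le_abs_self (Ci 2 m k N 0 (m - 2) C)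
  have a2 := le_abs_self (Cc m 3 (m - 3) C)
  have a3 := le_abs_self (Ci 1 m k N 0 (m - 1) C)
  have hCi : ∀ i j' : ℕ, Ci i m k N G j' C = Ci i m k N 0 j' C + k * (G : ℝ) * Real.log 2 := by
    intro i j'
    unfold Ci cs
    rw [mul_zero, pow_zero, mul_one, Real.log_mul (by positivity) (by positivity), Real.log_pow 2]
    push_cast
    ring
  refine ⟨A, ?_⟩
  intro b hb hlb hTm' hDb
  have hb0 : 0 < law F.p A b := lt_of_lt_of_le hc₀0 hb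
  -- a sample in the class
  obtain ⟨ω₀, hω₀⟩ : ∃ ω, A ω = b := by
    by_contra hcon
    push Not at hcon
    have : law F.p A b = 0 := by
      unfold law
      exact Finset.sum_eq_zero fun ω _ => if_neg (hcon ω)
    linarith
  obtain ⟨hinj, -⟩ := hω₀ ▸ hA ω₀
  have hmin : ∀ l, ∀ ω, A ω = b → 0 < F.p ω → ∀ n ≤ N,
      fi F.p (Lb F (r1 a (b.1 l))) F.d J k g (b.2.1 : ℕ) ω ≤
      fi F.p (Lb F (r1 a (b.1 l))) F.d J k g n ω := by
    intro l ω hω _ n hn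
    exact (hω ▸ hA ω).2.1 l n hn
  have hmin2 : ∀ l, l ≠ 0 → ∀ ω, A ω = b → 0 < F.p ω → ∀ n ≤ N,
      fi F.p (Lb F (r2 a (b.1 0) (b.1 l))) F.d J k g (b.2.2 : ℕ) ω ≤
      fi F.p (Lb F (r2 a (b.1 0) (b.1 l))) F.d J k g n ω := by
    intro l hl0 ω hω _ n hn
    exact (hω ▸ hA ω).2.2 l hl0 n hn
  obtain ⟨η, hη⟩ : ∃ η : ℝ, η = ε₄ * J := ⟨_, rfl⟩
  have hη0 : 0 ≤ η := by rw [hη]; positivity
  have hDb' : m * (J * Real.log 2) - η ≤ H (cond F.p A b) (F.D J) := by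
    have : θ' * J ≤ ε₄ * J := mul_le_mul_of_nonneg_right l0 hJ0.le
    rw [hη]
    linarith
  have hlogP : -Real.log (law F.p A b) ≤ ε₄ * J := by
    have := Real.log_le_log hc₀0 hb
    linarith
  have hlogP0 : 0 ≤ -Real.log (law F.p A b) := by
    rw [neg_nonneg]
    exact Real.log_nonpos hb0.le ((law_le_total F.isLaw.nonneg A b).trans F.isLaw.sum_one.le)
  obtain ⟨x, y, hx0, hx1, hy0, hy1, hi1, hi2, hi3⟩ := clsP F hk hm4 hmk hu hG (by omega) hg A b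
    hb0 hlb b.1 hinj (n₁ := (b.2.1 : ℕ)) (n₂ := (b.2.2 : ℕ)) hmin hmin2 (E := ε₄ * J) (η := η)
    (B := B) (by positivity) hη0
    (hJ1 J b1 _ _ (tm_mono hTm' (mul_le_mul_of_nonneg_right l1 hJ0.le)))
    (hJ2 J b2 _ _ (tm_mono hTm' (mul_le_mul_of_nonneg_right l2 hJ0.le)))
    (hJ3 J b3 _ _ (tm_mono hTm' (mul_le_mul_of_nonneg_right l3 hJ0.le)))
    (hJ4 J b4 _ _ (tm_mono hTm' (mul_le_mul_of_nonneg_right l4 hJ0.le)))
    (hJ5 J b5 _ _ (tm_mono hTm' (mul_le_mul_of_nonneg_right l5 hJ0.le)))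
    hDb' (by rw [hCi, hB, hB₀]; linarith) (by rw [hB, hB₀]; linarith)
    (by rw [hCi, hB, hB₀]; linarith) (by rw [hB, hB₀]; linarith) (by rw [hB, hB₀]; linarith)
  rw [← hL] at hx1 hy1 hi1 hi2 hi3
  obtain ⟨W, hW⟩ : ∃ W : ℝ, W = 60 * (η - Real.log (law F.p A b) + ε₄ * J + B) := ⟨_, rfl⟩
  rw [← hW] at hi1 hi2 hi3
  have h5 : 0 ≤ ε₄ * J := by positivity
  have hB0 : 0 ≤ B := by rw [hB]; linarith
  have hW1 : W ≤ 240 * (ε₄ * J) := by rw [hW, hη]; linarith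
  have hW0 : 0 ≤ W := by rw [hW]; linarith
  obtain ⟨S, hS⟩ : ∃ S : ℝ, S = CH (cond F.p A b) (F.X J) F.T := ⟨_, rfl⟩
  rw [← hS] at hi1 hi2 hi3 ⊢
  have hx1' : x / L ≤ 1 := (div_le_one hL0).mpr hx1
  have hy1' : y / L ≤ 1 := (div_le_one hL0).mpr hy1
  have h1 := hs ((S + W / 3) / L) (x / L) (y / L) (by positivity) hx1' (by positivity) hy1' (by
    have e1 : 3 * ((S + W / 3) / L) = (3 * S + W) / L := by ring
    have e2 : 3 * (k : ℝ) + 2 + (m - 2 - k) * (y / L) + (m - 2 * k) * (x / L) =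
        ((3 * k + 2) * L + (m - 2 - k) * y + (m - 2 * k) * x) / L := by
      field_simp
    rw [e1, e2]
    exact div_le_div_of_nonneg_right hi1 hL0.le) (by
    have e1 : 7 * ((S + W / 3) / L) = (7 * S + 7 / 3 * W) / L := by ring
    have e2 : (m : ℝ) + 4 + 6 * k + (m - 1 - 2 * k) * (y / L) + (2 * m - 4 * k) * (x / L) =
        ((m + 4 + 6 * k) * L + (m - 1 - 2 * k) * y + (2 * m - 4 * k) * x) / L := by
      field_simp
    rw [e1, e2]
    exact div_le_div_of_nonneg_right (by linarith) hL0.le) (by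
    have e1 : 4 * ((S + W / 3) / L) = (4 * S + 4 / 3 * W) / L := by ring
    have e2 : (m : ℝ) + 3 * k + (2 * m - 3 * k) * (x / L) =
        ((m + 3 * k) * L + (2 * m - 3 * k) * x) / L := by
      field_simp
    rw [e1, e2]
    exact div_le_div_of_nonneg_right (by linarith) hL0.le)
  rw [le_div_iff₀ hL0] at h1
  rw [← hL]
  have h2 : (s - ε) * L = s * L - ε * L := by ring
  rw [h2, hεL]
  linarith

/-- Lines in dimension six. -/
theorem ef_six' (h3 : KP 3) (h2 : KP 2) (h1 : KP 1) : EF 6 (39 / 10) := by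
  refine ef_of_cls (by norm_num) (clsB_pair (k := 3) le_rfl (by norm_num) (by norm_num) h1 h2 h3 h3
    h3 ?_)
  intro S x y _ _ _ _ i1 i2 _
  push_cast at i1 i2
  linarith

/-- Lines in dimension seven, from the Kakeya theorem for lines in dimension four. -/
theorem ef_seven' (h4 : KP 4) (h3 : KP 3) (h2 : KP 2) (h1 : KP 1) : EF 7 (101 / 21) := by
  refine ef_of_cls (by norm_num) (clsB_pair (k := 4) (by norm_num) (by norm_num) (by norm_num) h1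
    h2 h3 h4 h4 ?_)
  intro S x y _ _ _ _ i1 i2 i3
  push_cast at i1 i2 i3
  linarith

end Pool.KRN
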