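import Pool.Agent.H9.KRN.Six
import Pool.Agent.H9.KRN.MainP
import Pool.Agent.H73.KRN.Geo
import Pool.Agent.H94.KRN.GEO2

/-!
# Kakeya sets in the Euclidean spaces of dimension six and seven
-/

set_option autoImplicit false

open MeasureTheory

namespace Pool.KRN

open Pool.Agent.H53.Kak (E tube)

/-- Tubes in dimension six. -/
theorem dens_five : DensG 5 (10 / 7) := by
  have h := Pool.KRN73.geoOne 5 (25 / 7) (by norm_num) (by norm_num) (by norm_num) ef_five
  norm_num at h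
  exact h

/-- Tubes in dimension seven. -/
theorem dens_six : DensG 6 (21 / 10) := by
  have h := Pool.KRN73.geoOne 6 (39 / 10) (by norm_num) (by norm_num) (by norm_num)
    (ef_six' Pool.PB.kp3_thm Pool.K2S.kp_2 Pool.KAL.KP1.kp_one)
  norm_num at h
  exact h

/-- Kakeya sets in dimension six. -/
theorem dim_six (K : Set (EuclideanSpace ℝ (Fin (5 + 1))))
    (hK : ∀ e : EuclideanSpace ℝ (Fin (5 + 1)), ‖e‖ = 1 →
      ∃ x : EuclideanSpace ℝ (Fin (5 + 1)), ∀ t : ℝ, 0 ≤ t → t ≤ 1 → x + t • e ∈ K) :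
    ENNReal.ofReal (32 / 7) ≤ dimH K := by
  have h := t_geo2 5 (10 / 7) (by norm_num) (by norm_num) dens_five K hK
  refine le_trans (le_of_eq ?_) h
  norm_num

/-- Kakeya sets in dimension seven. -/
theorem dim_seven (K : Set (EuclideanSpace ℝ (Fin (6 + 1))))
    (hK : ∀ e : EuclideanSpace ℝ (Fin (6 + 1)), ‖e‖ = 1 →
      ∃ x : EuclideanSpace ℝ (Fin (6 + 1)), ∀ t : ℝ, 0 ≤ t → t ≤ 1 → x + t • e ∈ K) :
    ENNReal.ofReal (49 / 10) ≤ dimH K := by
  have h := t_geo2 6 (21 / 10) (by norm_num) (by norm_num) dens_six K hK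
  refine le_trans (le_of_eq ?_) h
  norm_num

end Pool.KRN
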