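import Pool.Agent.H9.KRN.Lin

/-!
# Functionals in general position
-/

set_option autoImplicit false

open Finset Real

namespace Pool.KRN

variable {m K : ℕ}

/-- Quantitative general position of `K` functionals. -/
structure GPos (a : Fin K → Fin m → ℝ) (C : ℕ) : Prop where
  le : ∀ i, ∑ s, |a i s| ≤ 1
  det : ∀ s : Finset (Fin K), s.card = m → ∀ (x : Fin m → ℝ) (δ : ℝ),
    (∀ i ∈ s, |∑ r, a i r * x r| ≤ δ) → ∀ r, |x r| ≤ C * δ

lemma exists_gpos (hm : 0 < m) (K : ℕ) : ∃ (a : Fin K → Fin m → ℝ) (C : ℕ), GPos a C := by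
  classical
  obtain ⟨nm, hnm⟩ : ∃ nm : Fin K → ℝ, nm = fun i : Fin K => ∑ s : Fin m, |((i : ℕ) : ℝ) ^ (s : ℕ)| :=
    ⟨_, rfl⟩
  have hnm1 : ∀ i, 1 ≤ nm i := by
    intro i
    rw [hnm]
    have h := Finset.single_le_sum (f := fun s : Fin m => |((i : ℕ) : ℝ) ^ (s : ℕ)|)
      (fun s _ => abs_nonneg _) (Finset.mem_univ ⟨0, hm⟩)
    simpa using h
  obtain ⟨a, ha⟩ : ∃ a : Fin K → Fin m → ℝ, a = fun (i : Fin K) (s : Fin m) =>
    ((i : ℕ) : ℝ) ^ (s : ℕ) / nm i :=
    ⟨_, rfl⟩
  -- one set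
  have hone : ∀ s : Finset (Fin K), ∃ C : ℝ, 0 ≤ C ∧ (s.card = m → ∀ (x : Fin m → ℝ) (δ : ℝ),
      (∀ i ∈ s, |∑ r, a i r * x r| ≤ δ) → ∀ r, |x r| ≤ C * δ) := by
    intro s
    by_cases hs : s.card = m
    · obtain ⟨e, he⟩ : ∃ e : Fin m → Fin K, e = fun l => (s.orderEmbOfFin hs l) := ⟨_, rfl⟩
      have hes : ∀ l, e l ∈ s := fun l => by rw [he]; exact Finset.orderEmbOfFin_mem s hs l
      have hinj : Function.Injective e := by
        rw [he]
        exact (s.orderEmbOfFin hs).injective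
      obtain ⟨M, hM⟩ : ∃ M : Matrix (Fin m) (Fin m) ℝ,
        M = Matrix.vandermonde fun l => ((e l : ℕ) : ℝ) := ⟨_, rfl⟩
      have hdet : M.det ≠ 0 := by
        rw [hM, Matrix.det_vandermonde_ne_zero_iff]
        intro l l' hll
        have h1 : ((e l : ℕ) : ℝ) = ((e l' : ℕ) : ℝ) := hll
        have h2 : (e l : ℕ) = (e l' : ℕ) := by exact_mod_cast h1
        exact hinj (Fin.ext h2)
      have hunit : IsUnit M.det := isUnit_iff_ne_zero.mpr hdet
      refine ⟨∑ r : Fin m, ∑ l : Fin m, |M⁻¹ r l| * nm (e l), ?_, ?_⟩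
      · refine Finset.sum_nonneg fun r _ => Finset.sum_nonneg fun l _ => ?_
        have := hnm1 (e l)
        positivity
      · intro _ x δ hx r
        have h1 : x = M⁻¹.mulVec (M.mulVec x) := by
          rw [Matrix.mulVec_mulVec, Matrix.nonsing_inv_mul _ hunit, Matrix.one_mulVec]
        have h2 : ∀ l, |M.mulVec x l| ≤ nm (e l) * δ := by
          intro l
          have h3 := hx (e l) (hes l)
          have h4 : ∑ r, a (e l) r * x r = M.mulVec x l / nm (e l) := by
            rw [Matrix.mulVec, dotProduct, Finset.sum_div]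
            refine Finset.sum_congr rfl fun r _ => ?_
            rw [ha, hM, Matrix.vandermonde_apply]
            ring
          have h5 : 0 < nm (e l) := by linarith [hnm1 (e l)]
          rw [h4, abs_div, abs_of_pos h5, div_le_iff₀ h5] at h3
          linarith
        have hδ : 0 ≤ δ := by
          have h3 := hx (e ⟨0, hm⟩) (hes _)
          exact (abs_nonneg _).trans h3
        have h3 : x r = ∑ l, M⁻¹ r l * M.mulVec x l := by
          conv_lhs => rw [h1]
          rfl
        rw [h3]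
        calc |∑ l, M⁻¹ r l * M.mulVec x l| ≤ ∑ l, |M⁻¹ r l * M.mulVec x l| :=
              Finset.abs_sum_le_sum_abs _ _
          _ ≤ ∑ l, |M⁻¹ r l| * (nm (e l) * δ) := by
              refine Finset.sum_le_sum fun l _ => ?_
              rw [abs_mul]
              exact mul_le_mul_of_nonneg_left (h2 l) (abs_nonneg _)
          _ = (∑ l, |M⁻¹ r l| * nm (e l)) * δ := by
              rw [Finset.sum_mul]
              exact Finset.sum_congr rfl fun l _ => by ring
          _ ≤ (∑ r : Fin m, ∑ l : Fin m, |M⁻¹ r l| * nm (e l)) * δ := by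
              refine mul_le_mul_of_nonneg_right ?_ hδ
              refine Finset.single_le_sum (f := fun r => ∑ l : Fin m, |M⁻¹ r l| * nm (e l))
                (fun r _ => Finset.sum_nonneg fun l _ => ?_) (Finset.mem_univ r)
              have := hnm1 (e l)
              positivity
    · exact ⟨0, le_rfl, fun h => absurd h hs⟩
  choose Cs hCs0 hCs using hone
  obtain ⟨C, hC⟩ := exists_nat_ge (∑ s : Finset (Fin K), Cs s)
  refine ⟨a, C, ?_, ?_⟩
  · intro i
    have h1 : 0 < nm i := by linarith [hnm1 i]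
    have h2 : ∑ s, |a i s| = 1 := by
      have h3 : ∀ s, |a i s| = |((i : ℕ) : ℝ) ^ (s : ℕ)| / nm i := by
        intro s
        rw [ha]
        simp only
        rw [abs_div, abs_of_pos h1]
      simp_rw [h3]
      rw [← Finset.sum_div]
      have h4 : ∑ s : Fin m, |((i : ℕ) : ℝ) ^ (s : ℕ)| = nm i := by rw [hnm]
      rw [h4, div_self h1.ne']
    exact h2.le
  · intro s hs x δ hx r
    refine (hCs s hs x δ hx r).trans ?_
    have hδ : 0 ≤ δ := by
      have h1 : 0 < s.card := by omega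
      obtain ⟨i, hi⟩ := Finset.card_pos.mp h1
      exact (abs_nonneg _).trans (hx i hi)
    refine mul_le_mul_of_nonneg_right (le_trans ?_ hC) hδ
    exact Finset.single_le_sum (f := Cs) (fun s _ => hCs0 s) (Finset.mem_univ s)

/-- Complement of a few functionals. -/
lemma exists_compl {a : Fin K → Fin m → ℝ} {C : ℕ} (h : GPos a C) (hK : m ≤ K) {j j' : ℕ}
    (hj : j + j' = m) (τ : Fin j → Fin K) (hτ : Function.Injective τ) :
    ∃ c : Fin j' → Fin m → ℝ, (∀ l, ∑ s, |c l s| ≤ 1) ∧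
      ∀ (x : Fin m → ℝ) (δ : ℝ), (∀ l, |mv (fun l => a (τ l)) x l| ≤ δ) →
        (∀ l, |mv c x l| ≤ δ) → ∀ r, |x r| ≤ C * δ := by
  classical
  obtain ⟨s₁, hs₁⟩ : ∃ s₁ : Finset (Fin K), s₁ = univ.image τ := ⟨_, rfl⟩
  have hc₁ : s₁.card = j := by
    rw [hs₁, Finset.card_image_of_injective _ hτ, Finset.card_univ, Fintype.card_fin]
  obtain ⟨s, hs, hcs⟩ := Finset.exists_superset_card_eq (s := s₁) (n := m) (by omega)
    (by rw [Fintype.card_fin]; exact hK)
  have hc₂ : (s \ s₁).card = j' := by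
    rw [Finset.card_sdiff_of_subset hs, hcs, hc₁]
    omega
  refine ⟨fun l => a ((s \ s₁).orderEmbOfFin hc₂ l), fun l => h.le _, ?_⟩
  intro x δ hb hc r
  refine h.det s hcs x δ (fun i hi => ?_) r
  by_cases hi1 : i ∈ s₁
  · rw [hs₁] at hi1
    obtain ⟨l, -, rfl⟩ := Finset.mem_image.mp hi1
    exact hb l
  · have hi2 : i ∈ s \ s₁ := Finset.mem_sdiff.mpr ⟨hi, hi1⟩
    have : i ∈ Set.range ((s \ s₁).orderEmbOfFin hc₂) := by
      rw [Finset.range_orderEmbOfFin]
      exact hi2
    obtain ⟨l, hl⟩ := this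
    have h1 := hc l
    unfold mv at h1
    simp only at h1
    rw [hl] at h1
    exact h1

end Pool.KRN
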