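import Pool.Agent.H9.KRN.Gen
import Pool.Agent.H9.KRN.Vdm

/-!
# The inequalities in one class
-/

set_option autoImplicit false

open Finset Real

namespace Pool.KRN

open Pool.Agent.H49.Ent Pool.Agent.H32.Dense Pool.STK Pool.KA Pool.GP

variable {m k J N G K : ℕ} {g : ℕ → ℕ} {κ : Type}

/-- One functional as a matrix with one row. -/
def r1 (a : Fin K → Fin m → ℝ) (i : Fin K) : Fin 1 → Fin m → ℝ := fun _ => a i

/-- A family with given directions. -/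
noncomputable def boxFam {Ω : Type} [inst : Fintype Ω] {q : Ω → ℝ} (hq : IsLaw q) {j : ℕ} (J : ℕ)
    {x : Ω → Fin j → ℝ} (hx : ∀ ω s, |x ω s| ≤ 1) : Pool.KA.Fam j J where
  Ω := Ω
  ζ := Unit
  fin := inst
  p := q
  u := x
  d := x
  T := fun _ => 0
  Z := fun _ => ()
  isLaw := hq
  dir := hx
  tim := fun _ => by positivity

/-- Entropy of a bounded rounded vector. -/
lemma H_box {Ω : Type} [Fintype Ω] {q : Ω → ℝ} (hq : IsLaw q) {j : ℕ} {x : Ω → Fin j → ℝ}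
    (hx : ∀ ω s, |x ω s| ≤ 1) :
    H q (fun ω => fl J (x ω)) ≤ j * (J * Real.log 2 + Real.log 3) :=
  H_dir_le (boxFam hq J hx)

/-- Entropy of the line seen by one functional. -/
lemma H_L1 (F : Pool.KA.Fam m J) (hu : ∀ ω i, |F.u ω i| ≤ 1) {q : F.Ω → ℝ} (hq : IsLaw q)
    {a : Fin K → Fin m → ℝ} (ha : ∀ i, ∑ s, |a i s| ≤ 1) (i : Fin K) :
    H q (Lb F (r1 a i)) ≤ 2 * (J * Real.log 2 + Real.log 3) := by
  have h1 := H_box (J := J) (j := 1) hq (x := fun ω => mv (r1 a i) (F.u ω))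
    (fun ω l => abs_mv_le (fun _ => ha i) zero_le_one (hu ω) l)
  have h2 := H_box (J := J) (j := 1) hq (x := fun ω => mv (r1 a i) (F.d ω))
    (fun ω l => abs_mv_le (fun _ => ha i) zero_le_one (F.dir ω) l)
  have h3 := subadd hq.nonneg hq.sum_one (X := fun ω => fl J (mv (r1 a i) (F.u ω)))
    (Y := fun ω => fl J (mv (r1 a i) (F.d ω))) (W := Lb F (r1 a i))
    (fun ω ω' _ _ h => h)
  push_cast at h1 h2
  linarith

/-- Coarser directions. -/
lemma H_trc (F : Pool.KA.Fam m J) {q : F.Ω → ℝ} (hq : IsLaw q) {j : ℕ} (hj : j ≤ J) :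
    H q (F.D J) ≤ H q (F.D j) + m * (((J : ℝ) - j) * Real.log 2 + Real.log 3) := by
  have h1 := CH_near (m := m) hq (F.D J) (F.D j) (2 ^ (J - j)) (by
    intro ω ω' h s
    have h2 := abs_of_fl (J := j) (x := F.d ω) (y := F.d ω') h s
    have h3 : (2 : ℝ) ^ J = 2 ^ (J - j) * 2 ^ j := by rw [← pow_add, Nat.sub_add_cancel hj]
    change |((⌊2 ^ J * F.d ω s⌋ - ⌊2 ^ J * F.d ω' s⌋ : ℤ) : ℝ)| ≤ _
    refine floor_near ?_
    have h4 : 2 ^ J * F.d ω s - 2 ^ J * F.d ω' s =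
        2 ^ (J - j) * (2 ^ j * F.d ω s - 2 ^ j * F.d ω' s) := by
      rw [h3]; ring
    rw [h4, abs_mul, abs_of_pos (by positivity : (0 : ℝ) < 2 ^ (J - j))]
    push_cast
    calc (2 : ℝ) ^ (J - j) * |2 ^ j * F.d ω s - 2 ^ j * F.d ω' s| < 2 ^ (J - j) * 1 :=
          mul_lt_mul_of_pos_left h2 (by positivity)
      _ = _ := mul_one _)
  have h2 : H q (F.D J) ≤ H q (F.D j) + CH q (F.D J) (F.D j) := by
    unfold CH
    have := H_mono hq.nonneg (X := fun ω => (F.D J ω, F.D j ω)) (Y := F.D J)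
      (fun ω ω' _ _ h => (Prod.ext_iff.mp h).1)
    linarith
  have h3 : Real.log (2 * ((2 ^ (J - j) : ℕ) : ℝ) + 1) ≤
      ((J : ℝ) - j) * Real.log 2 + Real.log 3 := by
    have h4 : 2 * ((2 ^ (J - j) : ℕ) : ℝ) + 1 ≤ 3 * 2 ^ (J - j) := by
      have : (1 : ℝ) ≤ 2 ^ (J - j) := one_le_pow₀ (by norm_num)
      push_cast
      linarith
    have h5 := Real.log_le_log (by positivity) h4
    rw [Real.log_mul (by norm_num) (by positivity), Real.log_pow, Nat.cast_sub hj] at h5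
    linarith
  have h4 : (m : ℝ) * Real.log (2 * ((2 ^ (J - j) : ℕ) : ℝ) + 1) ≤
      m * (((J : ℝ) - j) * Real.log 2 + Real.log 3) :=
    mul_le_mul_of_nonneg_left h3 (Nat.cast_nonneg _)
  linarith

/-- Submodularity through `Z`. -/
lemma CH_through {Ω S T : Type} [Fintype Ω] {q : Ω → ℝ} (X : Ω → S) (Z : Ω → T)
    (hq : ∀ ω, 0 ≤ q ω) : CH q X Z = H q X + CH q Z X - H q Z := by
  unfold CH
  have : H q (fun ω => (X ω, Z ω)) = H q (fun ω => (Z ω, X ω)) :=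
    H_congr hq (fun ω ω' _ _ h => Prod.ext (Prod.ext_iff.mp h).2 (Prod.ext_iff.mp h).1)
      (fun ω ω' _ _ h => Prod.ext (Prod.ext_iff.mp h).2 (Prod.ext_iff.mp h).1)
  rw [this]
  ring

lemma Lb_two (F : Pool.KA.Fam m J) (a : Fin K → Fin m → ℝ) (τ : Fin 2 → Fin K) (ω ω' : F.Ω)
    (h0 : Lb F (r1 a (τ 0)) ω = Lb F (r1 a (τ 0)) ω')
    (h1 : Lb F (r1 a (τ 1)) ω = Lb F (r1 a (τ 1)) ω') :
    Lb F (fun l => a (τ l)) ω = Lb F (fun l => a (τ l)) ω' := by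
  have a0 := Prod.ext_iff.mp h0
  have a1 := Prod.ext_iff.mp h1
  refine Prod.ext ?_ ?_
  · funext l
    fin_cases l
    · exact congrFun a0.1 0
    · exact congrFun a1.1 0
  · funext l
    fin_cases l
    · exact congrFun a0.2 0
    · exact congrFun a1.2 0

lemma Lb_three (F : Pool.KA.Fam m J) (a : Fin K → Fin m → ℝ) (τ : Fin 3 → Fin K) (ω ω' : F.Ω)
    (h0 : Lb F (r1 a (τ 0)) ω = Lb F (r1 a (τ 0)) ω')
    (h1 : Lb F (r1 a (τ 1)) ω = Lb F (r1 a (τ 1)) ω')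
    (h2 : Lb F (r1 a (τ 2)) ω = Lb F (r1 a (τ 2)) ω') :
    Lb F (fun l => a (τ l)) ω = Lb F (fun l => a (τ l)) ω' := by
  have a0 := Prod.ext_iff.mp h0
  have a1 := Prod.ext_iff.mp h1
  have a2 := Prod.ext_iff.mp h2
  refine Prod.ext ?_ ?_
  · funext l
    fin_cases l
    · exact congrFun a0.1 0
    · exact congrFun a1.1 0
    · exact congrFun a2.1 0
  · funext l
    fin_cases l
    · exact congrFun a0.2 0
    · exact congrFun a1.2 0
    · exact congrFun a2.2 0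

lemma sub_two (F : Pool.KA.Fam m J) {q : F.Ω → ℝ} (hq : IsLaw q) (a : Fin K → Fin m → ℝ)
    (τ : Fin 2 → Fin K) {T : Type} (Z : F.Ω → T) :
    H q (Lb F (fun l => a (τ l))) ≤ H q (Lb F (r1 a (τ 0))) + CH q Z (Lb F (r1 a (τ 0))) +
      H q (Lb F (r1 a (τ 1))) + CH q Z (Lb F (r1 a (τ 1))) - H q Z := by
  have hn := hq.nonneg
  have h1 : H q (Lb F (fun l => a (τ l))) ≤
      H q (fun ω => ((Lb F (r1 a (τ 0)) ω, Lb F (r1 a (τ 1)) ω), Z ω)) := by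
    refine H_mono hn ?_
    intro ω ω' _ _ h
    have e := Prod.ext_iff.mp (Prod.ext_iff.mp h).1
    exact Lb_two F a τ ω ω' e.1 e.2
  have h2 := CH_subadd hn (Lb F (r1 a (τ 0))) (Lb F (r1 a (τ 1))) Z
  have h3 := CH_through (Lb F (r1 a (τ 0))) Z hn
  have h4 := CH_through (Lb F (r1 a (τ 1))) Z hn
  have h5 : H q (fun ω => ((Lb F (r1 a (τ 0)) ω, Lb F (r1 a (τ 1)) ω), Z ω)) =
      CH q (fun ω => (Lb F (r1 a (τ 0)) ω, Lb F (r1 a (τ 1)) ω)) Z + H q Z := by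
    unfold CH
    ring
  linarith

lemma sub_three (F : Pool.KA.Fam m J) {q : F.Ω → ℝ} (hq : IsLaw q) (a : Fin K → Fin m → ℝ)
    (τ : Fin 3 → Fin K) {T : Type} (Z : F.Ω → T) :
    H q (Lb F (fun l => a (τ l))) ≤ H q (Lb F (r1 a (τ 0))) + CH q Z (Lb F (r1 a (τ 0))) +
      H q (Lb F (r1 a (τ 1))) + CH q Z (Lb F (r1 a (τ 1))) +
      H q (Lb F (r1 a (τ 2))) + CH q Z (Lb F (r1 a (τ 2))) - 2 * H q Z := by
  have hn := hq.nonneg
  have h1 : H q (Lb F (fun l => a (τ l))) ≤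
      H q (fun ω => ((Lb F (r1 a (τ 0)) ω, (Lb F (r1 a (τ 1)) ω, Lb F (r1 a (τ 2)) ω)), Z ω)) := by
    refine H_mono hn ?_
    intro ω ω' _ _ h
    have e := Prod.ext_iff.mp (Prod.ext_iff.mp h).1
    have e' := Prod.ext_iff.mp e.2
    exact Lb_three F a τ ω ω' e.1 e'.1 e'.2
  have h2 := CH_subadd hn (Lb F (r1 a (τ 0)))
    (fun ω => (Lb F (r1 a (τ 1)) ω, Lb F (r1 a (τ 2)) ω)) Z
  have h2' := CH_subadd hn (Lb F (r1 a (τ 1))) (Lb F (r1 a (τ 2))) Z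
  have h3 := CH_through (Lb F (r1 a (τ 0))) Z hn
  have h4 := CH_through (Lb F (r1 a (τ 1))) Z hn
  have h4' := CH_through (Lb F (r1 a (τ 2))) Z hn
  have h5 : H q (fun ω => ((Lb F (r1 a (τ 0)) ω, (Lb F (r1 a (τ 1)) ω, Lb F (r1 a (τ 2)) ω)),
      Z ω)) = CH q (fun ω => (Lb F (r1 a (τ 0)) ω, (Lb F (r1 a (τ 1)) ω, Lb F (r1 a (τ 2)) ω))) Z +
      H q Z := by
    unfold CH
    ring
  linarith

/-- The inequality `KP j` for linear images of a family, with bound `E`. -/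
def ImgB (F : Pool.KA.Fam m J) (j : ℕ) (E : ℝ) : Prop :=
  ∀ (M : Fin j → Fin m → ℝ) (hM : ∀ l, ∑ s, |M l s| ≤ 1) (S : Type) (z : F.Ω → S),
    (∀ ω ω', F.l ω = F.l ω' → z ω = z ω') → (img F M hM z).V J ≤ E

/-- **The inequalities in one class.** -/
theorem cls (F : Pool.KA.Fam m J) (hk : 3 ≤ k) (hm : m = k + 2) (hu : ∀ ω i, |F.u ω i| ≤ 1)
    {a : Fin K → Fin m → ℝ} {C : ℕ} (hG : GPos a C) (hK : m ≤ K) (hg : Grid J N G g)
    (A : F.Ω → κ) (a₀ : κ) (ha : 0 < law F.p A a₀) (hl : IsLaw (cond F.p A a₀))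
    (τ : Fin 3 → Fin K) (hτ : Function.Injective τ) {n₀ : ℕ}
    (hmin : ∀ l, ∀ ω, A ω = a₀ → 0 < F.p ω → ∀ n ≤ N,
      fi F.p (Lb F (r1 a (τ l))) F.d J k g n₀ ω ≤ fi F.p (Lb F (r1 a (τ l))) F.d J k g n ω)
    {E η B : ℝ} (hE : 0 ≤ E) (hη : 0 ≤ η) (hI1 : ImgB (F.res A a₀ hl) 1 E)
    (hI2 : ImgB (F.res A a₀ hl) 2 E) (hI3 : ImgB (F.res A a₀ hl) 3 E)
    (hIk : ImgB (F.res A a₀ hl) k E) (hIk' : ImgB (F.res A a₀ hl) (k - 1) E)
    (hD : m * (J * Real.log 2) - η ≤ H (cond F.p A a₀) (F.D J))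
    (hB1 : Cc m 2 k C ≤ B) (hB2 : Cc m 3 (k - 1) C ≤ B) (hB3 : Cg m k N G (m - 1) C ≤ B)
    (hB4 : m * Real.log 3 ≤ B) (hB5 : 2 * Real.log 3 ≤ B) :
    ∃ x : ℝ, 0 ≤ x ∧ x ≤ J * Real.log 2 ∧
      (3 * k + 2) * (J * Real.log 2) + (2 - k) * x ≤ 3 * CH (cond F.p A a₀) (F.X J) F.T +
        20 * (η - Real.log (law F.p A a₀) + E + B) ∧
      (4 * k + 2) * (J * Real.log 2) + (4 - k) * x ≤ 4 * CH (cond F.p A a₀) (F.X J) F.T +
        20 * (η - Real.log (law F.p A a₀) + E + B) := by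
  obtain ⟨q, hq⟩ : ∃ q, q = cond F.p A a₀ := ⟨_, rfl⟩
  have hlq : IsLaw q := hq ▸ hl
  have hm0 : 0 < m := by omega
  have hlog2 : 0 < Real.log 2 := Real.log_pos (by norm_num)
  have hlog3 : 0 < Real.log 3 := Real.log_pos (by norm_num)
  obtain ⟨Λ, hΛ⟩ : ∃ Λ : ℝ, Λ = -Real.log (law F.p A a₀) := ⟨_, rfl⟩
  have hΛ0 : 0 ≤ Λ := by
    rw [hΛ, neg_nonneg]
    refine Real.log_nonpos ha.le ?_
    exact (law_le_total F.isLaw.nonneg A a₀).trans F.isLaw.sum_one.le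
  obtain ⟨L, hL⟩ : ∃ L : ℝ, L = J * Real.log 2 := ⟨_, rfl⟩
  obtain ⟨x, hx⟩ : ∃ x : ℝ, x = (g n₀ : ℝ) * Real.log 2 := ⟨_, rfl⟩
  have hgJ : ((g n₀ : ℕ) : ℝ) ≤ J := by exact_mod_cast hg.le n₀
  have hx0 : 0 ≤ x := by rw [hx]; positivity
  have hxL : x ≤ L := by rw [hx, hL]; exact mul_le_mul_of_nonneg_right hgJ hlog2.le
  obtain ⟨S, hS⟩ : ∃ S : ℝ, S = CH q (F.X J) F.T := ⟨_, rfl⟩
  have hmk : (m : ℝ) = k + 2 := by rw [hm]; push_cast; ring
  have hk1 : ((k - 1 : ℕ) : ℝ) = (k : ℝ) - 1 := by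
    rw [Nat.cast_sub (by omega)]; norm_num
  have hm1 : ((m - 1 : ℕ) : ℝ) = (k : ℝ) + 1 := by
    rw [Nat.cast_sub (by omega), hmk]; norm_num; ring
  -- one functional
  have hgen : ∀ l : Fin 3, CH q (F.D (g n₀)) (Lb F (r1 a (τ l))) ≤
      S - L - k * (L - x) + (η + Λ + 2 * E + B) := by
    intro l
    obtain ⟨c, hc, hdet⟩ := exists_compl (j := 1) (j' := m - 1) hG hK (by omega)
      (fun _ => τ l) (fun _ _ _ => Subsingleton.elim _ _)
    have h1 := gen (k := k) F hm0 hg A a₀ ha hl (b := r1 a (τ l)) (c := c)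
      (fun _ => hG.le _) hc hdet (E := E)
      (hI1 _ _ _ _ (fun _ _ _ => rfl))
      (fun r => hIk _ _ _ _ (fun ω ω' h => Lb_of_l (F.res A a₀ hl) _ ω ω' h))
      (n₀ := n₀) (hmin l)
    rw [← hq] at h1 hD
    rw [← hS, ← hL] at h1
    rw [← hL] at hD
    have h2 : ((k * (J - g n₀) : ℕ) : ℝ) * Real.log 2 = k * (L - x) := by
      push_cast
      rw [Nat.cast_sub (hg.le n₀), hL, hx]
      ring
    rw [h2, hm1] at h1
    rw [hmk] at hD
    linarith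
  have hHD : (k + 2) * L - η ≤ H q (F.D J) := by
    rw [← hq, ← hL, hmk] at hD
    exact hD
  -- coarse directions
  have hDg : (k + 2) * x - η - B ≤ H q (F.D (g n₀)) := by
    have h1 := H_trc F hlq (hg.le n₀)
    have h2 : m * (((J : ℝ) - g n₀) * Real.log 2 + Real.log 3) =
        (k + 2) * (L - x) + m * Real.log 3 := by
      rw [hL, hx, ← hmk]
      ring
    rw [h2] at h1
    linarith
  -- lines
  have hH1 : ∀ l : Fin 3, H q (Lb F (r1 a (τ l))) ≤ 2 * L + B := by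
    intro l
    have h1 := H_L1 F hu hlq hG.le (τ l)
    rw [← hL] at h1
    linarith
  -- chain two
  have hc2 : 2 * H q (F.D J) - k * L - H q (Lb F (fun l : Fin 2 => a (τ (Fin.castLE (by omega) l))))
      - 2 * E - B ≤ S := by
    obtain ⟨c, hc, hdet⟩ := exists_compl (j := 2) (j' := k) hG hK (by omega)
      (fun l => τ (Fin.castLE (by omega) l)) (fun l l' h => Fin.castLE_injective _ (hτ h))
    have h1 := chain (F.res A a₀ hl) (b := fun l : Fin 2 => a (τ (Fin.castLE (by omega) l)))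
      (c := c) (fun _ => hG.le _) hc hdet (E := E)
      (hI2 _ _ _ _ (fun _ _ _ => rfl))
      (hIk _ _ _ _ (fun ω ω' h => Lb_of_l (F.res A a₀ hl) _ ω ω' h))
    have e1 : H (F.res A a₀ hl).p ((F.res A a₀ hl).D J) = H q (F.D J) := by rw [hq]; rfl
    have e2 : H (F.res A a₀ hl).p (Lb (F.res A a₀ hl)
        (fun l : Fin 2 => a (τ (Fin.castLE (by omega) l)))) =
        H q (Lb F (fun l : Fin 2 => a (τ (Fin.castLE (by omega) l)))) := by rw [hq]; rfl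
    have e3 : CH (F.res A a₀ hl).p ((F.res A a₀ hl).X J) (F.res A a₀ hl).T = S := by
      rw [hS, hq]; rfl
    rw [e1, e2, e3, ← hL] at h1
    linarith
  have hs2 := sub_two F hlq a (fun l : Fin 2 => τ (Fin.castLE (by omega) l)) (F.D (g n₀))
  -- chain three
  have hc3 : 2 * H q (F.D J) - (k - 1) * L - H q (Lb F (fun l : Fin 3 => a (τ l)))
      - 2 * E - B ≤ S := by
    obtain ⟨c, hc, hdet⟩ := exists_compl (j := 3) (j' := k - 1) hG hK (by omega) τ hτ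
    have h1 := chain (F.res A a₀ hl) (b := fun l : Fin 3 => a (τ l))
      (c := c) (fun _ => hG.le _) hc hdet (E := E)
      (hI3 _ _ _ _ (fun _ _ _ => rfl))
      (hIk' _ _ _ _ (fun ω ω' h => Lb_of_l (F.res A a₀ hl) _ ω ω' h))
    have e1 : H (F.res A a₀ hl).p ((F.res A a₀ hl).D J) = H q (F.D J) := by rw [hq]; rfl
    have e2 : H (F.res A a₀ hl).p (Lb (F.res A a₀ hl) (fun l : Fin 3 => a (τ l))) =
        H q (Lb F (fun l : Fin 3 => a (τ l))) := by rw [hq]; rfl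
    have e3 : CH (F.res A a₀ hl).p ((F.res A a₀ hl).X J) (F.res A a₀ hl).T = S := by
      rw [hS, hq]; rfl
    rw [e1, e2, e3, ← hL, hk1] at h1
    linarith
  have hs3 := sub_three F hlq a τ (F.D (g n₀))
  have t0 : (τ (Fin.castLE (by omega) (0 : Fin 2)) : Fin K) = τ 0 := rfl
  have t1 : (τ (Fin.castLE (by omega) (1 : Fin 2)) : Fin K) = τ 1 := rfl
  rw [t0, t1] at hs2
  have g0 := hgen 0
  have g1 := hgen 1
  have g2 := hgen 2
  have l0 := hH1 0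
  have l1 := hH1 1
  have l2 := hH1 2
  have hB0 : 0 ≤ B := le_trans (by positivity) hB5
  refine ⟨x, hx0, hL ▸ hxL, ?_, ?_⟩
  · rw [← hq, ← hS, ← hL]
    have e : -Real.log (law F.p A a₀) = Λ := hΛ.symm
    have : η - Real.log (law F.p A a₀) + E + B = η + Λ + E + B := by rw [← e]; ring
    rw [this]
    nlinarith
  · rw [← hq, ← hS, ← hL]
    have e : -Real.log (law F.p A a₀) = Λ := hΛ.symm
    have : η - Real.log (law F.p A a₀) + E + B = η + Λ + E + B := by rw [← e]; ring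
    rw [this]
    nlinarith

end Pool.KRN
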