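import Pool.Agent.H9.KRN.Main

/-!
# From classes to families
-/

set_option autoImplicit false

open Finset Real

namespace Pool.KRN

open Pool.Agent.H49.Ent Pool.Agent.H32.Dense Pool.STK Pool.KA Pool.GP

/-- The bound `s` in all classes of not too small probability. -/
def ClsB (m : ℕ) (s : ℝ) : Prop :=
  ∀ ε > 0, ∃ (κ : Type) (_ : Fintype κ), ∀ c₀ : ℝ, 0 < c₀ → c₀ ≤ 1 → ∃ θ' > 0, ∃ J₀ : ℕ, ∀ J ≥ J₀,
    ∀ F : Pool.KA.Fam m J, (∀ ω i, |F.u ω i| ≤ 1) → ∃ A : F.Ω → κ, ∀ b, c₀ ≤ law F.p A b →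
      ∀ hl : IsLaw (cond F.p A b), (F.res A b hl).Tm (θ' * J) →
      m * (J * Real.log 2) - θ' * J ≤ H (cond F.p A b) (F.D J) →
      (s - ε) * (J * Real.log 2) ≤ CH (cond F.p A b) (F.X J) F.T

/-- **From classes to families.** -/
theorem ef_of_cls {m : ℕ} {s : ℝ} (hs0 : 0 ≤ s) (h : ClsB m s) : EF m s := by
  classical
  intro ε hε
  have hlog2 : 0 < Real.log 2 := Real.log_pos (by norm_num)
  have hlog3 : 0 < Real.log 3 := Real.log_pos (by norm_num)
  obtain ⟨κ, hκ, hcls⟩ := h (ε / 2) (by positivity)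
  obtain ⟨q, hq⟩ : ∃ q : ℝ, q = (Fintype.card κ : ℝ) + 1 := ⟨_, rfl⟩
  have hq1 : 1 ≤ q := by
    rw [hq]
    have : (0 : ℝ) ≤ Fintype.card κ := Nat.cast_nonneg _
    linarith
  have hqκ : (Fintype.card κ : ℝ) ≤ q := by rw [hq]; linarith
  obtain ⟨c₀, hc₀⟩ : ∃ c₀ : ℝ, c₀ = min 1 (ε / (2 * (s + 1) * q)) := ⟨_, rfl⟩
  have hc₀0 : 0 < c₀ := by rw [hc₀]; positivity
  have hc₀1 : c₀ ≤ 1 := by rw [hc₀]; exact min_le_left _ _
  have hc₀2 : q * c₀ * (s + 1) ≤ ε / 2 := by
    have h1 : c₀ ≤ ε / (2 * (s + 1) * q) := by rw [hc₀]; exact min_le_right _ _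
    calc q * c₀ * (s + 1) ≤ q * (ε / (2 * (s + 1) * q)) * (s + 1) := by gcongr
      _ = ε / 2 := by field_simp
  obtain ⟨θ', hθ', J₁, hJ₁⟩ := hcls c₀ hc₀0 hc₀1
  obtain ⟨θ, hθ⟩ : ∃ θ : ℝ, θ = min (c₀ * θ' / 2) (c₀ * θ' / (2 * Real.log 2)) := ⟨_, rfl⟩
  have hθ0 : 0 < θ := by rw [hθ]; positivity
  have hθa : θ ≤ c₀ * θ' / 2 := by rw [hθ]; exact min_le_left _ _
  have hθb : θ * Real.log 2 ≤ c₀ * θ' / 2 := by
    have h1 : θ ≤ c₀ * θ' / (2 * Real.log 2) := by rw [hθ]; exact min_le_right _ _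
    calc θ * Real.log 2 ≤ c₀ * θ' / (2 * Real.log 2) * Real.log 2 := by gcongr
      _ = c₀ * θ' / 2 := by field_simp
  have hlq : 0 ≤ Real.log q := Real.log_nonneg hq1
  obtain ⟨Jb, hJb⟩ := exists_nat_ge ((Real.log q + m * Real.log 3) / (c₀ * θ' / 2) + 1)
  refine ⟨θ, hθ0, max Jb J₁, ?_⟩
  intro J hJ F hu hTm hD
  have b0 : Jb ≤ J := le_trans (le_max_left _ _) hJ
  have b1 : J₁ ≤ J := le_trans (le_max_right _ _) hJ
  have hJr : (Jb : ℝ) ≤ J := by exact_mod_cast b0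
  have t1 : 0 ≤ (Real.log q + m * Real.log 3) / (c₀ * θ' / 2) := by positivity
  have c1 : Real.log q + m * Real.log 3 ≤ c₀ * θ' / 2 * J := by
    have h1 : (Real.log q + m * Real.log 3) / (c₀ * θ' / 2) ≤ J := by linarith
    rw [div_le_iff₀ (by positivity)] at h1
    linarith
  have hJ1' : (1 : ℝ) ≤ J := by linarith
  have hJ0 : (0 : ℝ) < J := by linarith
  obtain ⟨L, hL⟩ : ∃ L : ℝ, L = J * Real.log 2 := ⟨_, rfl⟩
  have hL0 : 0 < L := by rw [hL]; positivity
  have hp := F.isLaw.nonneg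
  obtain ⟨A, hA⟩ := hJ₁ J b1 F hu
  have hlaw0 : ∀ b, 0 ≤ law F.p A b := fun b => law_nonneg hp A b
  have hlaw1 : ∑ b, law F.p A b = 1 := by rw [tya_law_sum, F.isLaw.sum_one]
  have hκ0 : (0 : ℝ) < Fintype.card κ := by
    obtain ⟨ω, -⟩ : ∃ ω, 0 < F.p ω := by
      by_contra hcon
      push Not at hcon
      have : ∑ ω, F.p ω = 0 := Finset.sum_eq_zero fun ω _ => le_antisymm (hcon ω) (hp ω)
      rw [F.isLaw.sum_one] at this
      exact one_ne_zero this
    exact_mod_cast Fintype.card_pos_iff.mpr ⟨A ω⟩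
  have hlκ : Real.log (Fintype.card κ) ≤ Real.log q := Real.log_le_log hκ0 hqκ
  -- one class
  have hcls' : ∀ b, c₀ ≤ law F.p A b → (s - ε / 2) * L ≤ CH (cond F.p A b) (F.X J) F.T := by
    intro b hb
    have hb0 : 0 < law F.p A b := lt_of_lt_of_le hc₀0 hb
    have hlb : IsLaw (cond F.p A b) := ⟨cond_nonneg hp A b, sum_cond F.p A hb0.ne'⟩
    rw [hL]
    refine hA b hb hlb ?_ ?_
    · have h1 := (tya_thm m J F κ A (θ * J) hTm).2
        (fun c hc => ⟨cond_nonneg hp A c, sum_cond F.p A hc.ne'⟩)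
      have h2 := h1.2 b hb0
      refine tm_mono h2 ?_
      rw [div_le_iff₀ hb0]
      have h3 : θ * J ≤ c₀ * θ' / 2 * J := mul_le_mul_of_nonneg_right hθa hJ0.le
      have h4 : 0 ≤ m * Real.log 3 := by positivity
      calc θ * J + Real.log (Fintype.card κ) ≤ θ' * J * c₀ := by linarith
        _ ≤ θ' * J * law F.p A b := mul_le_mul_of_nonneg_left hb (by positivity)
    · have h1 := H_class F A b (t := θ * (J * Real.log 2)) (by
        have : ((m : ℝ) - θ) * (J * Real.log 2) =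
          m * (J * Real.log 2) - θ * (J * Real.log 2) := by ring
        rw [← this]
        exact hD) hb0
      have h2 : (θ * (J * Real.log 2) + Real.log (Fintype.card κ) + m * Real.log 3) /
          law F.p A b ≤ θ' * J := by
        rw [div_le_iff₀ hb0]
        have h3 : θ * (J * Real.log 2) ≤ c₀ * θ' / 2 * J := by
          have : θ * (J * Real.log 2) = θ * Real.log 2 * J := by ring
          rw [this]
          exact mul_le_mul_of_nonneg_right hθb hJ0.le
        calc _ ≤ θ' * J * c₀ := by linarith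
          _ ≤ θ' * J * law F.p A b := mul_le_mul_of_nonneg_left hb (by positivity)
      linarith
  -- the sum
  have hsum := (tya_CH_le F.isLaw (F.X J) F.T A).1
  rw [tya_CH_sum hp] at hsum
  rw [← hL]
  rcases le_or_gt ((s - ε / 2) * L) 0 with hv | hv
  · have h1 := CH_nonneg hp (F.X J) F.T
    have h2 : (s - ε) * L ≤ (s - ε / 2) * L := by
      apply mul_le_mul_of_nonneg_right _ hL0.le
      linarith
    linarith
  · have h1 : ∀ b, (law F.p A b - c₀) * ((s - ε / 2) * L) ≤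
        law F.p A b * CH (cond F.p A b) (F.X J) F.T := by
      intro b
      have h2 : 0 ≤ CH (cond F.p A b) (F.X J) F.T := CH_nonneg (cond_nonneg hp A b) _ _
      rcases le_or_gt c₀ (law F.p A b) with hb | hb
      · have h3 := mul_le_mul_of_nonneg_left (hcls' b hb) (hlaw0 b)
        have h4 : 0 ≤ c₀ * ((s - ε / 2) * L) := by positivity
        linarith
      · have h3 : (law F.p A b - c₀) * ((s - ε / 2) * L) ≤ 0 :=
          mul_nonpos_of_nonpos_of_nonneg (by linarith) hv.le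
        have h4 := mul_nonneg (hlaw0 b) h2
        linarith
    have h2 := Finset.sum_le_sum (s := univ) fun b _ => h1 b
    rw [← Finset.sum_mul, Finset.sum_sub_distrib, hlaw1, Finset.sum_const, Finset.card_univ,
      nsmul_eq_mul] at h2
    have h3 : (Fintype.card κ : ℝ) * c₀ * ((s - ε / 2) * L) ≤ ε / 2 * L := by
      calc (Fintype.card κ : ℝ) * c₀ * ((s - ε / 2) * L) ≤ q * c₀ * ((s + 1) * L) := by
            apply mul_le_mul (by gcongr) _ hv.le (by positivity)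
            apply mul_le_mul_of_nonneg_right _ hL0.le
            linarith
        _ = q * c₀ * (s + 1) * L := by ring
        _ ≤ ε / 2 * L := mul_le_mul_of_nonneg_right hc₀2 hL0.le
    linarith

end Pool.KRN
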