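import Pool.Agent.H9.KRN.GenI
import Pool.Agent.H9.KRN.Sum

/-!
# Classes with a common minimiser for two pairs of functionals
-/

set_option autoImplicit false

open Finset Real

namespace Pool.KRN

open Pool.Agent.H49.Ent Pool.Agent.H32.Dense Pool.STK Pool.KA Pool.GP

/-- Classes: three functionals with the same minimiser, and two pairs with the same minimiser. -/
lemma exists_cls2 {Ω : Type} {K N : ℕ} (hK : (N + 2) * (N + 1) < K) (f : Fin K → ℕ → Ω → ℝ)
    (f2 : Fin K → Fin K → ℕ → Ω → ℝ) :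
    ∃ A : Ω → (Fin 3 → Fin K) × (Fin (N + 1) × Fin (N + 1)), ∀ ω, Function.Injective (A ω).1 ∧
      (∀ l, ∀ n ≤ N, f ((A ω).1 l) ((A ω).2.1 : ℕ) ω ≤ f ((A ω).1 l) n ω) ∧
      (∀ l, l ≠ 0 → ∀ n ≤ N, f2 ((A ω).1 0) ((A ω).1 l) ((A ω).2.2 : ℕ) ω ≤
        f2 ((A ω).1 0) ((A ω).1 l) n ω) := by
  classical
  suffices h : ∀ ω, ∃ a : (Fin 3 → Fin K) × (Fin (N + 1) × Fin (N + 1)), Function.Injective a.1 ∧
      (∀ l, ∀ n ≤ N, f (a.1 l) (a.2.1 : ℕ) ω ≤ f (a.1 l) n ω) ∧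
      (∀ l, l ≠ 0 → ∀ n ≤ N, f2 (a.1 0) (a.1 l) (a.2.2 : ℕ) ω ≤ f2 (a.1 0) (a.1 l) n ω) by
    choose A hA using h
    exact ⟨A, hA⟩
  intro ω
  have hex : ∀ i : Fin K, ∃ n : Fin (N + 1), ∀ n' : Fin (N + 1), f i n ω ≤ f i n' ω := by
    intro i
    obtain ⟨n, -, hn⟩ := Finset.exists_min_image univ (fun n : Fin (N + 1) => f i n ω)
      ⟨0, Finset.mem_univ _⟩
    exact ⟨n, fun n' => hn n' (Finset.mem_univ _)⟩
  have hex2 : ∀ i i' : Fin K, ∃ n : Fin (N + 1), ∀ n' : Fin (N + 1), f2 i i' n ω ≤ f2 i i' n' ω := by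
    intro i i'
    obtain ⟨n, -, hn⟩ := Finset.exists_min_image univ (fun n : Fin (N + 1) => f2 i i' n ω)
      ⟨0, Finset.mem_univ _⟩
    exact ⟨n, fun n' => hn n' (Finset.mem_univ _)⟩
  choose M hM using hex
  choose M2 hM2 using hex2
  obtain ⟨n, -, hn⟩ := Finset.exists_lt_card_fiber_of_mul_lt_card_of_maps_to (n := N + 2)
    (s := (univ : Finset (Fin K))) (t := (univ : Finset (Fin (N + 1)))) (f := M)
    (fun _ _ => Finset.mem_univ _) (by
      rw [Finset.card_univ, Finset.card_univ, Fintype.card_fin, Fintype.card_fin]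
      rw [mul_comm] at hK
      exact hK)
  obtain ⟨U, hU⟩ : ∃ U : Finset (Fin K), U = univ.filter fun i : Fin K => M i = n := ⟨_, rfl⟩
  rw [← hU] at hn
  obtain ⟨i₀, hi₀⟩ := Finset.card_pos.mp (lt_of_le_of_lt (Nat.zero_le _) hn)
  obtain ⟨n₂, -, hn₂⟩ := Finset.exists_lt_card_fiber_of_mul_lt_card_of_maps_to (n := 1)
    (s := U.erase i₀) (t := (univ : Finset (Fin (N + 1)))) (f := M2 i₀)
    (fun _ _ => Finset.mem_univ _) (by
      rw [Finset.card_univ, Fintype.card_fin, Finset.card_erase_of_mem hi₀]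
      omega)
  obtain ⟨j₁, hj₁, j₂, hj₂, hj⟩ := Finset.one_lt_card.mp hn₂
  rw [Finset.mem_filter, Finset.mem_erase] at hj₁ hj₂
  have hUM : ∀ i ∈ U, M i = n := fun i hi => by
    rw [hU] at hi
    exact (Finset.mem_filter.mp hi).2
  refine ⟨(![i₀, j₁, j₂], (n, n₂)), ?_, ?_, ?_⟩
  · intro l l' hll
    have e1 : i₀ ≠ j₁ := fun h => hj₁.1.1 h.symm
    have e2 : i₀ ≠ j₂ := fun h => hj₂.1.1 h.symm
    fin_cases l <;> fin_cases l' <;> first
      | rfl
      | (exfalso; exact e1 hll)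
      | (exfalso; exact e1 hll.symm)
      | (exfalso; exact e2 hll)
      | (exfalso; exact e2 hll.symm)
      | (exfalso; exact hj hll)
      | (exfalso; exact hj hll.symm)
  · intro l n' hn'
    have hmem : (![i₀, j₁, j₂] : Fin 3 → Fin K) l ∈ U := by
      fin_cases l
      · exact hi₀
      · exact hj₁.1.2
      · exact hj₂.1.2
    have h3 := hM ((![i₀, j₁, j₂] : Fin 3 → Fin K) l) ⟨n', by omega⟩
    rw [hUM _ hmem] at h3
    exact h3
  · intro l hl n' hn'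
    have hmem : M2 i₀ ((![i₀, j₁, j₂] : Fin 3 → Fin K) l) = n₂ := by
      fin_cases l
      · exact absurd rfl hl
      · exact hj₁.2
      · exact hj₂.2
    have h3 := hM2 i₀ ((![i₀, j₁, j₂] : Fin 3 → Fin K) l) ⟨n', by omega⟩
    rw [hmem] at h3
    exact h3

variable {m k J N G K : ℕ} {g : ℕ → ℕ} {κ : Type}

/-- Two functionals. -/
def r2 (a : Fin K → Fin m → ℝ) (i i' : Fin K) : Fin 2 → Fin m → ℝ := fun l => a (![i, i'] l)

lemma Lb_pair (F : Pool.KA.Fam m J) (a : Fin K → Fin m → ℝ) (i i' : Fin K) (ω ω' : F.Ω)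
    (h : Lb F (r2 a i i') ω = Lb F (r2 a i i') ω') :
    Lb F (r1 a i) ω = Lb F (r1 a i) ω' ∧ Lb F (r1 a i') ω = Lb F (r1 a i') ω' := by
  have e := Prod.ext_iff.mp h
  refine ⟨Prod.ext ?_ ?_, Prod.ext ?_ ?_⟩
  · funext l
    exact congrFun e.1 0
  · funext l
    exact congrFun e.2 0
  · funext l
    exact congrFun e.1 1
  · funext l
    exact congrFun e.2 1

/-- Submodularity of triples through a pair with a common functional. -/
lemma sub_trip (F : Pool.KA.Fam m J) {q : F.Ω → ℝ} (hq : IsLaw q) (a : Fin K → Fin m → ℝ)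
    (τ : Fin 3 → Fin K) {T : Type} (Z : F.Ω → T) :
    H q (Lb F (fun l => a (τ l))) + H q (fun ω => (Z ω, Lb F (r1 a (τ 0)) ω)) ≤
      (H q (Lb F (r2 a (τ 0) (τ 1))) + CH q Z (Lb F (r2 a (τ 0) (τ 1)))) +
      (H q (Lb F (r2 a (τ 0) (τ 2))) + CH q Z (Lb F (r2 a (τ 0) (τ 2)))) := by
  have hn := hq.nonneg
  have h1 := submod hn (X := fun ω => (Z ω, Lb F (r2 a (τ 0) (τ 1)) ω))
    (Y := fun ω => (Z ω, Lb F (r2 a (τ 0) (τ 2)) ω))
    (Z := fun ω => (Z ω, Lb F (r1 a (τ 0)) ω)) (W := Lb F (fun l => a (τ l)))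
    (fun ω ω' _ _ h => Prod.ext (Prod.ext_iff.mp h).1
      (Lb_pair F a _ _ ω ω' (Prod.ext_iff.mp h).2).1)
    (fun ω ω' _ _ h => Prod.ext (Prod.ext_iff.mp h).1
      (Lb_pair F a _ _ ω ω' (Prod.ext_iff.mp h).2).1)
    (fun ω ω' _ _ h => by
      have e := Prod.ext_iff.mp h
      have e1 := Lb_pair F a _ _ ω ω' (Prod.ext_iff.mp e.1).2
      have e2 := Lb_pair F a _ _ ω ω' (Prod.ext_iff.mp e.2).2
      exact Lb_three F a τ ω ω' e1.1 e1.2 e2.2)
  unfold CH
  linarith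

/-- The direction at full resolution from some functionals and the coarse direction. -/
lemma H_trc_i {i j' : ℕ} (F : Pool.KA.Fam m J) {q : F.Ω → ℝ} (hq : IsLaw q)
    {b : Fin i → Fin m → ℝ} {c : Fin j' → Fin m → ℝ} (hc : ∀ l, ∑ s, |c l s| ≤ 1) {C : ℕ}
    (hdet : ∀ (x : Fin m → ℝ) (δ : ℝ), (∀ l, |mv b x l| ≤ δ) → (∀ l, |mv c x l| ≤ δ) →
      ∀ r, |x r| ≤ C * δ) {j : ℕ} (hj : j ≤ J) :
    H q (F.D J) ≤ H q (fun ω => (F.D j ω, Lb F b ω)) +
      j' * (((J : ℝ) - j) * Real.log 2 + Real.log 3) +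
      m * Real.log (2 * ((C + 1 : ℕ) : ℝ) + 1) := by
  have hn := hq.nonneg
  obtain ⟨dc, hdc⟩ : ∃ dc : F.Ω → Fin j' → ℤ, dc = fun ω => fl J (mv c (F.d ω)) := ⟨_, rfl⟩
  have k1 := CH_inv (J := J) hq hdet F.d (fun ω => (dc ω, (F.D j ω, Lb F b ω))) (by
    intro ω ω' h
    have e := Prod.ext_iff.mp h
    have e1 : dc ω = dc ω' := e.1
    rw [hdc] at e1
    have e2 := Prod.ext_iff.mp (Prod.ext_iff.mp e.2).2
    exact ⟨e2.2, e1⟩)
  have k2 : H q (F.D J) ≤ H q (fun ω => (dc ω, (F.D j ω, Lb F b ω))) +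
      CH q (F.D J) (fun ω => (dc ω, (F.D j ω, Lb F b ω))) := by
    unfold CH
    have := H_mono hn (X := fun ω => (F.D J ω, (dc ω, (F.D j ω, Lb F b ω)))) (Y := F.D J)
      (fun ω ω' _ _ h => (Prod.ext_iff.mp h).1)
    linarith
  have k3 : CH q (F.D J) (fun ω => (dc ω, (F.D j ω, Lb F b ω))) ≤
      m * Real.log (2 * ((C + 1 : ℕ) : ℝ) + 1) := k1
  have k4 : CH q dc (fun ω => (F.D j ω, Lb F b ω)) ≤
      j' * (((J : ℝ) - j) * Real.log 2 + Real.log 3) := by
    have h1 := CH_near (m := j') hq dc (fun ω => (F.D j ω, Lb F b ω)) (2 ^ (J - j)) (by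
      intro ω ω' h l
      have h0 := (Prod.ext_iff.mp h).1
      have h3 : (2 : ℝ) ^ J = 2 ^ (J - j) * 2 ^ j := by rw [← pow_add, Nat.sub_add_cancel hj]
      rw [hdc]
      change |((⌊2 ^ J * mv c (F.d ω) l⌋ - ⌊2 ^ J * mv c (F.d ω') l⌋ : ℤ) : ℝ)| ≤ _
      refine floor_near ?_
      have h4 : 2 ^ J * mv c (F.d ω) l - 2 ^ J * mv c (F.d ω') l =
          2 ^ (J - j) * (2 ^ j * mv c (F.d ω) l - 2 ^ j * mv c (F.d ω') l) := by
        rw [h3]; ring
      have h5 : |2 ^ j * mv c (F.d ω) l - 2 ^ j * mv c (F.d ω') l| < 1 := by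
        have e : 2 ^ j * mv c (F.d ω) l - 2 ^ j * mv c (F.d ω') l =
            ∑ s, c l s * (2 ^ j * F.d ω s - 2 ^ j * F.d ω' s) := by
          unfold mv
          rw [Finset.mul_sum, Finset.mul_sum, ← Finset.sum_sub_distrib]
          exact Finset.sum_congr rfl fun s _ => by ring
        rw [e]
        by_cases h0' : ∀ s, c l s = 0
        · have : ∑ s, c l s * (2 ^ j * F.d ω s - 2 ^ j * F.d ω' s) = 0 :=
            Finset.sum_eq_zero fun s _ => by rw [h0' s, zero_mul]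
          rw [this, abs_zero]
          exact one_pos
        · push Not at h0'
          obtain ⟨s₀, hs₀⟩ := h0'
          calc |∑ s, c l s * (2 ^ j * F.d ω s - 2 ^ j * F.d ω' s)|
              ≤ ∑ s, |c l s * (2 ^ j * F.d ω s - 2 ^ j * F.d ω' s)| :=
                Finset.abs_sum_le_sum_abs _ _
            _ < ∑ s, |c l s| := by
                refine Finset.sum_lt_sum (fun s _ => ?_) ⟨s₀, Finset.mem_univ _, ?_⟩
                · rw [abs_mul]
                  exact mul_le_of_le_one_right (abs_nonneg _)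
                    (abs_of_fl (J := j) (x := F.d ω) (y := F.d ω') h0 s).le
                · rw [abs_mul]
                  exact mul_lt_of_lt_one_right (abs_pos.mpr hs₀)
                    (abs_of_fl (J := j) (x := F.d ω) (y := F.d ω') h0 s₀)
            _ ≤ 1 := hc l
      rw [h4, abs_mul, abs_of_pos (by positivity : (0 : ℝ) < 2 ^ (J - j))]
      push_cast
      calc (2 : ℝ) ^ (J - j) * |2 ^ j * mv c (F.d ω) l - 2 ^ j * mv c (F.d ω') l| <
          2 ^ (J - j) * 1 := mul_lt_mul_of_pos_left h5 (by positivity)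
        _ = _ := mul_one _)
    refine h1.trans (mul_le_mul_of_nonneg_left ?_ (Nat.cast_nonneg _))
    have h4 : 2 * ((2 ^ (J - j) : ℕ) : ℝ) + 1 ≤ 3 * 2 ^ (J - j) := by
      have : (1 : ℝ) ≤ 2 ^ (J - j) := one_le_pow₀ (by norm_num)
      push_cast
      linarith
    have h5 := Real.log_le_log (by positivity) h4
    rw [Real.log_mul (by norm_num) (by positivity), Real.log_pow, Nat.cast_sub hj] at h5
    linarith
  have k5 : H q (fun ω => (dc ω, (F.D j ω, Lb F b ω))) =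
      H q (fun ω => (F.D j ω, Lb F b ω)) + CH q dc (fun ω => (F.D j ω, Lb F b ω)) := by
    unfold CH
    ring
  linarith

end Pool.KRN
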