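import Pool.Agent.H9.KRN.Pair

/-!
# The inequalities in one class, with pairs
-/

set_option autoImplicit false

open Finset Real

namespace Pool.KRN

open Pool.Agent.H49.Ent Pool.Agent.H32.Dense Pool.STK Pool.KA Pool.GP

variable {m k J N G K : ℕ} {g : ℕ → ℕ} {κ : Type}

/-- **The inequalities in one class.** -/
theorem clsP (F : Pool.KA.Fam m J) (hk : 3 ≤ k) (hm4 : 4 ≤ m) (hmk : m ≤ k + 3)
    (hu : ∀ ω i, |F.u ω i| ≤ 1)
    {a : Fin K → Fin m → ℝ} {C : ℕ} (hG : GPos a C) (hK : m ≤ K) (hg : Grid J N G g)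
    (A : F.Ω → κ) (a₀ : κ) (ha : 0 < law F.p A a₀) (hl : IsLaw (cond F.p A a₀))
    (τ : Fin 3 → Fin K) (hτ : Function.Injective τ) {n₁ n₂ : ℕ}
    (hmin : ∀ l, ∀ ω, A ω = a₀ → 0 < F.p ω → ∀ n ≤ N,
      fi F.p (Lb F (r1 a (τ l))) F.d J k g n₁ ω ≤ fi F.p (Lb F (r1 a (τ l))) F.d J k g n ω)
    (hmin2 : ∀ l, l ≠ 0 → ∀ ω, A ω = a₀ → 0 < F.p ω → ∀ n ≤ N,
      fi F.p (Lb F (r2 a (τ 0) (τ l))) F.d J k g n₂ ω ≤
        fi F.p (Lb F (r2 a (τ 0) (τ l))) F.d J k g n ω)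
    {E η B : ℝ} (hE : 0 ≤ E) (hη : 0 ≤ η) (hI1 : ImgB (F.res A a₀ hl) 1 E)
    (hI2 : ImgB (F.res A a₀ hl) 2 E) (hI3 : ImgB (F.res A a₀ hl) 3 E)
    (hIk : ImgB (F.res A a₀ hl) k E) (hIm : ImgB (F.res A a₀ hl) (m - 3) E)
    (hD : m * (J * Real.log 2) - η ≤ H (cond F.p A a₀) (F.D J))
    (hB1 : Ci 2 m k N G (m - 2) C ≤ B) (hB2 : Cc m 3 (m - 3) C ≤ B)
    (hB3 : Ci 1 m k N G (m - 1) C ≤ B) (hB4 : m * Real.log 3 +
      m * Real.log (2 * ((C + 1 : ℕ) : ℝ) + 1) ≤ B) (hB5 : 2 * Real.log 3 ≤ B) :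
    ∃ x y : ℝ, 0 ≤ x ∧ x ≤ J * Real.log 2 ∧ 0 ≤ y ∧ y ≤ J * Real.log 2 ∧
      (3 * k + 2) * (J * Real.log 2) + (m - 2 - k) * y + (m - 2 * k) * x ≤
        3 * CH (cond F.p A a₀) (F.X J) F.T + 60 * (η - Real.log (law F.p A a₀) + E + B) ∧
      (m + 4 + 6 * k) * (J * Real.log 2) + (m - 1 - 2 * k) * y + (2 * m - 4 * k) * x ≤
        7 * CH (cond F.p A a₀) (F.X J) F.T + 60 * (η - Real.log (law F.p A a₀) + E + B) ∧
      (m + 3 * k) * (J * Real.log 2) + (2 * m - 3 * k) * x ≤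
        4 * CH (cond F.p A a₀) (F.X J) F.T + 60 * (η - Real.log (law F.p A a₀) + E + B) := by
  obtain ⟨q, hq⟩ : ∃ q, q = cond F.p A a₀ := ⟨_, rfl⟩
  have hlq : IsLaw q := hq ▸ hl
  have hn := hlq.nonneg
  have hm0 : 0 < m := by omega
  have hlog2 : 0 < Real.log 2 := Real.log_pos (by norm_num)
  have hlog3 : 0 < Real.log 3 := Real.log_pos (by norm_num)
  obtain ⟨Λ, hΛ⟩ : ∃ Λ : ℝ, Λ = -Real.log (law F.p A a₀) := ⟨_, rfl⟩
  have hΛ0 : 0 ≤ Λ := by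
    rw [hΛ, neg_nonneg]
    refine Real.log_nonpos ha.le ?_
    exact (law_le_total F.isLaw.nonneg A a₀).trans F.isLaw.sum_one.le
  obtain ⟨L, hL⟩ : ∃ L : ℝ, L = J * Real.log 2 := ⟨_, rfl⟩
  obtain ⟨x, hx⟩ : ∃ x : ℝ, x = (g n₁ : ℝ) * Real.log 2 := ⟨_, rfl⟩
  obtain ⟨y, hy⟩ : ∃ y : ℝ, y = (g n₂ : ℝ) * Real.log 2 := ⟨_, rfl⟩
  have hgJ : ((g n₁ : ℕ) : ℝ) ≤ J := by exact_mod_cast hg.le n₁
  have hgJ2 : ((g n₂ : ℕ) : ℝ) ≤ J := by exact_mod_cast hg.le n₂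
  have hx0 : 0 ≤ x := by rw [hx]; positivity
  have hxL : x ≤ L := by rw [hx, hL]; exact mul_le_mul_of_nonneg_right hgJ hlog2.le
  have hy0 : 0 ≤ y := by rw [hy]; positivity
  have hyL : y ≤ L := by rw [hy, hL]; exact mul_le_mul_of_nonneg_right hgJ2 hlog2.le
  obtain ⟨S, hS⟩ : ∃ S : ℝ, S = CH q (F.X J) F.T := ⟨_, rfl⟩
  have hm1 : ((m - 1 : ℕ) : ℝ) = (m : ℝ) - 1 := by
    rw [Nat.cast_sub (by omega)]; norm_num
  have hm2 : ((m - 2 : ℕ) : ℝ) = (m : ℝ) - 2 := by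
    rw [Nat.cast_sub (by omega)]; norm_num
  have hm3 : ((m - 3 : ℕ) : ℝ) = (m : ℝ) - 3 := by
    rw [Nat.cast_sub (by omega)]; norm_num
  have hHD : m * L - η ≤ H q (F.D J) := by
    rw [← hq, ← hL] at hD
    exact hD
  have hlogC : 0 ≤ (m : ℝ) * Real.log (2 * ((C + 1 : ℕ) : ℝ) + 1) := by
    refine mul_nonneg (Nat.cast_nonneg _) (Real.log_nonneg ?_)
    have : (0 : ℝ) ≤ ((C + 1 : ℕ) : ℝ) := Nat.cast_nonneg _
    linarith
  have hmlog3 : 0 ≤ (m : ℝ) * Real.log 3 := by positivity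
  -- one functional
  have hgen : ∀ l : Fin 3, CH q (F.D (g n₁)) (Lb F (r1 a (τ l))) ≤
      S - L - k * (L - x) + (η + Λ + 2 * E + B) := by
    intro l
    obtain ⟨c, hc, hdet⟩ := exists_compl (j := 1) (j' := m - 1) hG hK (by omega)
      (fun _ => τ l) (fun _ _ _ => Subsingleton.elim _ _)
    have h1 := gen_i (k := k) F hm0 hg A a₀ ha hl (b := r1 a (τ l)) (c := c)
      (fun _ => hG.le _) hc hdet (E := E)
      (hI1 _ _ _ _ (fun _ _ _ => rfl))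
      (fun r => hIk _ _ _ _ (fun ω ω' h => Lb_of_l (F.res A a₀ hl) _ ω ω' h))
      (n₀ := n₁) (hmin l)
    rw [← hq, ← hS, ← hL] at h1
    have h2 : ((k * (J - g n₁) : ℕ) : ℝ) * Real.log 2 = k * (L - x) := by
      push_cast
      rw [Nat.cast_sub (hg.le n₁), hL, hx]
      ring
    rw [h2, hm1] at h1
    linarith
  -- two functionals
  have hpr : ∀ l : Fin 3, l ≠ 0 → Function.Injective (![τ 0, τ l] : Fin 2 → Fin K) := by
    intro l hl0 i i' hii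
    fin_cases i <;> fin_cases i' <;> first
      | rfl
      | (exfalso; exact hl0 (hτ hii).symm)
      | (exfalso; exact hl0 (hτ hii))
  have hgen2 : ∀ l : Fin 3, l ≠ 0 → CH q (F.D (g n₂)) (Lb F (r2 a (τ 0) (τ l))) ≤
      S - 2 * L - k * (L - y) + (η + Λ + 2 * E + B) := by
    intro l hl0
    obtain ⟨c, hc, hdet⟩ := exists_compl (j := 2) (j' := m - 2) hG hK (by omega)
      (![τ 0, τ l]) (hpr l hl0)
    have h1 := gen_i (k := k) F hm0 hg A a₀ ha hl (b := r2 a (τ 0) (τ l)) (c := c)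
      (fun _ => hG.le _) hc hdet (E := E)
      (hI2 _ _ _ _ (fun _ _ _ => rfl))
      (fun r => hIk _ _ _ _ (fun ω ω' h => Lb_of_l (F.res A a₀ hl) _ ω ω' h))
      (n₀ := n₂) (hmin2 l hl0)
    rw [← hq, ← hS, ← hL] at h1
    have h2 : ((k * (J - g n₂) : ℕ) : ℝ) * Real.log 2 = k * (L - y) := by
      push_cast
      rw [Nat.cast_sub (hg.le n₂), hL, hy]
      ring
    rw [h2, hm2] at h1
    linarith
  -- coarse directions
  have hDg : m * x - η - B ≤ H q (F.D (g n₁)) := by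
    have h1 := H_trc F hlq (hg.le n₁)
    have h2 : m * (((J : ℝ) - g n₁) * Real.log 2 + Real.log 3) =
        m * (L - x) + m * Real.log 3 := by
      rw [hL, hx]
      ring
    rw [h2] at h1
    linarith
  have hDy1 : L + (m - 1) * y - η - B ≤ H q (fun ω => (F.D (g n₂) ω, Lb F (r1 a (τ 0)) ω)) := by
    obtain ⟨c, hc, hdet⟩ := exists_compl (j := 1) (j' := m - 1) hG hK (by omega)
      (fun _ => τ 0) (fun _ _ _ => Subsingleton.elim _ _)
    have h1 := H_trc_i (b := r1 a (τ 0)) F hlq hc hdet (hg.le n₂)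
    rw [hm1] at h1
    have h2 : ((m : ℝ) - 1) * (((J : ℝ) - g n₂) * Real.log 2 + Real.log 3) =
        (m - 1) * (L - y) + (m * Real.log 3 - Real.log 3) := by
      rw [hL, hy]
      ring
    rw [h2] at h1
    linarith
  have hDy2 : ∀ l : Fin 3, l ≠ 0 → 2 * L + (m - 2) * y - η - B ≤
      H q (Lb F (r2 a (τ 0) (τ l))) + CH q (F.D (g n₂)) (Lb F (r2 a (τ 0) (τ l))) := by
    intro l hl0
    obtain ⟨c, hc, hdet⟩ := exists_compl (j := 2) (j' := m - 2) hG hK (by omega)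
      (![τ 0, τ l]) (hpr l hl0)
    have h1 := H_trc_i (b := r2 a (τ 0) (τ l)) F hlq hc hdet (hg.le n₂)
    rw [hm2] at h1
    have h2 : ((m : ℝ) - 2) * (((J : ℝ) - g n₂) * Real.log 2 + Real.log 3) =
        (m - 2) * (L - y) + (m * Real.log 3 - 2 * Real.log 3) := by
      rw [hL, hy]
      ring
    rw [h2] at h1
    have h3 : H q (Lb F (r2 a (τ 0) (τ l))) + CH q (F.D (g n₂)) (Lb F (r2 a (τ 0) (τ l))) =
        H q (fun ω => (F.D (g n₂) ω, Lb F (r2 a (τ 0) (τ l)) ω)) := by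
      unfold CH
      ring
    rw [h3]
    linarith
  -- lines
  have hH1 : ∀ l : Fin 3, H q (Lb F (r1 a (τ l))) ≤ 2 * L + B := by
    intro l
    have h1 := H_L1 F hu hlq hG.le (τ l)
    rw [← hL] at h1
    linarith
  -- pairs
  have hP : ∀ l : Fin 3, l ≠ 0 → H q (Lb F (r2 a (τ 0) (τ l))) ≤
      4 * L + 2 * (S - L - k * (L - x)) - m * x + (3 * η + 2 * Λ + 4 * E + 5 * B) := by
    intro l _
    have h1 := sub_two F hlq a (![τ 0, τ l]) (F.D (g n₁))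
    have e0 : (![τ 0, τ l] : Fin 2 → Fin K) 0 = τ 0 := rfl
    have e1 : (![τ 0, τ l] : Fin 2 → Fin K) 1 = τ l := rfl
    rw [e0, e1] at h1
    have e2 : H q (Lb F (fun l' => a ((![τ 0, τ l] : Fin 2 → Fin K) l'))) =
        H q (Lb F (r2 a (τ 0) (τ l))) := rfl
    rw [e2] at h1
    have g0 := hgen 0
    have g1 := hgen l
    have l0 := hH1 0
    have l1 := hH1 l
    linarith
  -- chain three
  have hc3 : 2 * H q (F.D J) - (m - 3) * L - H q (Lb F (fun l : Fin 3 => a (τ l)))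
      - 2 * E - B ≤ S := by
    obtain ⟨c, hc, hdet⟩ := exists_compl (j := 3) (j' := m - 3) hG hK (by omega) τ hτ
    have h1 := chain (F.res A a₀ hl) (b := fun l : Fin 3 => a (τ l))
      (c := c) (fun _ => hG.le _) hc hdet (E := E)
      (hI3 _ _ _ _ (fun _ _ _ => rfl))
      (hIm _ _ _ _ (fun ω ω' h => Lb_of_l (F.res A a₀ hl) _ ω ω' h))
    have e1 : H (F.res A a₀ hl).p ((F.res A a₀ hl).D J) = H q (F.D J) := by rw [hq]; rfl
    have e2 : H (F.res A a₀ hl).p (Lb (F.res A a₀ hl) (fun l : Fin 3 => a (τ l))) =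
        H q (Lb F (fun l : Fin 3 => a (τ l))) := by rw [hq]; rfl
    have e3 : CH (F.res A a₀ hl).p ((F.res A a₀ hl).X J) (F.res A a₀ hl).T = S := by
      rw [hS, hq]; rfl
    rw [e1, e2, e3, ← hL, hm3] at h1
    linarith
  have hs3 := sub_three F hlq a τ (F.D (g n₁))
  have hst := sub_trip F hlq a τ (F.D (g n₂))
  have g0 := hgen 0
  have g1 := hgen 1
  have g2 := hgen 2
  have l0 := hH1 0
  have l1 := hH1 1
  have l2 := hH1 2
  have p1 := hP 1 (by decide)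
  have p2 := hP 2 (by decide)
  have q1 := hgen2 1 (by decide)
  have q2 := hgen2 2 (by decide)
  have d1 := hDy2 1 (by decide)
  have hB0 : 0 ≤ B := le_trans (by positivity) hB5
  refine ⟨x, y, hx0, hL ▸ hxL, hy0, hL ▸ hyL, ?_, ?_, ?_⟩
  all_goals
    rw [← hq, ← hS, ← hL]
    have e : -Real.log (law F.p A a₀) = Λ := hΛ.symm
    have e' : η - Real.log (law F.p A a₀) + E + B = η + Λ + E + B := by rw [← e]; ring
    rw [e']
    linarith

end Pool.KRN
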