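import Pool.Agent.H9.KRN.Nbr

/-!
# Entropy of random projections
-/

set_option autoImplicit false

open Finset Real

namespace Pool.KRN

open Pool.Agent.H49.Ent Pool.Agent.H32.Dense Pool.STK Pool.KA Pool.GP

/-- A grid of scales. -/
structure Grid (J N G : ℕ) (g : ℕ → ℕ) : Prop where
  zero : g 0 = 0
  last : g N = J
  le : ∀ n, g n ≤ J
  step : ∀ n < N, g (n + 1) ≤ g n + G

/-- The number of matrices. -/
abbrev Mat (J k m : ℕ) : Type := Fin k → Fin m → Fin (2 ^ (J + 1))

lemma card_Mat (J k m : ℕ) : (Fintype.card (Mat J k m) : ℝ) = (((2 : ℝ) ^ (J + 1)) ^ m) ^ k := by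
  rw [Fintype.card_fun, Fintype.card_fun, Fintype.card_fin, Fintype.card_fin, Fintype.card_fin]
  push_cast
  rfl

instance (J k m : ℕ) : Nonempty (Mat J k m) := ⟨fun _ _ => ⟨0, by positivity⟩⟩

/-- The constant of a step. -/
noncomputable def cs (k m G : ℕ) : ℝ := (2 * (m : ℝ) + 1) ^ k * 2 ^ (k * G)

lemma cs_pos (k m G : ℕ) : 0 < cs k m G := by unfold cs; positivity

lemma one_le_cs (k m G : ℕ) : 1 ≤ cs k m G := by
  unfold cs
  have h1 : (1 : ℝ) ≤ (2 * (m : ℝ) + 1) ^ k := one_le_pow₀ (by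
    have : (0 : ℝ) ≤ m := Nat.cast_nonneg m
    linarith)
  have h2 : (1 : ℝ) ≤ 2 ^ (k * G) := one_le_pow₀ (by norm_num)
  exact one_le_mul_of_one_le_of_one_le h1 h2

/-- The probability of a collision, scale by scale. -/
lemma coll_le {J N G k m : ℕ} {g : ℕ → ℕ} (hg : Grid J N G g) {d d' : Fin m → ℝ}
    (hd : ∀ s, |d s| ≤ 1) (hd' : ∀ s, |d' s| ≤ 1) :
    ((univ.filter fun a : Mat J k m => prj (2 ^ (J + 1)) a (fl J d) =
      prj (2 ^ (J + 1)) a (fl J d')).card : ℝ) / (((2 : ℝ) ^ (J + 1)) ^ m) ^ k ≤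
    ∑ n ∈ range (N + 1), (if ∀ s, |fl (g n) d s - fl (g n) d' s| ≤ 3 then
      cs k m G / 2 ^ (k * (J - g n)) else 0) := by
  classical
  obtain ⟨x, hx⟩ : ∃ x, x = fl J d := ⟨_, rfl⟩
  obtain ⟨y, hy⟩ : ∃ y, y = fl J d' := ⟨_, rfl⟩
  rw [← hx, ← hy]
  obtain ⟨Q, hQ⟩ : ∃ Q : ℕ, Q = 2 ^ (J + 1) := ⟨_, rfl⟩
  have hQ0 : 0 < 2 ^ (J + 1) := by positivity
  have hcm := cs_pos k m G
  -- it is enough to find one scale
  suffices hmain : ∃ n ≤ N, (∀ s, |fl (g n) d s - fl (g n) d' s| ≤ 3) ∧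
      ((univ.filter fun a : Mat J k m => prj (2 ^ (J + 1)) a x =
        prj (2 ^ (J + 1)) a y).card : ℝ) / (((2 : ℝ) ^ (J + 1)) ^ m) ^ k ≤
        cs k m G / 2 ^ (k * (J - g n)) by
    obtain ⟨n, hn, h1, h2⟩ := hmain
    refine h2.trans ?_
    have h3 := Finset.single_le_sum (f := fun n => if ∀ s, |fl (g n) d s - fl (g n) d' s| ≤ 3 then
      cs k m G / 2 ^ (k * (J - g n)) else 0) (fun n _ => by
        split_ifs
        · positivity
        · exact le_rfl) (Finset.mem_range.mpr (Nat.lt_succ_of_le hn))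
    refine le_trans (le_of_eq ?_) h3
    rw [if_pos h1]
  -- trivial bound
  have htriv : ((univ.filter fun a : Mat J k m => prj (2 ^ (J + 1)) a x =
        prj (2 ^ (J + 1)) a y).card : ℝ) / (((2 : ℝ) ^ (J + 1)) ^ m) ^ k ≤ 1 := by
    rw [← card_Mat, div_le_one (by exact_mod_cast Fintype.card_pos)]
    exact_mod_cast Finset.card_le_univ _
  -- the rounded vectors
  have hnear : ∀ n, nrm x y ≤ 2 * 2 ^ (J - g n) → ∀ s, |fl (g n) d s - fl (g n) d' s| ≤ 3 := by
    intro n hn s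
    have h1 : |2 ^ J * d s - 2 ^ J * d' s| < (nrm x y : ℝ) + 1 := by
      have h2 := (le_nrm x y s)
      have h3 : ((x s - y s).natAbs : ℝ) = |(x s : ℝ) - y s| := by
        rw [Nat.cast_natAbs]
        push_cast
        rfl
      have h4 : |(x s : ℝ) - y s| ≤ nrm x y := by
        rw [← h3]
        exact_mod_cast h2
      have h5 : (x s : ℝ) = ⌊2 ^ J * d s⌋ := by rw [hx]; rfl
      have h6 : (y s : ℝ) = ⌊2 ^ J * d' s⌋ := by rw [hy]; rfl
      have h7 := Int.floor_le (2 ^ J * d s)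
      have h8 := Int.lt_floor_add_one (2 ^ J * d s)
      have h9 := Int.floor_le (2 ^ J * d' s)
      have h10 := Int.lt_floor_add_one (2 ^ J * d' s)
      rw [h5, h6] at h4
      have h11 := abs_le.mp h4
      rw [abs_lt]
      constructor <;> linarith [h11.1, h11.2]
    have h2 : (nrm x y : ℝ) ≤ 2 * 2 ^ (J - g n) := by exact_mod_cast hn
    have h3 : (2 : ℝ) ^ J = 2 ^ (J - g n) * 2 ^ (g n) := by
      rw [← pow_add, Nat.sub_add_cancel (hg.le n)]
    have h4 : (1 : ℝ) ≤ 2 ^ (J - g n) := one_le_pow₀ (by norm_num)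
    have h5 : |2 ^ (g n) * d s - 2 ^ (g n) * d' s| < 3 := by
      have h6 : |2 ^ J * d s - 2 ^ J * d' s| =
          2 ^ (J - g n) * |2 ^ (g n) * d s - 2 ^ (g n) * d' s| := by
        rw [h3, ← abs_of_pos (by positivity : (0 : ℝ) < 2 ^ (J - g n)), ← abs_mul,
          abs_of_pos (by positivity : (0 : ℝ) < 2 ^ (J - g n))]
        congr 1
        ring
      rw [h6] at h1
      have h7 : 2 ^ (J - g n) * |2 ^ (g n) * d s - 2 ^ (g n) * d' s| < 2 ^ (J - g n) * 3 := by
        linarith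
      exact lt_of_mul_lt_mul_left h7 (by positivity)
    have h6 := floor_near (n := 3) (by exact_mod_cast h5)
    rw [fl_apply, fl_apply]
    have h7 : ((|⌊2 ^ g n * d s⌋ - ⌊2 ^ g n * d' s⌋| : ℤ) : ℝ) ≤ ((3 : ℤ) : ℝ) := by
      rw [Int.cast_abs]
      exact_mod_cast h6
    exact_mod_cast h7
  have hrange : ∀ {v : Fin m → ℝ}, (∀ s, |v s| ≤ 1) → ∀ s, |fl J v s| ≤ 2 ^ J := by
    intro v hv s
    have h2 := abs_le.mp (hv s)
    have h3 : (0 : ℝ) < 2 ^ J := by positivity
    rw [fl_apply, abs_le]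
    constructor
    · rw [Int.le_floor]
      push_cast
      nlinarith
    · have h4 : (2 : ℝ) ^ J * v s ≤ 2 ^ J := by nlinarith
      have h5 := (Int.floor_le ((2 : ℝ) ^ J * v s)).trans h4
      exact_mod_cast h5
  have hnQ : nrm x y ≤ 2 ^ (J + 1) := by
    refine nrm_le fun s => ?_
    have h1 := abs_le.mp (hrange hd s)
    have h2 := abs_le.mp (hrange hd' s)
    rw [← hx] at h1
    rw [← hy] at h2
    have h3 : ((x s - y s).natAbs : ℤ) ≤ ((2 ^ (J + 1) : ℕ) : ℤ) := by
      rw [Int.natCast_natAbs, abs_le]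
      push_cast
      rw [pow_succ]
      constructor <;> linarith [h1.1, h1.2, h2.1, h2.2]
    exact_mod_cast h3
  rcases eq_or_ne x y with hxy | hxy
  · refine ⟨N, le_rfl, ?_, ?_⟩
    · apply hnear
      have : nrm x y = 0 := by
        rw [hxy]
        exact Nat.le_zero.mp (nrm_le fun s => by simp)
      rw [this]
      exact Nat.zero_le _
    · rw [hg.last, Nat.sub_self, mul_zero, pow_zero, div_one]
      exact htriv.trans (one_le_cs k m G)
  · -- the last good scale
    obtain ⟨n, hn, hmax⟩ := Finset.exists_max_image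
      ((range (N + 1)).filter fun n => nrm x y ≤ 2 * 2 ^ (J - g n)) id
      ⟨0, Finset.mem_filter.mpr ⟨Finset.mem_range.mpr (Nat.succ_pos N), by
        rw [hg.zero, Nat.sub_zero, ← pow_succ']
        exact hnQ⟩⟩
    rw [Finset.mem_filter, Finset.mem_range] at hn
    refine ⟨n, by omega, hnear n hn.2, ?_⟩
    rcases Nat.lt_or_ge n N with hnN | hnN
    · have hn1 : 2 * 2 ^ (J - g (n + 1)) < nrm x y := by
        by_contra hcon
        push Not at hcon
        have h1 := hmax (n + 1) (Finset.mem_filter.mpr ⟨Finset.mem_range.mpr (by omega), hcon⟩)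
        simp only [id] at h1
        omega
      have hcoll := card_coll (k := k) hQ0 hxy hnQ
      have h1 : (((univ.filter fun a : Mat J k m => prj (2 ^ (J + 1)) a x =
        prj (2 ^ (J + 1)) a y).card * nrm x y ^ k : ℕ) : ℝ) ≤
          ((((2 * m + 1) * (2 ^ (J + 1)) ^ m) ^ k : ℕ) : ℝ) := by exact_mod_cast hcoll
      push_cast at h1
      have h2 : (0 : ℝ) < (nrm x y : ℝ) := by
        have := nrm_pos hxy
        exact_mod_cast this
      have h3 : (2 : ℝ) ^ (J - g (n + 1)) ≤ nrm x y := by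
        have : 2 ^ (J - g (n + 1)) ≤ nrm x y := by omega
        exact_mod_cast this
      have h4 : (2 : ℝ) ^ (k * (J - g n)) ≤ 2 ^ (k * G) * (nrm x y : ℝ) ^ k := by
        have h5 : J - g n ≤ G + (J - g (n + 1)) := by
          have := hg.step n hnN
          omega
        calc (2 : ℝ) ^ (k * (J - g n)) ≤ 2 ^ (k * (G + (J - g (n + 1)))) :=
              pow_le_pow_right₀ (by norm_num) (Nat.mul_le_mul_left k h5)
          _ = 2 ^ (k * G) * (2 ^ (J - g (n + 1))) ^ k := by
              rw [mul_add, pow_add, ← pow_mul, mul_comm k (J - g (n + 1))]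
          _ ≤ _ := by gcongr
      have hM0 : (0 : ℝ) < (((2 : ℝ) ^ (J + 1)) ^ m) ^ k := by positivity
      rw [div_le_div_iff₀ hM0 (by positivity)]
      have h6 : (0 : ℝ) ≤ ((univ.filter fun a : Mat J k m => prj (2 ^ (J + 1)) a x =
        prj (2 ^ (J + 1)) a y).card : ℝ) := Nat.cast_nonneg _
      calc ((univ.filter fun a : Mat J k m => prj (2 ^ (J + 1)) a x =
            prj (2 ^ (J + 1)) a y).card : ℝ) * 2 ^ (k * (J - g n))
          ≤ ((univ.filter fun a : Mat J k m => prj (2 ^ (J + 1)) a x =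
            prj (2 ^ (J + 1)) a y).card : ℝ) * (2 ^ (k * G) * (nrm x y : ℝ) ^ k) := by gcongr
        _ = 2 ^ (k * G) * (((univ.filter fun a : Mat J k m => prj (2 ^ (J + 1)) a x =
            prj (2 ^ (J + 1)) a y).card : ℝ) * (nrm x y : ℝ) ^ k) := by ring
        _ ≤ 2 ^ (k * G) * ((2 * (m : ℝ) + 1) * ((2 : ℝ) ^ (J + 1)) ^ m) ^ k := by gcongr
        _ = cs k m G * (((2 : ℝ) ^ (J + 1)) ^ m) ^ k := by
            unfold cs
            rw [mul_pow]
            ring
    · have hnN' : n = N := by omega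
      rw [hnN', hg.last, Nat.sub_self, mul_zero, pow_zero, div_one]
      exact htriv.trans (one_le_cs k m G)

variable {Ω : Type} [Fintype Ω] {T κ : Type} {m k J N G : ℕ} {g : ℕ → ℕ}

/-- The average of the laws of the projections. -/
theorem avg_le {p : Ω → ℝ} (hp : IsLaw p) (hg : Grid J N G g) (W : Ω → T) {d : Ω → Fin m → ℝ}
    (hd : ∀ ω s, |d ω s| ≤ 1) (ω : Ω) :
    (∑ a : Mat J k m, law p (fun ω => (prj (2 ^ (J + 1)) a (fl J (d ω)), W ω))
      (prj (2 ^ (J + 1)) a (fl J (d ω)), W ω)) / (Fintype.card (Mat J k m) : ℝ) ≤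
    ∑ n ∈ range (N + 1), Nr p W (fun ω => fl (g n) (d ω)) (W ω) (fl (g n) (d ω)) *
      (cs k m G / 2 ^ (k * (J - g n))) := by
  classical
  have h1 : ∑ a : Mat J k m, law p (fun ω => (prj (2 ^ (J + 1)) a (fl J (d ω)), W ω))
      (prj (2 ^ (J + 1)) a (fl J (d ω)), W ω) =
      ∑ ω', if W ω' = W ω then p ω' * ((univ.filter fun a : Mat J k m =>
        prj (2 ^ (J + 1)) a (fl J (d ω')) = prj (2 ^ (J + 1)) a (fl J (d ω))).card : ℝ)
        else 0 := by
    unfold law
    rw [Finset.sum_comm]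
    refine Finset.sum_congr rfl fun ω' _ => ?_
    by_cases hw : W ω' = W ω
    · rw [if_pos hw, Finset.card_filter]
      push_cast
      rw [Finset.mul_sum]
      refine Finset.sum_congr rfl fun a _ => ?_
      by_cases h2 : prj (2 ^ (J + 1)) a (fl J (d ω')) = prj (2 ^ (J + 1)) a (fl J (d ω))
      · rw [if_pos (Prod.ext h2 hw), if_pos h2, mul_one]
      · rw [if_neg (fun h => h2 (Prod.ext_iff.mp h).1), if_neg h2, mul_zero]
    · rw [if_neg hw]
      exact Finset.sum_eq_zero fun a _ => if_neg fun h => hw (Prod.ext_iff.mp h).2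
  rw [h1, Finset.sum_div, card_Mat]
  unfold Nr
  simp_rw [Finset.sum_mul]
  rw [Finset.sum_comm]
  refine Finset.sum_le_sum fun ω' _ => ?_
  by_cases hw : W ω' = W ω
  · rw [if_pos hw, mul_div_assoc]
    have h2 := mul_le_mul_of_nonneg_left (coll_le (k := k) hg (hd ω') (hd ω)) (hp.nonneg ω')
    refine h2.trans (le_of_eq ?_)
    rw [Finset.mul_sum]
    refine Finset.sum_congr rfl fun n _ => ?_
    by_cases h3 : ∀ s, |fl (g n) (d ω') s - fl (g n) (d ω) s| ≤ 3
    · rw [if_pos h3, if_pos ⟨hw, h3⟩]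
    · rw [if_neg h3, if_neg (fun h => h3 h.2), mul_zero, zero_mul]
  · rw [if_neg hw, zero_div]
    refine Finset.sum_nonneg fun n _ => ?_
    rw [if_neg (fun h => hw h.1), zero_mul]

/-- The information of the neighbourhood at the scale `g n`, with the cost of the finer scales. -/
noncomputable def fi (p : Ω → ℝ) (W : Ω → T) (d : Ω → Fin m → ℝ) (J k : ℕ) (g : ℕ → ℕ) (n : ℕ)
    (ω : Ω) : ℝ :=
  -Real.log (Nr p W (fun ω => fl (g n) (d ω)) (W ω) (fl (g n) (d ω)) / law p W (W ω)) +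
    ((k * (J - g n) : ℕ) : ℝ) * Real.log 2

/-- **Entropy of random projections** on an event on which the minimum of the informations is
attained at one scale. -/
theorem prj_ge {p : Ω → ℝ} (hp : IsLaw p) (hg : Grid J N G g) (A : Ω → κ) (a : κ)
    (ha : 0 < law p A a) (W : Ω → T) {d : Ω → Fin m → ℝ} (hd : ∀ ω s, |d ω s| ≤ 1) {n₀ : ℕ}
    (hmin : ∀ ω, A ω = a → 0 < p ω → ∀ n ≤ N, fi p W d J k g n₀ ω ≤ fi p W d J k g n ω) :
    CH (cond p A a) (fun ω => fl (g n₀) (d ω)) W + ((k * (J - g n₀) : ℕ) : ℝ) * Real.log 2 +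
      Real.log (law p A a) - (m * Real.log 7 + Real.log (cs k m G) + Real.log ((N : ℝ) + 1)) ≤
    (∑ b : Mat J k m, CH (cond p A a) (fun ω => prj (2 ^ (J + 1)) b (fl J (d ω))) W) /
      (Fintype.card (Mat J k m) : ℝ) := by
  classical
  have hc : (0 : ℝ) < (Fintype.card (Mat J k m) : ℝ) := by exact_mod_cast Fintype.card_pos
  obtain ⟨q, hq⟩ : ∃ q, q = cond p A a := ⟨_, rfl⟩
  have hql : IsLaw q := ⟨fun ω => hq ▸ cond_nonneg hp.nonneg A a ω, hq ▸ sum_cond p A ha.ne'⟩
  have hqp : ∀ ω, 0 < q ω → 0 < p ω ∧ A ω = a := fun ω h =>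
    (cond_pos_iff hp.nonneg A a ω).mp (hq ▸ h)
  have hcs := cs_pos k m G
  have hN : (0 : ℝ) < (N : ℝ) + 1 := by positivity
  -- each matrix
  have h1 : ∀ b : Mat J k m, Ex q (fun ω => -Real.log
      (law p (fun ω => (prj (2 ^ (J + 1)) b (fl J (d ω)), W ω))
        (prj (2 ^ (J + 1)) b (fl J (d ω)), W ω) / law p W (W ω))) + Real.log (law p A a) ≤
      CH q (fun ω => prj (2 ^ (J + 1)) b (fl J (d ω))) W := by
    intro b
    rw [hq]
    exact CH_cond_ge hp A a ha _ W
  have h2 := Finset.sum_le_sum (s := univ) fun b _ => h1 b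
  rw [Finset.sum_add_distrib, Finset.sum_const, Finset.card_univ, nsmul_eq_mul] at h2
  -- pointwise Jensen
  have h3 : ∀ ω, 0 < q ω → fi p W d J k g n₀ ω - (Real.log (cs k m G) + Real.log ((N : ℝ) + 1)) ≤
      (∑ b : Mat J k m, -Real.log
      (law p (fun ω => (prj (2 ^ (J + 1)) b (fl J (d ω)), W ω))
        (prj (2 ^ (J + 1)) b (fl J (d ω)), W ω) / law p W (W ω))) /
        (Fintype.card (Mat J k m) : ℝ) := by
    intro ω hω
    obtain ⟨hpω, hA⟩ := hqp ω hω
    have hlW := law_pos hp.nonneg W hpω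
    have hr : ∀ b : Mat J k m, 0 < law p (fun ω => (prj (2 ^ (J + 1)) b (fl J (d ω)), W ω))
        (prj (2 ^ (J + 1)) b (fl J (d ω)), W ω) / law p W (W ω) := fun b =>
      div_pos (law_pos hp.nonneg (fun ω => (prj (2 ^ (J + 1)) b (fl J (d ω)), W ω)) hpω) hlW
    have h4 := avg_log_le _ hr
    have h5 : (∑ b : Mat J k m, law p (fun ω => (prj (2 ^ (J + 1)) b (fl J (d ω)), W ω))
        (prj (2 ^ (J + 1)) b (fl J (d ω)), W ω) / law p W (W ω)) /
        (Fintype.card (Mat J k m) : ℝ) ≤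
        cs k m G * (((N : ℝ) + 1) * Real.exp (-fi p W d J k g n₀ ω)) := by
      have h6 := avg_le (k := k) hp hg W hd ω
      have h7 : (∑ b : Mat J k m, law p (fun ω => (prj (2 ^ (J + 1)) b (fl J (d ω)), W ω))
        (prj (2 ^ (J + 1)) b (fl J (d ω)), W ω) / law p W (W ω)) /
        (Fintype.card (Mat J k m) : ℝ) =
        ((∑ b : Mat J k m, law p (fun ω => (prj (2 ^ (J + 1)) b (fl J (d ω)), W ω))
        (prj (2 ^ (J + 1)) b (fl J (d ω)), W ω)) / (Fintype.card (Mat J k m) : ℝ)) /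
          law p W (W ω) := by
        rw [← Finset.sum_div]
        ring
      rw [h7]
      refine (div_le_div_of_nonneg_right h6 hlW.le).trans ?_
      rw [Finset.sum_div]
      have h8 : ∀ n ∈ range (N + 1), Nr p W (fun ω => fl (g n) (d ω)) (W ω) (fl (g n) (d ω)) *
          (cs k m G / 2 ^ (k * (J - g n))) / law p W (W ω) ≤
          cs k m G * Real.exp (-fi p W d J k g n₀ ω) := by
        intro n hn
        have h9 := hmin ω hA hpω n (by rw [Finset.mem_range] at hn; omega)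
        have h10 : Real.exp (-fi p W d J k g n ω) ≤ Real.exp (-fi p W d J k g n₀ ω) :=
          Real.exp_le_exp.mpr (by linarith)
        have h11 : Real.exp (-fi p W d J k g n ω) =
            Nr p W (fun ω => fl (g n) (d ω)) (W ω) (fl (g n) (d ω)) / law p W (W ω) /
              2 ^ (k * (J - g n)) := by
          unfold fi
          have hNr := Nr_pos hp W (fun ω => fl (g n) (d ω)) hpω
          rw [neg_add, neg_neg, Real.exp_add, Real.exp_log (div_pos hNr hlW), Real.exp_neg,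
            mul_comm (((k * (J - g n) : ℕ)) : ℝ), Real.exp_mul, Real.exp_log (by norm_num),
            Real.rpow_natCast, ← div_eq_mul_inv]
        calc _ = cs k m G * Real.exp (-fi p W d J k g n ω) := by
              rw [h11]
              ring
          _ ≤ _ := mul_le_mul_of_nonneg_left h10 hcs.le
      refine (Finset.sum_le_sum h8).trans (le_of_eq ?_)
      rw [Finset.sum_const, Finset.card_range, nsmul_eq_mul]
      push_cast
      ring
    have h6 : Real.log ((∑ b : Mat J k m, law p (fun ω =>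
        (prj (2 ^ (J + 1)) b (fl J (d ω)), W ω))
        (prj (2 ^ (J + 1)) b (fl J (d ω)), W ω) / law p W (W ω)) /
        (Fintype.card (Mat J k m) : ℝ)) ≤
        Real.log (cs k m G) + (Real.log ((N : ℝ) + 1) - fi p W d J k g n₀ ω) := by
      have h7 := Real.log_le_log (div_pos (Finset.sum_pos (fun b _ => hr b)
        Finset.univ_nonempty) hc) h5
      rw [Real.log_mul hcs.ne' (by positivity), Real.log_mul hN.ne' (by positivity),
        Real.log_exp] at h7
      linarith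
    rw [Finset.sum_neg_distrib, neg_div]
    linarith
  -- integrate
  have h4 := Ex_mono hql.nonneg h3
  rw [Ex_sub, Ex_const hql.sum_one] at h4
  have h5 : Ex q (fun ω => (∑ b : Mat J k m, -Real.log
      (law p (fun ω => (prj (2 ^ (J + 1)) b (fl J (d ω)), W ω))
        (prj (2 ^ (J + 1)) b (fl J (d ω)), W ω) / law p W (W ω))) /
        (Fintype.card (Mat J k m) : ℝ)) =
      (∑ b : Mat J k m, Ex q (fun ω => -Real.log
      (law p (fun ω => (prj (2 ^ (J + 1)) b (fl J (d ω)), W ω))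
        (prj (2 ^ (J + 1)) b (fl J (d ω)), W ω) / law p W (W ω)))) /
        (Fintype.card (Mat J k m) : ℝ) := by
    unfold Ex
    rw [Finset.sum_comm, Finset.sum_div]
    refine Finset.sum_congr rfl fun ω _ => ?_
    rw [← mul_div_assoc, Finset.mul_sum]
  rw [h5] at h4
  -- the cross entropy
  have h6 : CH q (fun ω => fl (g n₀) (d ω)) W + ((k * (J - g n₀) : ℕ) : ℝ) * Real.log 2 ≤
      Ex q (fun ω => fi p W d J k g n₀ ω) + m * Real.log 7 := by
    have h7 := CH_le_nbr hp hql (fun ω h => (hqp ω h).1) W (fun ω => fl (g n₀) (d ω))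
    have h8 : Ex q (fun ω => fi p W d J k g n₀ ω) =
        Ex q (fun ω => -Real.log (Nr p W (fun ω => fl (g n₀) (d ω)) (W ω) (fl (g n₀) (d ω)) /
          law p W (W ω))) + ((k * (J - g n₀) : ℕ) : ℝ) * Real.log 2 := by
      unfold fi
      rw [Ex_add, Ex_const hql.sum_one]
    rw [h8]
    linarith
  rw [← hq, le_div_iff₀ hc]
  have h7 : (∑ b : Mat J k m, Ex q (fun ω => -Real.log
      (law p (fun ω => (prj (2 ^ (J + 1)) b (fl J (d ω)), W ω))
        (prj (2 ^ (J + 1)) b (fl J (d ω)), W ω) / law p W (W ω)))) ≥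
      (Ex q (fun ω => fi p W d J k g n₀ ω) -
        (Real.log (cs k m G) + Real.log ((N : ℝ) + 1))) * (Fintype.card (Mat J k m) : ℝ) := by
    rw [le_div_iff₀ hc] at h4
    exact h4
  have h8 : (CH q (fun ω => fl (g n₀) (d ω)) W + ((k * (J - g n₀) : ℕ) : ℝ) * Real.log 2 -
      (m * Real.log 7 + Real.log (cs k m G) + Real.log ((N : ℝ) + 1))) *
      (Fintype.card (Mat J k m) : ℝ) ≤
      (Ex q (fun ω => fi p W d J k g n₀ ω) -
        (Real.log (cs k m G) + Real.log ((N : ℝ) + 1))) * (Fintype.card (Mat J k m) : ℝ) :=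
    mul_le_mul_of_nonneg_right (by linarith) hc.le
  have h9 : (CH q (fun ω => fl (g n₀) (d ω)) W + ((k * (J - g n₀) : ℕ) : ℝ) * Real.log 2 +
      Real.log (law p A a) - (m * Real.log 7 + Real.log (cs k m G) + Real.log ((N : ℝ) + 1))) *
      (Fintype.card (Mat J k m) : ℝ) = (CH q (fun ω => fl (g n₀) (d ω)) W +
      ((k * (J - g n₀) : ℕ) : ℝ) * Real.log 2 -
      (m * Real.log 7 + Real.log (cs k m G) + Real.log ((N : ℝ) + 1))) *
      (Fintype.card (Mat J k m) : ℝ) +
      (Fintype.card (Mat J k m) : ℝ) * Real.log (law p A a) := by ring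
  rw [h9]
  linarith

end Pool.KRN
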