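import Pool.Agent.H94.GP.Cnt
import Pool.Agent.H9.KRN.Prj

/-!
# One functional and a random projection
-/

set_option autoImplicit false

open Finset Real

namespace Pool.KRN

open Pool.Agent.H49.Ent Pool.Agent.H32.Dense Pool.STK Pool.KA Pool.GP

variable {m k J N G j' : ℕ} {g : ℕ → ℕ} {κ : Type}

/-- The real matrix. -/
noncomputable def mq (a : Mat J k m) (l : Fin k) (s : Fin m) : ℝ :=
  ((a l s : ℕ) : ℝ) / ((m : ℝ) * ((2 ^ (J + 1) : ℕ) : ℝ))

lemma mq_le (a : Mat J k m) (l : Fin k) : ∑ s, |mq a l s| ≤ 1 := by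
  rcases Nat.eq_zero_or_pos m with hm | hm
  · subst hm
    simp
  have hmr : (0 : ℝ) < m := by exact_mod_cast hm
  have hQ : (0 : ℝ) < ((2 ^ (J + 1) : ℕ) : ℝ) := by positivity
  calc ∑ s, |mq a l s| ≤ ∑ _s : Fin m, 1 / (m : ℝ) := by
        refine Finset.sum_le_sum fun s _ => ?_
        unfold mq
        rw [abs_of_nonneg (by positivity), div_le_div_iff₀ (by positivity) hmr, one_mul,
          mul_comm ((m : ℝ))]
        have : ((a l s : ℕ) : ℝ) ≤ ((2 ^ (J + 1) : ℕ) : ℝ) := by exact_mod_cast (a l s).isLt.le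
        exact mul_le_mul_of_nonneg_right this hmr.le
    _ = 1 := by
        rw [Finset.sum_const, Finset.card_univ, Fintype.card_fin, nsmul_eq_mul]
        field_simp

lemma mv_mq (a : Mat J k m) (x : Fin m → ℝ) (l : Fin k) :
    mv (mq a) x l = prr (2 ^ (J + 1)) a x l := by
  unfold mv prr mq
  rw [Finset.sum_div]
  exact Finset.sum_congr rfl fun s _ => by ring

/-- The rounded projection of the rounded vector is almost determined by the rounded projection. -/
lemma CH_prj {Ω : Type} [Fintype Ω] {T : Type} {p : Ω → ℝ} (hp : IsLaw p) (hm : 0 < m)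
    (a : Mat J k m) (d : Ω → Fin m → ℝ) (W : Ω → T)
    (hW : ∀ ω ω', W ω = W ω' → fl J (mv (mq a) (d ω)) = fl J (mv (mq a) (d ω'))) :
    CH p (fun ω => prj (2 ^ (J + 1)) a (fl J (d ω))) W ≤ k * Real.log 7 := by
  have h1 := CH_near (m := k) hp (fun ω => prj (2 ^ (J + 1)) a (fl J (d ω))) W 3 (by
    intro ω ω' hh l
    have h2 := abs_lt.mp (abs_of_fl (hW ω ω' hh) l)
    have key : ∀ ω, |2 ^ J * mv (mq a) (d ω) l -
        prr (2 ^ (J + 1)) a (fun r => ((fl J (d ω) r : ℤ) : ℝ)) l| ≤ 1 := by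
      intro ω
      rw [← mv_mq, ← mv_smul, ← mv_sub]
      refine abs_mv_le (mq_le a) zero_le_one (fun s => ?_) l
      rw [fl_apply]
      have h3 := Int.floor_le (2 ^ J * d ω s)
      have h4 := Int.lt_floor_add_one (2 ^ J * d ω s)
      rw [abs_le]
      constructor <;> linarith
    have k1 := abs_le.mp (key ω)
    have k2 := abs_le.mp (key ω')
    have k3 := prj_near (Q := 2 ^ (J + 1)) (by positivity) hm a (fl J (d ω)) l
    have k4 := prj_near (Q := 2 ^ (J + 1)) (by positivity) hm a (fl J (d ω')) l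
    have k5 : ((prj (2 ^ (J + 1)) a (fl J (d ω)) l - prj (2 ^ (J + 1)) a (fl J (d ω')) l : ℤ) : ℝ)
        < 4 := by
      push_cast
      linarith [k1.1, k1.2, k2.1, k2.2, k3.1, k3.2, k4.1, k4.2, h2.1, h2.2]
    have k6 : (-4 : ℝ) <
        ((prj (2 ^ (J + 1)) a (fl J (d ω)) l - prj (2 ^ (J + 1)) a (fl J (d ω')) l : ℤ) : ℝ) := by
      push_cast
      linarith [k1.1, k1.2, k2.1, k2.2, k3.1, k3.2, k4.1, k4.2, h2.1, h2.2]
    have k7 : (prj (2 ^ (J + 1)) a (fl J (d ω)) l - prj (2 ^ (J + 1)) a (fl J (d ω')) l : ℤ) < 4 := by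
      exact_mod_cast k5
    have k8 : (-4 : ℤ) < (prj (2 ^ (J + 1)) a (fl J (d ω)) l -
        prj (2 ^ (J + 1)) a (fl J (d ω')) l : ℤ) := by
      exact_mod_cast k6
    have k9 : (prj (2 ^ (J + 1)) a (fl J (d ω)) l - prj (2 ^ (J + 1)) a (fl J (d ω')) l : ℤ) ≤ 3 := by
      omega
    have k10 : (-3 : ℤ) ≤ (prj (2 ^ (J + 1)) a (fl J (d ω)) l -
        prj (2 ^ (J + 1)) a (fl J (d ω')) l : ℤ) := by omega
    have k11 : ((prj (2 ^ (J + 1)) a (fl J (d ω)) l - prj (2 ^ (J + 1)) a (fl J (d ω')) l : ℤ) : ℝ)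
        ≤ ((3 : ℤ) : ℝ) := Int.cast_le.mpr k9
    have k12 : ((-3 : ℤ) : ℝ) ≤
        ((prj (2 ^ (J + 1)) a (fl J (d ω)) l - prj (2 ^ (J + 1)) a (fl J (d ω')) l : ℤ) : ℝ) :=
      Int.cast_le.mpr k10
    rw [abs_le]
    push_cast at k11 k12 ⊢
    exact ⟨k12, k11⟩)
  refine h1.trans (le_of_eq ?_)
  norm_num

/-- The rounding constant. -/
noncomputable def Cg (m k N G j' C : ℕ) : ℝ :=
  m * Real.log (2 * ((C + 1 : ℕ) : ℝ) + 1) + (j' + 1) * Real.log 3 + Real.log 5 + k * Real.log 7 +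
    k * Real.log 3 + (m * Real.log 7 + Real.log (cs k m G) + Real.log ((N : ℝ) + 1))

/-- **One functional and a random projection.** -/
theorem gen (F : Pool.KA.Fam m J) (hm : 0 < m) (hg : Grid J N G g) (A : F.Ω → κ) (a : κ)
    (ha : 0 < law F.p A a) (hl : IsLaw (cond F.p A a)) {b : Fin 1 → Fin m → ℝ}
    {c : Fin j' → Fin m → ℝ} (hb : ∀ l, ∑ s, |b l s| ≤ 1) (hc : ∀ l, ∑ s, |c l s| ≤ 1) {C : ℕ}
    (hdet : ∀ (x : Fin m → ℝ) (δ : ℝ), (∀ l, |mv b x l| ≤ δ) → (∀ l, |mv c x l| ≤ δ) →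
      ∀ r, |x r| ≤ C * δ) {E : ℝ}
    (h1 : (img (F.res A a hl) b hb (fun _ => ())).V J ≤ E)
    (h2 : ∀ q : Mat J k m, (img (F.res A a hl) (mq q) (mq_le q) (Lb (F.res A a hl) b)).V J ≤ E)
    {n₀ : ℕ} (hmin : ∀ ω, A ω = a → 0 < F.p ω → ∀ n ≤ N,
      fi F.p (Lb F b) F.d J k g n₀ ω ≤ fi F.p (Lb F b) F.d J k g n ω) :
    H (cond F.p A a) (F.D J) - j' * (J * Real.log 2) +
      CH (cond F.p A a) (F.D (g n₀)) (Lb F b) + ((k * (J - g n₀) : ℕ) : ℝ) * Real.log 2 +
      Real.log (law F.p A a) - 2 * E - Cg m k N G j' C ≤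
      CH (cond F.p A a) (F.X J) F.T := by
  have hn := hl.nonneg
  obtain ⟨K, hK⟩ : ∃ K : ℝ, K = m * Real.log (2 * ((C + 1 : ℕ) : ℝ) + 1) := ⟨_, rfl⟩
  obtain ⟨q, hq⟩ : ∃ q, q = cond F.p A a := ⟨_, rfl⟩
  have hprj := prj_ge (k := k) F.isLaw hg A a ha (Lb F b) F.dir hmin
  rw [V_img] at h1
  have h2' : ∀ r : Mat J k m, CH (cond F.p A a) (fun ω => fl J (mv (mq r) (F.d ω))) (Lb F b) ≤
      CH (cond F.p A a) (fun ω => fl J (mv (mq r) (F.x ω))) (fun ω => (F.T ω, Lb F b ω)) + E := by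
    intro r
    have := h2 r
    rw [V_img] at this
    have e1 : CH (F.res A a hl).p (fun ω => fl J (mv (mq r) ((F.res A a hl).d ω)))
        (Lb (F.res A a hl) b) = CH (cond F.p A a) (fun ω => fl J (mv (mq r) (F.d ω))) (Lb F b) :=
      rfl
    have e2 : CH (F.res A a hl).p (fun ω => fl J (mv (mq r) ((F.res A a hl).x ω)))
        (fun ω => ((F.res A a hl).T ω, Lb (F.res A a hl) b ω)) =
        CH (cond F.p A a) (fun ω => fl J (mv (mq r) (F.x ω))) (fun ω => (F.T ω, Lb F b ω)) := rfl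
    rw [e1, e2] at this
    linarith
  obtain ⟨xb, hxb⟩ : ∃ xb : F.Ω → Fin 1 → ℤ, xb = fun ω => fl J (mv b (F.x ω)) := ⟨_, rfl⟩
  obtain ⟨db, hdb⟩ : ∃ db : F.Ω → Fin 1 → ℤ, db = fun ω => fl J (mv b (F.d ω)) := ⟨_, rfl⟩
  obtain ⟨dc, hdc⟩ : ∃ dc : F.Ω → Fin j' → ℤ, dc = fun ω => fl J (mv c (F.d ω)) := ⟨_, rfl⟩
  have h1' : CH (cond F.p A a) db (fun _ : F.Ω => ()) ≤
      CH (cond F.p A a) xb (fun ω => (F.T ω, ())) + E := by
    have e1 : CH (F.res A a hl).p (fun ω => fl J (mv b ((F.res A a hl).d ω)))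
        (fun _ => ()) = CH (cond F.p A a) db (fun _ : F.Ω => ()) := by
      rw [hdb]
      rfl
    have e2 : CH (F.res A a hl).p (fun ω => fl J (mv b ((F.res A a hl).x ω)))
        (fun ω => ((F.res A a hl).T ω, ())) =
        CH (cond F.p A a) xb (fun ω => (F.T ω, ())) := by
      rw [hxb]
      rfl
    rw [e1, e2] at h1
    linarith
  rw [← hq] at h1' h2' hprj hl hn ⊢
  -- the trivial side information
  have e1 : CH q db (fun _ : F.Ω => ()) = H q db := by
    unfold CH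
    rw [H_const hl.sum_one, sub_zero]
    exact H_congr hn (fun ω ω' _ _ h => Prod.ext h rfl) (fun ω ω' _ _ h => (Prod.ext_iff.mp h).1)
  have e2 : CH q xb (fun ω => (F.T ω, ())) = CH q xb F.T :=
    CH_congr hn (fun ω ω' _ _ h => (Prod.ext_iff.mp h).1) (fun ω ω' _ _ h => (Prod.ext_iff.mp h).1)
      (fun ω ω' _ _ h => (Prod.ext_iff.mp h).1) (fun ω ω' _ _ h => Prod.ext h rfl)
  rw [e1, e2] at h1'
  -- the average
  have hcard : (0 : ℝ) < (Fintype.card (Mat J k m) : ℝ) := by exact_mod_cast Fintype.card_pos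
  have h3 : (∑ r : Mat J k m, CH q (fun ω => prj (2 ^ (J + 1)) r (fl J (F.d ω))) (Lb F b)) /
      (Fintype.card (Mat J k m) : ℝ) ≤
      CH q (F.X J) (fun ω => (F.T ω, Lb F b ω)) + E + k * Real.log 7 + k * Real.log 3 := by
    rw [div_le_iff₀ hcard]
    have h4 : ∀ r : Mat J k m, CH q (fun ω => prj (2 ^ (J + 1)) r (fl J (F.d ω))) (Lb F b) ≤
        CH q (F.X J) (fun ω => (F.T ω, Lb F b ω)) + E + k * Real.log 7 + k * Real.log 3 := by
      intro r
      have k1 := CH_le_add hn (fun ω => prj (2 ^ (J + 1)) r (fl J (F.d ω)))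
        (fun ω => fl J (mv (mq r) (F.d ω))) (Lb F b)
      have k2 := CH_prj hl hm r F.d (fun ω => (fl J (mv (mq r) (F.d ω)), Lb F b ω))
        (fun ω ω' h => (Prod.ext_iff.mp h).1)
      have k3 := h2' r
      have k4 := CH_le_add hn (fun ω => fl J (mv (mq r) (F.x ω))) (F.X J)
        (fun ω => (F.T ω, Lb F b ω))
      have k5 := CH_img (J := J) hl (mq_le r) F.x (fun ω => (F.X J ω, (F.T ω, Lb F b ω)))
        (fun ω ω' h => (Prod.ext_iff.mp h).1)
      linarith
    have h5 := Finset.sum_le_sum (s := univ) fun r _ => h4 r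
    rw [Finset.sum_const, Finset.card_univ, nsmul_eq_mul] at h5
    linarith
  -- the position
  have s1 : CH q xb F.T + CH q (F.X J) (fun ω => (xb ω, F.T ω)) ≤
      CH q (F.X J) F.T + Real.log 3 := by
    have k1 := CH_chain hn (F.X J) xb F.T
    have k2 := CH_chain hn xb (F.X J) F.T
    have k3 : CH q (fun ω => (F.X J ω, xb ω)) F.T = CH q (fun ω => (xb ω, F.X J ω)) F.T :=
      CH_congr hn (fun ω ω' _ _ h => by
          have e := Prod.ext_iff.mp (Prod.ext_iff.mp h).1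
          exact Prod.ext e.2 e.1)
        (fun ω ω' _ _ h => by
          have e := Prod.ext_iff.mp (Prod.ext_iff.mp h).1
          exact Prod.ext e.2 e.1) (fun _ _ _ _ h => h) (fun _ _ _ _ h => h)
    have k4 := CH_img (J := J) hl hb F.x (fun ω => (F.X J ω, F.T ω))
      (fun ω ω' h => (Prod.ext_iff.mp h).1)
    rw [← hxb] at k4
    push_cast at k4
    linarith
  have s3 : CH q (F.X J) (fun ω => (F.T ω, Lb F b ω)) ≤
      CH q (F.X J) (fun ω => (xb ω, F.T ω)) + Real.log 5 := by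
    have k1 := CH_le_add hn (F.X J) xb (fun ω => (F.T ω, Lb F b ω))
    have k2 := CH_near (m := 1) hl xb (fun ω => (F.T ω, Lb F b ω)) 2 (by
      intro ω ω' h l
      rw [hxb]
      simp only
      rw [fl_apply, fl_apply]
      refine floor_near ?_
      have h3 : fl J (mv b (F.u ω)) = fl J (mv b (F.u ω')) :=
        (Prod.ext_iff.mp (Prod.ext_iff.mp h).2).1
      have h4 : fl J (mv b (F.d ω)) = fl J (mv b (F.d ω')) :=
        (Prod.ext_iff.mp (Prod.ext_iff.mp h).2).2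
      have e : ∀ ω, mv b (F.x ω) l = mv b (F.u ω) l + F.t ω * mv b (F.d ω) l := by
        intro ω
        rw [← mv_add_smul]
        rfl
      have h5' : F.T ω = F.T ω' := (Prod.ext_iff.mp h).1
      have h5 : F.t ω = F.t ω' := by
        unfold Pool.KA.Fam.t
        rw [h5']
      have h6 : 0 ≤ F.t ω := by
        unfold Pool.KA.Fam.t
        positivity
      have h7 : F.t ω ≤ 1 := by
        unfold Pool.KA.Fam.t
        rw [div_le_one (by positivity)]
        exact_mod_cast (F.tim ω).le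
      have h8 := abs_of_fl h3 l
      have h9 := abs_of_fl h4 l
      rw [e ω, e ω', ← h5]
      have h10 : 2 ^ J * (mv b (F.u ω) l + F.t ω * mv b (F.d ω) l) -
          2 ^ J * (mv b (F.u ω') l + F.t ω * mv b (F.d ω') l) =
          (2 ^ J * mv b (F.u ω) l - 2 ^ J * mv b (F.u ω') l) +
          F.t ω * (2 ^ J * mv b (F.d ω) l - 2 ^ J * mv b (F.d ω') l) := by ring
      rw [h10]
      have h11 : |F.t ω * (2 ^ J * mv b (F.d ω) l - 2 ^ J * mv b (F.d ω') l)| ≤ 1 := by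
        rw [abs_mul, abs_of_nonneg h6]
        exact mul_le_one₀ h7 (abs_nonneg _) h9.le
      have h12 := abs_add_le (2 ^ J * mv b (F.u ω) l - 2 ^ J * mv b (F.u ω') l)
        (F.t ω * (2 ^ J * mv b (F.d ω) l - 2 ^ J * mv b (F.d ω') l))
      push_cast
      linarith)
    have k3 := CH_mono_cond hn (X := F.X J) (W' := fun ω => (xb ω, (F.T ω, Lb F b ω)))
      (W := fun ω => (xb ω, F.T ω)) (fun ω ω' _ _ h => by
        have e := Prod.ext_iff.mp h
        exact Prod.ext e.1 (Prod.ext_iff.mp e.2).1)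
    have k4 : ((1 : ℕ) : ℝ) * Real.log (2 * ((2 : ℕ) : ℝ) + 1) = Real.log 5 := by norm_num
    rw [k4] at k2
    linarith
  -- the first functional
  have s2 : H q (F.D J) ≤ H q db + j' * (J * Real.log 2 + Real.log 3) + K := by
    have k1 := CH_inv (J := J) hl hdet F.d (fun ω => (dc ω, db ω)) (by
      intro ω ω' h
      have e := Prod.ext_iff.mp h
      have e1 : dc ω = dc ω' := e.1
      have e2 : db ω = db ω' := e.2
      rw [hdc] at e1
      rw [hdb] at e2
      exact ⟨e2, e1⟩)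
    rw [← hK] at k1
    have k2 : H q (F.D J) ≤ H q (fun ω => (dc ω, db ω)) +
        CH q (F.D J) (fun ω => (dc ω, db ω)) := by
      unfold CH
      have := H_mono hn (X := fun ω => (F.D J ω, (dc ω, db ω))) (Y := F.D J)
        (fun ω ω' _ _ h => (Prod.ext_iff.mp h).1)
      linarith
    have k3 := subadd hn hl.sum_one (X := dc) (Y := db) (W := fun ω => (dc ω, db ω))
      (fun ω ω' _ _ h => h)
    have k4 : H q dc ≤ j' * (J * Real.log 2 + Real.log 3) := by
      obtain ⟨hl', hhl'⟩ : ∃ hl' : IsLaw (cond F.p A a), hl' = hq ▸ hl := ⟨_, rfl⟩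
      have := H_dir_le (img (F.res A a hl') c hc (fun _ => ()))
      have e : H (img (F.res A a hl') c hc (fun _ => ())).p
          ((img (F.res A a hl') c hc (fun _ => ())).D J) = H q dc := by
        rw [hdc, hq]
        rfl
      rw [e] at this
      exact this
    have k5 : CH q (F.D J) (fun ω => (dc ω, db ω)) ≤ K := k1
    linarith
  have s4 : CH q (fun ω => fl (g n₀) (F.d ω)) (Lb F b) = CH q (F.D (g n₀)) (Lb F b) := rfl
  rw [s4] at hprj
  unfold Cg
  rw [← hK]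
  linarith

end Pool.KRN
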