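import Pool.Agent.H9.KRN.Defs

/-!
# Linear images of families and chains of functionals
-/

set_option autoImplicit false

open Finset Real

namespace Pool.KRN

open Pool.Agent.H49.Ent Pool.Agent.H32.Dense Pool.STK Pool.KA

variable {m j j' J : ℕ}

/-- The linear map with matrix `M`. -/
def mv (M : Fin j → Fin m → ℝ) (x : Fin m → ℝ) (l : Fin j) : ℝ := ∑ s, M l s * x s

lemma mv_sub (M : Fin j → Fin m → ℝ) (x y : Fin m → ℝ) (l : Fin j) :
    mv M (fun s => x s - y s) l = mv M x l - mv M y l := by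
  unfold mv
  rw [← Finset.sum_sub_distrib]
  exact Finset.sum_congr rfl fun s _ => by ring

lemma mv_smul (M : Fin j → Fin m → ℝ) (x : Fin m → ℝ) (a : ℝ) (l : Fin j) :
    mv M (fun s => a * x s) l = a * mv M x l := by
  unfold mv
  rw [Finset.mul_sum]
  exact Finset.sum_congr rfl fun s _ => by ring

lemma mv_add_smul (M : Fin j → Fin m → ℝ) (x y : Fin m → ℝ) (a : ℝ) (l : Fin j) :
    mv M (fun s => x s + a * y s) l = mv M x l + a * mv M y l := by
  unfold mv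
  rw [Finset.mul_sum, ← Finset.sum_add_distrib]
  exact Finset.sum_congr rfl fun s _ => by ring

lemma abs_mv_le {M : Fin j → Fin m → ℝ} (hM : ∀ l, ∑ s, |M l s| ≤ 1) {x : Fin m → ℝ} {R : ℝ}
    (hR : 0 ≤ R) (hx : ∀ s, |x s| ≤ R) (l : Fin j) : |mv M x l| ≤ R := by
  unfold mv
  calc |∑ s, M l s * x s| ≤ ∑ s, |M l s * x s| := Finset.abs_sum_le_sum_abs _ _
    _ ≤ ∑ s, |M l s| * R := by
        refine Finset.sum_le_sum fun s _ => ?_
        rw [abs_mul]
        exact mul_le_mul_of_nonneg_left (hx s) (abs_nonneg _)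
    _ = (∑ s, |M l s|) * R := by rw [Finset.sum_mul]
    _ ≤ 1 * R := mul_le_mul_of_nonneg_right (hM l) hR
    _ = R := one_mul R

/-- The image of a family under a linear map, with new side information. -/
noncomputable def img (F : Pool.KA.Fam m J) (M : Fin j → Fin m → ℝ) (hM : ∀ l, ∑ s, |M l s| ≤ 1)
    {κ : Type} (z : F.Ω → κ) : Pool.KA.Fam j J where
  Ω := F.Ω
  ζ := κ
  fin := F.fin
  p := F.p
  u := fun ω => mv M (F.u ω)
  d := fun ω => mv M (F.d ω)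
  T := F.T
  Z := z
  isLaw := F.isLaw
  dir := fun ω l => abs_mv_le hM zero_le_one (F.dir ω) l
  tim := F.tim

lemma img_x (F : Pool.KA.Fam m J) (M : Fin j → Fin m → ℝ) (hM : ∀ l, ∑ s, |M l s| ≤ 1)
    {κ : Type} (z : F.Ω → κ) (ω : F.Ω) : (img F M hM z).x ω = mv M (F.x ω) := by
  funext l
  have : mv M (F.x ω) l = mv M (F.u ω) l + F.t ω * mv M (F.d ω) l := by
    rw [← mv_add_smul]
    rfl
  rw [this]
  rfl

lemma img_tm {F : Pool.KA.Fam m J} {M : Fin j → Fin m → ℝ} (hM : ∀ l, ∑ s, |M l s| ≤ 1)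
    {κ : Type} {z : F.Ω → κ} (hz : ∀ ω ω', F.l ω = F.l ω' → z ω = z ω') {e : ℝ} (h : F.Tm e) :
    (img F M hM z).Tm e := by
  unfold Pool.KA.Fam.Tm at h ⊢
  refine le_trans h ?_
  refine CH_mono_cond F.isLaw.nonneg (W' := fun ω => (F.l ω, F.Z ω))
    (W := fun ω => ((img F M hM z).l ω, (img F M hM z).Z ω)) ?_
  intro ω ω' _ _ hh
  have h1 : F.l ω = F.l ω' := (Prod.ext_iff.mp hh).1
  refine Prod.ext ?_ (hz ω ω' h1)
  have h2 : F.u ω = F.u ω' := (Prod.ext_iff.mp h1).1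
  have h3 : F.d ω = F.d ω' := (Prod.ext_iff.mp h1).2
  change (mv M (F.u ω), mv M (F.d ω)) = (mv M (F.u ω'), mv M (F.d ω'))
  rw [h2, h3]

/-- The rounded image of the line. -/
noncomputable def Lb (F : Pool.KA.Fam m J) (M : Fin j → Fin m → ℝ) (ω : F.Ω) :
    (Fin j → ℤ) × (Fin j → ℤ) := (fl J (mv M (F.u ω)), fl J (mv M (F.d ω)))

lemma Lb_of_l (F : Pool.KA.Fam m J) (M : Fin j → Fin m → ℝ) (ω ω' : F.Ω) (h : F.l ω = F.l ω') :
    Lb F M ω = Lb F M ω' := by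
  have h2 : F.u ω = F.u ω' := (Prod.ext_iff.mp h).1
  have h3 : F.d ω = F.d ω' := (Prod.ext_iff.mp h).2
  unfold Lb
  rw [h2, h3]

/-! ### Rounding -/

lemma fl_apply (j : ℕ) (x : Fin m → ℝ) (s : Fin m) : fl j x s = ⌊2 ^ j * x s⌋ := rfl

lemma abs_of_fl {x y : Fin m → ℝ} (h : fl J x = fl J y) (s : Fin m) :
    |2 ^ J * x s - 2 ^ J * y s| < 1 := by
  have := congrFun h s
  rw [fl_apply, fl_apply] at this
  exact Int.abs_sub_lt_one_of_floor_eq_floor this

lemma floor_near {a b : ℝ} {n : ℕ} (h : |a - b| < n) : |((⌊a⌋ - ⌊b⌋ : ℤ) : ℝ)| ≤ n := by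
  have h1 := Int.floor_le a
  have h2 := Int.lt_floor_add_one a
  have h3 := Int.floor_le b
  have h4 := Int.lt_floor_add_one b
  rw [abs_lt] at h
  have h5 : ((⌊a⌋ - ⌊b⌋ : ℤ) : ℝ) < (n : ℝ) + 1 := by push_cast; linarith
  have h6 : -((n : ℝ) + 1) < ((⌊a⌋ - ⌊b⌋ : ℤ) : ℝ) := by push_cast; linarith
  have h7 : (⌊a⌋ - ⌊b⌋ : ℤ) < (n : ℤ) + 1 := by exact_mod_cast h5
  have h8 : -((n : ℤ) + 1) < (⌊a⌋ - ⌊b⌋ : ℤ) := by exact_mod_cast h6
  rw [abs_le]
  have h9 : (⌊a⌋ - ⌊b⌋ : ℤ) ≤ (n : ℤ) := by omega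
  have h10 : -(n : ℤ) ≤ (⌊a⌋ - ⌊b⌋ : ℤ) := by omega
  constructor
  · exact_mod_cast h10
  · exact_mod_cast h9

/-- Entropy of a vector of integers which is almost determined. -/
lemma CH_near {Ω : Type} [Fintype Ω] {T : Type} {p : Ω → ℝ} (hp : IsLaw p) (X : Ω → Fin m → ℤ)
    (W : Ω → T) (n : ℕ) (h : ∀ ω ω', W ω = W ω' → ∀ k, |((X ω k - X ω' k : ℤ) : ℝ)| ≤ n) :
    CH p X W ≤ m * Real.log (2 * n + 1) := by
  have h1 := CH_le_vec hp.nonneg hp.sum_one X W (fun _ => (n : ℝ))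
    (fun ω ω' _ _ hh k => h ω ω' hh k)
  rwa [Ex_const hp.sum_one] at h1

/-- The rounded image is almost determined by the rounded vector. -/
lemma CH_img {Ω : Type} [Fintype Ω] {T : Type} {p : Ω → ℝ} (hp : IsLaw p)
    {M : Fin j → Fin m → ℝ} (hM : ∀ l, ∑ s, |M l s| ≤ 1) (x : Ω → Fin m → ℝ) (W : Ω → T)
    (hW : ∀ ω ω', W ω = W ω' → fl J (x ω) = fl J (x ω')) :
    CH p (fun ω => fl J (mv M (x ω))) W ≤ j * Real.log 3 := by
  have h1 := CH_near (m := j) hp (fun ω => fl J (mv M (x ω))) W 1 (by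
    intro ω ω' hh l
    rw [fl_apply, fl_apply]
    refine floor_near ?_
    have h2 := hW ω ω' hh
    -- strict bound through the maximum
    have hlt : |2 ^ J * mv M (x ω) l - 2 ^ J * mv M (x ω') l| < 1 := by
      have e : 2 ^ J * mv M (x ω) l - 2 ^ J * mv M (x ω') l =
          ∑ s, M l s * (2 ^ J * x ω s - 2 ^ J * x ω' s) := by
        unfold mv
        rw [Finset.mul_sum, Finset.mul_sum, ← Finset.sum_sub_distrib]
        exact Finset.sum_congr rfl fun s _ => by ring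
      rw [e]
      by_cases h0 : ∀ s, M l s = 0
      · have : ∑ s, M l s * (2 ^ J * x ω s - 2 ^ J * x ω' s) = 0 :=
          Finset.sum_eq_zero fun s _ => by rw [h0 s, zero_mul]
        rw [this, abs_zero]
        exact one_pos
      · push Not at h0
        obtain ⟨s₀, hs₀⟩ := h0
        calc |∑ s, M l s * (2 ^ J * x ω s - 2 ^ J * x ω' s)|
            ≤ ∑ s, |M l s * (2 ^ J * x ω s - 2 ^ J * x ω' s)| := Finset.abs_sum_le_sum_abs _ _
          _ < ∑ s, |M l s| := by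
              refine Finset.sum_lt_sum (fun s _ => ?_) ⟨s₀, Finset.mem_univ _, ?_⟩
              · rw [abs_mul]
                have := (abs_of_fl h2 s).le
                exact mul_le_of_le_one_right (abs_nonneg _) this
              · rw [abs_mul]
                have := abs_of_fl h2 s₀
                exact mul_lt_of_lt_one_right (abs_pos.mpr hs₀) this
          _ ≤ 1 := hM l
    exact_mod_cast hlt)
  refine h1.trans (le_of_eq ?_)
  norm_num

/-- The rounded vector is almost determined by the rounded images of enough functionals. -/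
lemma CH_inv {Ω : Type} [Fintype Ω] {T : Type} {p : Ω → ℝ} (hp : IsLaw p)
    {b : Fin j → Fin m → ℝ} {c : Fin j' → Fin m → ℝ} {C : ℕ}
    (hdet : ∀ (x : Fin m → ℝ) (δ : ℝ), (∀ l, |mv b x l| ≤ δ) → (∀ l, |mv c x l| ≤ δ) →
      ∀ r, |x r| ≤ C * δ) (x : Ω → Fin m → ℝ) (W : Ω → T)
    (hW : ∀ ω ω', W ω = W ω' → fl J (mv b (x ω)) = fl J (mv b (x ω')) ∧
      fl J (mv c (x ω)) = fl J (mv c (x ω'))) :
    CH p (fun ω => fl J (x ω)) W ≤ m * Real.log (2 * ((C + 1 : ℕ) : ℝ) + 1) := by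
  refine CH_near hp (fun ω => fl J (x ω)) W (C + 1) ?_
  intro ω ω' hh l
  rw [fl_apply, fl_apply]
  refine floor_near ?_
  obtain ⟨h1, h2⟩ := hW ω ω' hh
  have e : ∀ {i : ℕ} (M : Fin i → Fin m → ℝ) (l : Fin i),
      mv M (fun s => 2 ^ J * x ω s - 2 ^ J * x ω' s) l =
        2 ^ J * mv M (x ω) l - 2 ^ J * mv M (x ω') l := by
    intro i M l
    rw [mv_sub, mv_smul, mv_smul]
  have h3 := hdet (fun s => 2 ^ J * x ω s - 2 ^ J * x ω' s) 1
    (fun l => by rw [e]; exact (abs_of_fl h1 l).le) (fun l => by rw [e]; exact (abs_of_fl h2 l).le)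
    l
  rw [mul_one] at h3
  refine lt_of_le_of_lt h3 ?_
  push_cast
  linarith

/-- The rounded image of the position is almost determined by the rounded image of the line and the
time. -/
lemma CH_pos (F : Pool.KA.Fam m J) {T : Type} {M : Fin j → Fin m → ℝ} (W : F.Ω → T)
    (hW : ∀ ω ω', W ω = W ω' → Lb F M ω = Lb F M ω' ∧ F.T ω = F.T ω') :
    CH F.p (fun ω => fl J (mv M (F.x ω))) W ≤ j * Real.log 5 := by
  have h1 := CH_near (m := j) F.isLaw (fun ω => fl J (mv M (F.x ω))) W 2 (by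
    intro ω ω' hh l
    rw [fl_apply, fl_apply]
    refine floor_near ?_
    obtain ⟨h1, h2⟩ := hW ω ω' hh
    have h3 : fl J (mv M (F.u ω)) = fl J (mv M (F.u ω')) := (Prod.ext_iff.mp h1).1
    have h4 : fl J (mv M (F.d ω)) = fl J (mv M (F.d ω')) := (Prod.ext_iff.mp h1).2
    have e : ∀ ω, mv M (F.x ω) l = mv M (F.u ω) l + F.t ω * mv M (F.d ω) l := by
      intro ω
      rw [← mv_add_smul]
      rfl
    have h5 : F.t ω = F.t ω' := by
      unfold Pool.KA.Fam.t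
      rw [h2]
    have h6 : 0 ≤ F.t ω := by
      unfold Pool.KA.Fam.t
      positivity
    have h7 : F.t ω ≤ 1 := by
      unfold Pool.KA.Fam.t
      rw [div_le_one (by positivity)]
      exact_mod_cast (F.tim ω).le
    have h8 := abs_of_fl h3 l
    have h9 := abs_of_fl h4 l
    rw [e ω, e ω', ← h5]
    have h10 : 2 ^ J * (mv M (F.u ω) l + F.t ω * mv M (F.d ω) l) -
        2 ^ J * (mv M (F.u ω') l + F.t ω * mv M (F.d ω') l) =
        (2 ^ J * mv M (F.u ω) l - 2 ^ J * mv M (F.u ω') l) +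
        F.t ω * (2 ^ J * mv M (F.d ω) l - 2 ^ J * mv M (F.d ω') l) := by ring
    rw [h10]
    have h11 : |F.t ω * (2 ^ J * mv M (F.d ω) l - 2 ^ J * mv M (F.d ω') l)| ≤ 1 := by
      rw [abs_mul, abs_of_nonneg h6]
      exact mul_le_one₀ h7 (abs_nonneg _) h9.le
    have h12 := abs_add_le (2 ^ J * mv M (F.u ω) l - 2 ^ J * mv M (F.u ω') l)
      (F.t ω * (2 ^ J * mv M (F.d ω) l - 2 ^ J * mv M (F.d ω') l))
    push_cast
    linarith)
  refine h1.trans (le_of_eq ?_)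
  norm_num

/-- Entropy of the rounded direction. -/
lemma H_dir_le (F : Pool.KA.Fam m J) : H F.p (F.D J) ≤ m * (J * Real.log 2 + Real.log 3) := by
  have h1 : H F.p (F.D J) ≤ Real.log ((Fintype.piFinset fun _ : Fin m =>
      Finset.Icc (-(2 ^ J : ℤ)) (2 ^ J)).card) := by
    refine H_le_log_card F.isLaw.nonneg F.isLaw.sum_one _ _ ?_
    intro ω _
    rw [Fintype.mem_piFinset]
    intro s
    have h2 := abs_le.mp (F.dir ω s)
    have h3 : (0 : ℝ) < 2 ^ J := by positivity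
    rw [Finset.mem_Icc]
    change -(2 ^ J : ℤ) ≤ ⌊2 ^ J * F.d ω s⌋ ∧ ⌊2 ^ J * F.d ω s⌋ ≤ 2 ^ J
    constructor
    · rw [Int.le_floor]
      push_cast
      nlinarith
    · have h4 : (2 : ℝ) ^ J * F.d ω s ≤ 2 ^ J := by nlinarith
      have h5 := (Int.floor_le ((2 : ℝ) ^ J * F.d ω s)).trans h4
      exact_mod_cast h5
  refine h1.trans ?_
  rw [Fintype.card_piFinset, Finset.prod_const, Finset.card_univ, Fintype.card_fin, Int.card_Icc]
  have h2 : ((2 ^ J : ℤ) + 1 - -(2 ^ J)).toNat ≤ 3 * 2 ^ J := by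
    have h3 : (1 : ℤ) ≤ 2 ^ J := one_le_pow₀ (by norm_num)
    have h4 : ((3 * 2 ^ J : ℕ) : ℤ) = 3 * 2 ^ J := by push_cast; rfl
    omega
  have h0 : 0 < ((2 ^ J : ℤ) + 1 - -(2 ^ J)).toNat := by
    have h3 : (1 : ℤ) ≤ 2 ^ J := one_le_pow₀ (by norm_num)
    omega
  push_cast
  rw [Real.log_pow]
  refine mul_le_mul_of_nonneg_left ?_ (Nat.cast_nonneg _)
  have h5 : Real.log (((2 ^ J : ℤ) + 1 - -(2 ^ J)).toNat : ℝ) ≤ Real.log (3 * 2 ^ J) := by
    refine Real.log_le_log (by exact_mod_cast h0) ?_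
    exact_mod_cast h2
  rw [Real.log_mul (by norm_num) (by positivity), Real.log_pow] at h5
  linarith

/-- The rounding constant of a chain. -/
noncomputable def Cc (m j j' C : ℕ) : ℝ :=
  3 * (m * Real.log (2 * ((C + 1 : ℕ) : ℝ) + 1)) + (j + j') * Real.log 3 + j * Real.log 5 +
    j' * Real.log 3

lemma V_img (F : Pool.KA.Fam m J) (M : Fin j → Fin m → ℝ) (hM : ∀ l, ∑ s, |M l s| ≤ 1)
    {κ : Type} (z : F.Ω → κ) : (img F M hM z).V J =
      CH F.p (fun ω => fl J (mv M (F.d ω))) z -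
      CH F.p (fun ω => fl J (mv M (F.x ω))) (fun ω => (F.T ω, z ω)) := by
  have h1 : (img F M hM z).X J = fun ω => fl J (mv M (F.x ω)) := by
    funext ω
    change fl J ((img F M hM z).x ω) = _
    rw [img_x]
  change CH F.p (fun ω => fl J (mv M (F.d ω))) z -
      CH F.p ((img F M hM z).X J) (fun ω => (F.T ω, z ω)) -
      j * (((J : ℝ) - J) * Real.log 2) = _
  rw [h1, sub_self, zero_mul, mul_zero, sub_zero]

/-- **Chains.** -/
theorem chain (F : Pool.KA.Fam m J) {b : Fin j → Fin m → ℝ} {c : Fin j' → Fin m → ℝ}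
    (hb : ∀ l, ∑ s, |b l s| ≤ 1) (hc : ∀ l, ∑ s, |c l s| ≤ 1) {C : ℕ}
    (hdet : ∀ (x : Fin m → ℝ) (δ : ℝ), (∀ l, |mv b x l| ≤ δ) → (∀ l, |mv c x l| ≤ δ) →
      ∀ r, |x r| ≤ C * δ) {E : ℝ}
    (h1 : (img F b hb (fun _ => ())).V J ≤ E) (h2 : (img F c hc (Lb F b)).V J ≤ E) :
    2 * H F.p (F.D J) - j' * (J * Real.log 2) - H F.p (Lb F b) - 2 * E - Cc m j j' C ≤
      CH F.p (F.X J) F.T := by
  have hn := F.isLaw.nonneg
  have hp := F.isLaw
  obtain ⟨K, hK⟩ : ∃ K : ℝ, K = m * Real.log (2 * ((C + 1 : ℕ) : ℝ) + 1) := ⟨_, rfl⟩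
  rw [V_img] at h1 h2
  obtain ⟨xb, hxb⟩ : ∃ xb : F.Ω → Fin j → ℤ, xb = fun ω => fl J (mv b (F.x ω)) := ⟨_, rfl⟩
  obtain ⟨xc, hxc⟩ : ∃ xc : F.Ω → Fin j' → ℤ, xc = fun ω => fl J (mv c (F.x ω)) := ⟨_, rfl⟩
  obtain ⟨db, hdb⟩ : ∃ db : F.Ω → Fin j → ℤ, db = fun ω => fl J (mv b (F.d ω)) := ⟨_, rfl⟩
  obtain ⟨dc, hdc⟩ : ∃ dc : F.Ω → Fin j' → ℤ, dc = fun ω => fl J (mv c (F.d ω)) := ⟨_, rfl⟩
  rw [← hxb, ← hdb] at h1
  rw [← hxc, ← hdc] at h2
  -- the trivial side information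
  have e1 : CH F.p db (fun _ : F.Ω => ()) = H F.p db := by
    unfold CH
    rw [H_const hp.sum_one, sub_zero]
    exact H_congr hn (fun ω ω' _ _ h => Prod.ext h rfl) (fun ω ω' _ _ h => (Prod.ext_iff.mp h).1)
  have e2 : CH F.p xb (fun ω => (F.T ω, ())) = CH F.p xb F.T :=
    CH_congr hn (fun ω ω' _ _ h => (Prod.ext_iff.mp h).1) (fun ω ω' _ _ h => (Prod.ext_iff.mp h).1)
      (fun ω ω' _ _ h => (Prod.ext_iff.mp h).1) (fun ω ω' _ _ h => Prod.ext h rfl)
  rw [e1, e2] at h1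
  -- step 1
  have s1 : CH F.p (fun ω => (xc ω, xb ω)) F.T ≤ CH F.p (F.X J) F.T + (j + j') * Real.log 3 := by
    have k1 := CH_le_add hn (fun ω => (xc ω, xb ω)) (F.X J) F.T
    have k2 := CH_subadd hn xc xb (fun ω => (F.X J ω, F.T ω))
    have k3 := CH_img (J := J) hp hc F.x (fun ω => (F.X J ω, F.T ω))
      (fun ω ω' h => (Prod.ext_iff.mp h).1)
    have k4 := CH_img (J := J) hp hb F.x (fun ω => (F.X J ω, F.T ω))
      (fun ω ω' h => (Prod.ext_iff.mp h).1)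
    rw [← hxc] at k3
    rw [← hxb] at k4
    linarith
  rw [CH_chain hn] at s1
  -- step 3
  have s3 : CH F.p xc (fun ω => (F.T ω, Lb F b ω)) ≤
      CH F.p xc (fun ω => (xb ω, F.T ω)) + j * Real.log 5 := by
    have k1 := CH_le_add hn xc xb (fun ω => (F.T ω, Lb F b ω))
    have k2 := CH_pos F (M := b) (fun ω => (F.T ω, Lb F b ω))
      (fun ω ω' h => ⟨(Prod.ext_iff.mp h).2, (Prod.ext_iff.mp h).1⟩)
    rw [← hxb] at k2
    have k3 := CH_mono_cond hn (X := xc) (W' := fun ω => (xb ω, (F.T ω, Lb F b ω)))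
      (W := fun ω => (xb ω, F.T ω)) (fun ω ω' _ _ h => by
        have e := Prod.ext_iff.mp h
        exact Prod.ext e.1 (Prod.ext_iff.mp e.2).1)
    linarith
  -- step 5
  have s5 : H F.p (F.D J) ≤ H F.p (Lb F b) + CH F.p dc (Lb F b) + K := by
    have k1 := CH_inv (J := J) hp hdet F.d (fun ω => (dc ω, Lb F b ω)) (by
      intro ω ω' h
      have e := Prod.ext_iff.mp h
      have e1 : dc ω = dc ω' := e.1
      rw [hdc] at e1
      exact ⟨(Prod.ext_iff.mp e.2).2, e1⟩)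
    rw [← hK] at k1
    have k2 : H F.p (F.D J) ≤ H F.p (fun ω => (dc ω, Lb F b ω)) +
        CH F.p (F.D J) (fun ω => (dc ω, Lb F b ω)) := by
      unfold CH
      have := H_mono hn (X := fun ω => (F.D J ω, (dc ω, Lb F b ω))) (Y := F.D J)
        (fun ω ω' _ _ h => (Prod.ext_iff.mp h).1)
      linarith
    have k3 : H F.p (fun ω => (dc ω, Lb F b ω)) = H F.p (Lb F b) + CH F.p dc (Lb F b) := by
      unfold CH
      ring
    have k4 : CH F.p (F.D J) (fun ω => (dc ω, Lb F b ω)) ≤ K := k1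
    linarith
  -- step 2'
  have s2 : H F.p (F.D J) ≤ H F.p db + j' * (J * Real.log 2 + Real.log 3) + K := by
    have k1 := CH_inv (J := J) hp hdet F.d (fun ω => (dc ω, db ω)) (by
      intro ω ω' h
      have e := Prod.ext_iff.mp h
      have e1 : dc ω = dc ω' := e.1
      have e2 : db ω = db ω' := e.2
      rw [hdc] at e1
      rw [hdb] at e2
      exact ⟨e2, e1⟩)
    rw [← hK] at k1
    have k2 : H F.p (F.D J) ≤ H F.p (fun ω => (dc ω, db ω)) +
        CH F.p (F.D J) (fun ω => (dc ω, db ω)) := by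
      unfold CH
      have := H_mono hn (X := fun ω => (F.D J ω, (dc ω, db ω))) (Y := F.D J)
        (fun ω ω' _ _ h => (Prod.ext_iff.mp h).1)
      linarith
    have k3 := subadd hn hp.sum_one (X := dc) (Y := db) (W := fun ω => (dc ω, db ω))
      (fun ω ω' _ _ h => h)
    have k4 : H F.p dc ≤ j' * (J * Real.log 2 + Real.log 3) := by
      have := H_dir_le (img F c hc (Lb F b))
      have e : (img F c hc (Lb F b)).D J = dc := by
        rw [hdc]
        rfl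
      rw [e] at this
      exact this
    have k5 : CH F.p (F.D J) (fun ω => (dc ω, db ω)) ≤ K := k1
    linarith
  have hK0 : 0 ≤ K := by
    rw [hK]
    refine mul_nonneg (Nat.cast_nonneg _) (Real.log_nonneg ?_)
    have : (0 : ℝ) ≤ ((C + 1 : ℕ) : ℝ) := Nat.cast_nonneg _
    linarith
  unfold Cc
  rw [← hK]
  linarith

end Pool.KRN
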