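import Pool.Agent.H34.KA.TYA
import Pool.Agent.H9.KRN.Cls

/-!
# The entropy bound in dimension `k + 2`
-/

set_option autoImplicit false

open Finset Real

namespace Pool.KRN

open Pool.Agent.H49.Ent Pool.Agent.H32.Dense Pool.STK Pool.KA Pool.GP

lemma tm_mono {m J : ℕ} {F : Pool.KA.Fam m J} {e e' : ℝ} (h : F.Tm e) (he : e ≤ e') : F.Tm e' := by
  unfold Pool.KA.Fam.Tm at h ⊢
  linarith

lemma imgB_of_KP {j : ℕ} (h : KP j) {ε : ℝ} (hε : 0 < ε) : ∃ θ > 0, ∃ J₀ : ℕ, ∀ J ≥ J₀,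
    ∀ (m : ℕ) (F : Pool.KA.Fam m J), F.Tm (θ * J) → ImgB F j (ε * J) := by
  obtain ⟨θ, hθ, J₀, hJ₀⟩ := h ε hε
  refine ⟨θ, hθ, J₀, fun J hJ m F hF M hM S z hz => ?_⟩
  exact hJ₀ J hJ _ (img_tm hM hz hF)

/-- Classes: three functionals with the same minimiser. -/
lemma exists_cls {Ω : Type} {K N : ℕ} (hK : 2 * (N + 1) < K) (f : Fin K → ℕ → Ω → ℝ) :
    ∃ A : Ω → (Fin 3 → Fin K) × Fin (N + 1), ∀ ω, Function.Injective (A ω).1 ∧
      ∀ l, ∀ n ≤ N, f ((A ω).1 l) ((A ω).2 : ℕ) ω ≤ f ((A ω).1 l) n ω := by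
  classical
  suffices h : ∀ ω, ∃ a : (Fin 3 → Fin K) × Fin (N + 1), Function.Injective a.1 ∧
      ∀ l, ∀ n ≤ N, f (a.1 l) (a.2 : ℕ) ω ≤ f (a.1 l) n ω by
    choose A hA using h
    exact ⟨A, hA⟩
  intro ω
  have hex : ∀ i : Fin K, ∃ n : Fin (N + 1), ∀ n' : Fin (N + 1), f i n ω ≤ f i n' ω := by
    intro i
    obtain ⟨n, -, hn⟩ := Finset.exists_min_image univ (fun n : Fin (N + 1) => f i n ω)
      ⟨0, Finset.mem_univ _⟩
    exact ⟨n, fun n' => hn n' (Finset.mem_univ _)⟩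
  choose M hM using hex
  obtain ⟨n, -, hn⟩ := Finset.exists_lt_card_fiber_of_mul_lt_card_of_maps_to (n := 2)
    (s := (univ : Finset (Fin K))) (t := (univ : Finset (Fin (N + 1)))) (f := M)
    (fun _ _ => Finset.mem_univ _) (by
      rw [Finset.card_univ, Finset.card_univ, Fintype.card_fin, Fintype.card_fin]
      omega)
  obtain ⟨s, hs, hsc⟩ := Finset.exists_subset_card_eq (n := 3) (by
    have : 3 ≤ (univ.filter fun i : Fin K => M i = n).card := hn
    exact this)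
  refine ⟨(fun l => s.orderEmbOfFin hsc l, n), (s.orderEmbOfFin hsc).injective, ?_⟩
  intro l n' hn'
  have h1 : s.orderEmbOfFin hsc l ∈ univ.filter fun i : Fin K => M i = n :=
    hs (Finset.orderEmbOfFin_mem s hsc l)
  have h2 : M (s.orderEmbOfFin hsc l) = n := (Finset.mem_filter.mp h1).2
  have h3 := hM (s.orderEmbOfFin hsc l) ⟨n', by omega⟩
  rw [h2] at h3
  exact h3

/-- A grid. -/
lemma exists_grid (J : ℕ) {N : ℕ} (hN : 0 < N) :
    Grid J N (J / N + 1) (fun n => min n N * J / N) := by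
  refine ⟨by simp, ?_, ?_, ?_⟩
  · simp only [min_self]
    exact Nat.mul_div_cancel_left J hN
  · intro n
    change min n N * J / N ≤ J
    calc min n N * J / N ≤ N * J / N := Nat.div_le_div_right (Nat.mul_le_mul_right _ (min_le_right _ _))
      _ = J := Nat.mul_div_cancel_left J hN
  · intro n hn
    change min (n + 1) N * J / N ≤ min n N * J / N + (J / N + 1)
    rw [min_eq_left (by omega : n + 1 ≤ N), min_eq_left hn.le, add_mul, one_mul]
    have h2 : (n * J + J) / N ≤ n * J / N + J / N + 1 := by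
      rw [Nat.add_div hN]
      split_ifs <;> omega
    omega

/-- The directions in a class. -/
lemma H_class {m J : ℕ} (F : Pool.KA.Fam m J) {κ : Type} [Fintype κ] (A : F.Ω → κ) (a : κ)
    {t : ℝ} (hD : m * (J * Real.log 2) - t ≤ H F.p (F.D J)) (ha : 0 < law F.p A a) :
    m * (J * Real.log 2) - (t + Real.log (Fintype.card κ) + m * Real.log 3) / law F.p A a ≤
      H (cond F.p A a) (F.D J) := by
  classical
  have hp := F.isLaw.nonneg
  have hlaw0 : ∀ a, 0 ≤ law F.p A a := fun a => law_nonneg hp A a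
  have hlaw1 : ∑ a, law F.p A a = 1 := by rw [tya_law_sum, F.isLaw.sum_one]
  have hlog3 : 0 < Real.log 3 := Real.log_pos (by norm_num)
  have h1 := (tya_CH_le F.isLaw (F.D J) (fun _ => ()) A).2
  rw [tya_CH_sum hp] at h1
  have e1 : ∀ {q : F.Ω → ℝ}, IsLaw q → CH q (F.D J) (fun _ => ()) = H q (F.D J) := by
    intro q hq
    unfold CH
    rw [H_const hq.sum_one, sub_zero]
    exact H_congr hq.nonneg (fun ω ω' _ _ h => Prod.ext h rfl)
      (fun ω ω' _ _ h => (Prod.ext_iff.mp h).1)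
  rw [e1 F.isLaw] at h1
  have hla : IsLaw (cond F.p A a) := ⟨cond_nonneg hp A a, sum_cond F.p A ha.ne'⟩
  have h3 : ∀ b, law F.p A b * CH (cond F.p A b) (F.D J) (fun _ => ()) ≤
      law F.p A b * (m * (J * Real.log 2 + Real.log 3)) := by
    intro b
    rcases (hlaw0 b).eq_or_lt with hb | hb
    · rw [← hb, zero_mul, zero_mul]
    · refine mul_le_mul_of_nonneg_left ?_ hb.le
      have hlb : IsLaw (cond F.p A b) := ⟨cond_nonneg hp A b, sum_cond F.p A hb.ne'⟩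
      rw [e1 hlb]
      exact H_box (J := J) hlb F.dir
  rw [← Finset.add_sum_erase _ _ (Finset.mem_univ a), e1 hla] at h1
  have h6 : ∑ b ∈ univ.erase a, law F.p A b * CH (cond F.p A b) (F.D J) (fun _ => ()) ≤
      ∑ b ∈ univ.erase a, law F.p A b * (m * (J * Real.log 2 + Real.log 3)) :=
    Finset.sum_le_sum fun b _ => h3 b
  have h7 : ∑ b ∈ univ.erase a, law F.p A b * (m * (J * Real.log 2 + Real.log 3)) =
      (1 - law F.p A a) * (m * (J * Real.log 2 + Real.log 3)) := by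
    rw [← Finset.sum_mul, ← hlaw1, ← Finset.add_sum_erase _ _ (Finset.mem_univ a)]
    ring
  have h8 : (1 - law F.p A a) * (m * Real.log 3) ≤ m * Real.log 3 := by
    have : 0 ≤ law F.p A a * (m * Real.log 3) := by positivity
    linarith
  rw [sub_le_comm, le_div_iff₀ ha]
  have h9 : (m * (J * Real.log 2) - H (cond F.p A a) (F.D J)) * law F.p A a =
      m * (J * Real.log 2) - (law F.p A a * H (cond F.p A a) (F.D J) +
        (1 - law F.p A a) * (m * (J * Real.log 2))) := by ring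
  rw [h9]
  have h10 : (1 - law F.p A a) * (m * (J * Real.log 2 + Real.log 3)) =
      (1 - law F.p A a) * (m * (J * Real.log 2)) + (1 - law F.p A a) * (m * Real.log 3) := by ring
  linarith

/-- **The entropy bound in dimension `k + 2`.** -/
theorem ef_of {k : ℕ} (hk : 3 ≤ k) (hKP1 : KP 1) (hKP2 : KP 2) (hKP3 : KP 3) (hKPk : KP k)
    (hKPk' : KP (k - 1)) {s : ℝ} (hs0 : 0 ≤ s)
    (hs : ∀ S x : ℝ, 0 ≤ x → x ≤ 1 → 3 * (k : ℝ) + 2 + (2 - k) * x ≤ 3 * S →
      4 * (k : ℝ) + 2 + (4 - k) * x ≤ 4 * S → s ≤ S) : EF (k + 2) s := by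
  classical
  intro ε hε
  have hlog2 : 0 < Real.log 2 := Real.log_pos (by norm_num)
  have hlog3 : 0 < Real.log 3 := Real.log_pos (by norm_num)
  obtain ⟨ε₄, hε₄⟩ : ∃ ε₄ : ℝ, ε₄ = ε / 64 * Real.log 2 := ⟨_, rfl⟩
  have hε₄0 : 0 < ε₄ := by rw [hε₄]; positivity
  obtain ⟨N, hN⟩ := exists_nat_ge (2 * (k * Real.log 2) / ε₄ + 1)
  have hkr : (3 : ℝ) ≤ k := by exact_mod_cast hk
  have hN1 : (1 : ℝ) ≤ N := by
    have : 0 ≤ 2 * (k * Real.log 2) / ε₄ := by positivity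
    linarith
  have hN0 : 0 < N := by
    have : (0 : ℝ) < N := by linarith
    exact_mod_cast this
  have hNε : k * Real.log 2 / N ≤ ε₄ / 2 := by
    have h1 : 2 * (k * Real.log 2) / ε₄ ≤ N := by linarith
    rw [div_le_iff₀ hε₄0] at h1
    rw [div_le_div_iff₀ (by linarith) (by norm_num)]
    linarith
  obtain ⟨K, hK⟩ : ∃ K : ℕ, K = 2 * (N + 1) + 1 + (k + 2) := ⟨_, rfl⟩
  obtain ⟨a, C, hG⟩ := exists_gpos (m := k + 2) (by omega) K
  obtain ⟨q, hq⟩ : ∃ q : ℝ, q = (Fintype.card ((Fin 3 → Fin K) × Fin (N + 1)) : ℝ) := ⟨_, rfl⟩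
  have hK0 : 0 < K := by omega
  have hq1 : 1 ≤ q := by
    rw [hq]
    have : 0 < Fintype.card ((Fin 3 → Fin K) × Fin (N + 1)) :=
      Fintype.card_pos_iff.mpr ⟨(fun _ => ⟨0, hK0⟩, 0)⟩
    exact_mod_cast this
  obtain ⟨c₀, hc₀⟩ : ∃ c₀ : ℝ, c₀ = min 1 (ε / (2 * (s + 1) * q)) := ⟨_, rfl⟩
  have hc₀0 : 0 < c₀ := by rw [hc₀]; positivity
  have hc₀1 : c₀ ≤ 1 := by rw [hc₀]; exact min_le_left _ _
  have hc₀2 : q * c₀ * (s + 1) ≤ ε / 2 := by
    have h1 : c₀ ≤ ε / (2 * (s + 1) * q) := by rw [hc₀]; exact min_le_right _ _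
    calc q * c₀ * (s + 1) ≤ q * (ε / (2 * (s + 1) * q)) * (s + 1) := by gcongr
      _ = ε / 2 := by field_simp
  obtain ⟨θ1, hθ1, J1, hJ1⟩ := imgB_of_KP hKP1 hε₄0
  obtain ⟨θ2, hθ2, J2, hJ2⟩ := imgB_of_KP hKP2 hε₄0
  obtain ⟨θ3, hθ3, J3, hJ3⟩ := imgB_of_KP hKP3 hε₄0
  obtain ⟨θ4, hθ4, J4, hJ4⟩ := imgB_of_KP hKPk hε₄0
  obtain ⟨θ5, hθ5, J5, hJ5⟩ := imgB_of_KP hKPk' hε₄0
  obtain ⟨θ', hθ'⟩ : ∃ θ' : ℝ, θ' = min θ1 (min θ2 (min θ3 (min θ4 θ5))) := ⟨_, rfl⟩
  have hθ'0 : 0 < θ' := by rw [hθ']; positivity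
  have l1 : θ' ≤ θ1 := by rw [hθ']; exact min_le_left _ _
  have l2 : θ' ≤ θ2 := by rw [hθ']; exact (min_le_right _ _).trans (min_le_left _ _)
  have l3 : θ' ≤ θ3 := by
    rw [hθ']; exact (min_le_right _ _).trans ((min_le_right _ _).trans (min_le_left _ _))
  have l4 : θ' ≤ θ4 := by
    rw [hθ']
    exact (min_le_right _ _).trans ((min_le_right _ _).trans ((min_le_right _ _).trans
      (min_le_left _ _)))
  have l5 : θ' ≤ θ5 := by
    rw [hθ']
    exact (min_le_right _ _).trans ((min_le_right _ _).trans ((min_le_right _ _).trans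
      (min_le_right _ _)))
  obtain ⟨θ, hθ⟩ : ∃ θ : ℝ, θ = min (c₀ * θ' / 2) (c₀ * ε₄ / (2 * Real.log 2)) := ⟨_, rfl⟩
  have hθ0 : 0 < θ := by rw [hθ]; positivity
  have hθa : θ ≤ c₀ * θ' / 2 := by rw [hθ]; exact min_le_left _ _
  have hθb : θ * Real.log 2 ≤ c₀ * ε₄ / 2 := by
    have h1 : θ ≤ c₀ * ε₄ / (2 * Real.log 2) := by rw [hθ]; exact min_le_right _ _
    calc θ * Real.log 2 ≤ c₀ * ε₄ / (2 * Real.log 2) * Real.log 2 := by gcongr
      _ = c₀ * ε₄ / 2 := by field_simp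
  -- constants
  obtain ⟨B₀, hB₀⟩ : ∃ B₀ : ℝ, B₀ = |Cc (k + 2) 2 k C| + |Cc (k + 2) 3 (k - 1) C| +
    (|Cg (k + 2) k N 0 (k + 2 - 1) C| + ((k + 2 : ℕ) : ℝ) * Real.log 3 + 2 * Real.log 3) :=
    ⟨_, rfl⟩
  have hB₀0 : 0 ≤ B₀ := by rw [hB₀]; positivity
  obtain ⟨Jb, hJb⟩ := exists_nat_ge ((B₀ + k * Real.log 2) / (ε₄ / 2) +
    (Real.log q + ((k + 2 : ℕ) : ℝ) * Real.log 3) / (c₀ * ε₄ / 2) +
    (-Real.log c₀) / ε₄ + Real.log q / (c₀ * θ' / 2) + 1)
  have hlq : 0 ≤ Real.log q := Real.log_nonneg hq1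
  have hlc : 0 ≤ -Real.log c₀ := by
    rw [neg_nonneg]
    exact Real.log_nonpos hc₀0.le hc₀1
  refine ⟨θ, hθ0, max Jb (max J1 (max J2 (max J3 (max J4 J5)))), ?_⟩
  intro J hJ F hu hTm hD
  have b0 : Jb ≤ J := le_trans (le_max_left _ _) hJ
  have b' : max J1 (max J2 (max J3 (max J4 J5))) ≤ J := le_trans (le_max_right _ _) hJ
  have b1 : J1 ≤ J := le_trans (le_max_left _ _) b'
  have b2 : J2 ≤ J := le_trans (le_trans (le_max_left _ _) (le_max_right _ _)) b'
  have b3 : J3 ≤ J := le_trans (le_trans (le_trans (le_max_left _ _) (le_max_right _ _))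
    (le_max_right _ _)) b'
  have b4 : J4 ≤ J := le_trans (le_trans (le_trans (le_trans (le_max_left _ _) (le_max_right _ _))
    (le_max_right _ _)) (le_max_right _ _)) b'
  have b5 : J5 ≤ J := le_trans (le_trans (le_trans (le_trans (le_max_right _ _) (le_max_right _ _))
    (le_max_right _ _)) (le_max_right _ _)) b'
  have hJr : (Jb : ℝ) ≤ J := by exact_mod_cast b0
  have t1 : 0 ≤ (B₀ + k * Real.log 2) / (ε₄ / 2) := by positivity
  have t2 : 0 ≤ (Real.log q + ((k + 2 : ℕ) : ℝ) * Real.log 3) / (c₀ * ε₄ / 2) := by positivity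
  have t3 : 0 ≤ (-Real.log c₀) / ε₄ := div_nonneg hlc hε₄0.le
  have t4 : 0 ≤ Real.log q / (c₀ * θ' / 2) := by positivity
  have c1 : B₀ + k * Real.log 2 ≤ ε₄ / 2 * J := by
    have h1 : (B₀ + k * Real.log 2) / (ε₄ / 2) ≤ J := by linarith
    rw [div_le_iff₀ (by positivity)] at h1
    linarith
  have c2 : Real.log q + ((k + 2 : ℕ) : ℝ) * Real.log 3 ≤ c₀ * ε₄ / 2 * J := by
    have h1 : (Real.log q + ((k + 2 : ℕ) : ℝ) * Real.log 3) / (c₀ * ε₄ / 2) ≤ J := by linarith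
    rw [div_le_iff₀ (by positivity)] at h1
    linarith
  have c3 : -Real.log c₀ ≤ ε₄ * J := by
    have h1 : (-Real.log c₀) / ε₄ ≤ J := by linarith
    rw [div_le_iff₀ hε₄0] at h1
    linarith
  have c4 : Real.log q ≤ c₀ * θ' / 2 * J := by
    have h1 : Real.log q / (c₀ * θ' / 2) ≤ J := by linarith
    rw [div_le_iff₀ (by positivity)] at h1
    linarith
  have hJ1' : (1 : ℝ) ≤ J := by linarith
  have hJ0 : (0 : ℝ) < J := by linarith
  obtain ⟨L, hL⟩ : ∃ L : ℝ, L = J * Real.log 2 := ⟨_, rfl⟩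
  have hL0 : 0 < L := by rw [hL]; positivity
  have hεL : ε / 2 * L = 32 * (ε₄ * J) := by rw [hL, hε₄]; ring
  have hp := F.isLaw.nonneg
  -- the grid and the classes
  obtain ⟨g, hgdef⟩ : ∃ g : ℕ → ℕ, g = fun n => min n N * J / N := ⟨_, rfl⟩
  obtain ⟨G, hGdef⟩ : ∃ G : ℕ, G = J / N + 1 := ⟨_, rfl⟩
  have hg : Grid J N G g := by
    rw [hgdef, hGdef]
    exact exists_grid J hN0
  obtain ⟨A, hA⟩ := exists_cls (Ω := F.Ω) (K := K) (N := N) (by omega)
    (fun i n ω => fi F.p (Lb F (r1 a i)) F.d J k g n ω)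
  have hlaw0 : ∀ b, 0 ≤ law F.p A b := fun b => law_nonneg hp A b
  have hlaw1 : ∑ b, law F.p A b = 1 := by rw [tya_law_sum, F.isLaw.sum_one]
  -- the bound `B`
  obtain ⟨B, hB⟩ : ∃ B : ℝ, B = B₀ + k * (G : ℝ) * Real.log 2 := ⟨_, rfl⟩
  have hGr : (G : ℝ) ≤ J / N + 1 := by
    rw [hGdef]
    push_cast
    have : ((J / N : ℕ) : ℝ) ≤ (J : ℝ) / N := Nat.cast_div_le
    linarith
  have hBJ : B ≤ ε₄ * J := by
    have h1 : k * (G : ℝ) * Real.log 2 ≤ k * ((J : ℝ) / N + 1) * Real.log 2 := by gcongr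
    have h2 : k * ((J : ℝ) / N + 1) * Real.log 2 = (k * Real.log 2 / N) * J + k * Real.log 2 := by
      ring
    have h3 : (k * Real.log 2 / N) * J ≤ ε₄ / 2 * J := mul_le_mul_of_nonneg_right hNε hJ0.le
    rw [hB]
    linarith
  have hkG : 0 ≤ k * (G : ℝ) * Real.log 2 := by positivity
  have a1 := le_abs_self (Cc (k + 2) 2 k C)
  have a2 := le_abs_self (Cc (k + 2) 3 (k - 1) C)
  have a3 := le_abs_self (Cg (k + 2) k N 0 (k + 2 - 1) C)
  have a1' := abs_nonneg (Cc (k + 2) 2 k C)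
  have a2' := abs_nonneg (Cc (k + 2) 3 (k - 1) C)
  have a3' := abs_nonneg (Cg (k + 2) k N 0 (k + 2 - 1) C)
  have a4 : 0 ≤ ((k + 2 : ℕ) : ℝ) * Real.log 3 := by positivity
  have hCg : Cg (k + 2) k N G (k + 2 - 1) C = Cg (k + 2) k N 0 (k + 2 - 1) C +
      k * (G : ℝ) * Real.log 2 := by
    unfold Cg cs
    rw [mul_zero, pow_zero, mul_one, Real.log_mul (by positivity) (by positivity), Real.log_pow 2]
    push_cast
    ring
  -- one class
  have hcls : ∀ b, c₀ ≤ law F.p A b → (s - ε / 2) * L ≤ CH (cond F.p A b) (F.X J) F.T := by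
    intro b hb
    have hb0 : 0 < law F.p A b := lt_of_lt_of_le hc₀0 hb
    have hlb : IsLaw (cond F.p A b) := ⟨cond_nonneg hp A b, sum_cond F.p A hb0.ne'⟩
    -- a sample in the class
    obtain ⟨ω₀, hω₀⟩ : ∃ ω, A ω = b := by
      by_contra hcon
      push Not at hcon
      have : law F.p A b = 0 := by
        unfold law
        exact Finset.sum_eq_zero fun ω _ => if_neg (hcon ω)
      linarith
    obtain ⟨hinj, -⟩ := hω₀ ▸ hA ω₀
    have hmin : ∀ l, ∀ ω, A ω = b → 0 < F.p ω → ∀ n ≤ N,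
        fi F.p (Lb F (r1 a (b.1 l))) F.d J k g (b.2 : ℕ) ω ≤
        fi F.p (Lb F (r1 a (b.1 l))) F.d J k g n ω := by
      intro l ω hω _ n hn
      have := (hω ▸ hA ω).2 l n hn
      exact this
    -- the time
    have hTm' : (F.res A b hlb).Tm (θ' * J) := by
      have h1 := (tya_thm (k + 2) J F ((Fin 3 → Fin K) × Fin (N + 1)) A (θ * J) hTm).2
        (fun c hc => ⟨cond_nonneg hp A c, sum_cond F.p A hc.ne'⟩)
      have h2 := h1.2 b hb0
      refine tm_mono h2 ?_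
      rw [← hq, div_le_iff₀ hb0]
      have h3 : θ * J ≤ c₀ * θ' / 2 * J := mul_le_mul_of_nonneg_right hθa hJ0.le
      calc θ * J + Real.log q ≤ θ' * J * c₀ := by linarith
        _ ≤ θ' * J * law F.p A b := mul_le_mul_of_nonneg_left hb (by positivity)
    -- the directions
    obtain ⟨η, hη⟩ : ∃ η : ℝ, η = ε₄ * J := ⟨_, rfl⟩
    have hη0 : 0 ≤ η := by rw [hη]; positivity
    have hDb : ((k + 2 : ℕ) : ℝ) * (J * Real.log 2) - η ≤ H (cond F.p A b) (F.D J) := by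
      have h1 := H_class F A b (t := θ * (J * Real.log 2)) (by
        have : (((k + 2 : ℕ) : ℝ) - θ) * (J * Real.log 2) =
          ((k + 2 : ℕ) : ℝ) * (J * Real.log 2) - θ * (J * Real.log 2) := by ring
        rw [← this]
        exact hD) hb0
      rw [← hq] at h1
      have h2 : (θ * (J * Real.log 2) + Real.log q + ((k + 2 : ℕ) : ℝ) * Real.log 3) /
          law F.p A b ≤ η := by
        rw [div_le_iff₀ hb0, hη]
        have h3 : θ * (J * Real.log 2) ≤ c₀ * ε₄ / 2 * J := by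
          have : θ * (J * Real.log 2) = θ * Real.log 2 * J := by ring
          rw [this]
          exact mul_le_mul_of_nonneg_right hθb hJ0.le
        calc _ ≤ ε₄ * J * c₀ := by linarith
          _ ≤ ε₄ * J * law F.p A b := mul_le_mul_of_nonneg_left hb (by positivity)
      linarith
    have hlogP : -Real.log (law F.p A b) ≤ ε₄ * J := by
      have := Real.log_le_log hc₀0 hb
      linarith
    obtain ⟨x, hx0, hx1, hi1, hi2⟩ := cls F hk rfl hu hG (by omega) hg A b hb0 hlb b.1 hinj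
      (n₀ := (b.2 : ℕ)) hmin (E := ε₄ * J) (η := η) (B := B) (by positivity) hη0
      (hJ1 J b1 _ _ (tm_mono hTm' (mul_le_mul_of_nonneg_right l1 hJ0.le)))
      (hJ2 J b2 _ _ (tm_mono hTm' (mul_le_mul_of_nonneg_right l2 hJ0.le)))
      (hJ3 J b3 _ _ (tm_mono hTm' (mul_le_mul_of_nonneg_right l3 hJ0.le)))
      (hJ4 J b4 _ _ (tm_mono hTm' (mul_le_mul_of_nonneg_right l4 hJ0.le)))
      (hJ5 J b5 _ _ (tm_mono hTm' (mul_le_mul_of_nonneg_right l5 hJ0.le)))
      hDb (by rw [hB, hB₀]; linarith) (by rw [hB, hB₀]; linarith)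
      (by rw [hCg, hB, hB₀]; linarith) (by rw [hB, hB₀]; linarith) (by rw [hB, hB₀]; linarith)
    rw [← hL] at hx1 hi1 hi2
    obtain ⟨W, hW⟩ : ∃ W : ℝ, W = 20 * (η - Real.log (law F.p A b) + ε₄ * J + B) := ⟨_, rfl⟩
    rw [← hW] at hi1 hi2
    have hW1 : W ≤ 80 * (ε₄ * J) := by rw [hW, hη]; linarith
    obtain ⟨S, hS⟩ : ∃ S : ℝ, S = CH (cond F.p A b) (F.X J) F.T := ⟨_, rfl⟩
    rw [← hS] at hi1 hi2 ⊢
    have hx1' : x / L ≤ 1 := (div_le_one hL0).mpr hx1
    have h1 := hs ((S + W / 3) / L) (x / L) (by positivity) hx1' (by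
      have e1 : 3 * ((S + W / 3) / L) = (3 * S + W) / L := by ring
      have e2 : 3 * (k : ℝ) + 2 + (2 - k) * (x / L) = ((3 * k + 2) * L + (2 - k) * x) / L := by
        field_simp
      rw [e1, e2]
      exact div_le_div_of_nonneg_right hi1 hL0.le) (by
      have hWn : 4 * S + W ≤ 4 * S + 4 / 3 * W ∨ W < 0 := by
        rcases le_or_gt 0 W with h | h
        · left; linarith
        · right; exact h
      have hW0 : 0 ≤ W := by
        rw [hW]
        have h3 : 0 ≤ -Real.log (law F.p A b) := by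
          rw [neg_nonneg]
          exact Real.log_nonpos hb0.le
            ((law_le_total F.isLaw.nonneg A b).trans F.isLaw.sum_one.le)
        have h4 : 0 ≤ B := by rw [hB]; linarith
        have h5 : 0 ≤ ε₄ * J := by positivity
        linarith
      have e1 : 4 * ((S + W / 3) / L) = (4 * S + 4 / 3 * W) / L := by ring
      have e2 : 4 * (k : ℝ) + 2 + (4 - k) * (x / L) = ((4 * k + 2) * L + (4 - k) * x) / L := by
        field_simp
      rw [e1, e2]
      exact div_le_div_of_nonneg_right (by linarith) hL0.le)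
    rw [le_div_iff₀ hL0] at h1
    have h2 : (s - ε / 2) * L = s * L - ε / 2 * L := by ring
    rw [h2, hεL]
    have h5 : 0 ≤ ε₄ * J := by positivity
    linarith
  -- the sum
  have hsum := (tya_CH_le F.isLaw (F.X J) F.T A).1
  rw [tya_CH_sum hp] at hsum
  rw [← hL]
  rcases le_or_gt ((s - ε / 2) * L) 0 with hv | hv
  · have h1 := CH_nonneg hp (F.X J) F.T
    have h2 : (s - ε) * L ≤ (s - ε / 2) * L := by
      apply mul_le_mul_of_nonneg_right _ hL0.le
      linarith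
    linarith
  · have h1 : ∀ b, (law F.p A b - c₀) * ((s - ε / 2) * L) ≤
        law F.p A b * CH (cond F.p A b) (F.X J) F.T := by
      intro b
      have h2 : 0 ≤ CH (cond F.p A b) (F.X J) F.T := CH_nonneg (cond_nonneg hp A b) _ _
      rcases le_or_gt c₀ (law F.p A b) with hb | hb
      · have h3 := mul_le_mul_of_nonneg_left (hcls b hb) (hlaw0 b)
        have h4 : 0 ≤ c₀ * ((s - ε / 2) * L) := by positivity
        linarith
      · have h3 : (law F.p A b - c₀) * ((s - ε / 2) * L) ≤ 0 :=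
          mul_nonpos_of_nonpos_of_nonneg (by linarith) hv.le
        have h4 := mul_nonneg (hlaw0 b) h2
        linarith
    have h2 := Finset.sum_le_sum (s := univ) fun b _ => h1 b
    rw [← Finset.sum_mul, Finset.sum_sub_distrib, hlaw1, Finset.sum_const, Finset.card_univ,
      nsmul_eq_mul, ← hq] at h2
    have h3 : q * c₀ * ((s - ε / 2) * L) ≤ ε / 2 * L := by
      calc q * c₀ * ((s - ε / 2) * L) ≤ q * c₀ * ((s + 1) * L) := by
            apply mul_le_mul_of_nonneg_left _ (by positivity)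
            apply mul_le_mul_of_nonneg_right _ hL0.le
            linarith
        _ = q * c₀ * (s + 1) * L := by ring
        _ ≤ ε / 2 * L := mul_le_mul_of_nonneg_right hc₀2 hL0.le
    linarith

end Pool.KRN
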