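import Pool.Agent.H94.GP.Coll
import Pool.Agent.H9.KRN.Lin

/-!
# Conditional laws of the neighbourhood of a rounded vector, and random projections
-/

set_option autoImplicit false

open Finset Real

namespace Pool.KRN

open Pool.Agent.H49.Ent Pool.Agent.H32.Dense Pool.STK Pool.KA Pool.GP

variable {Ω : Type} [Fintype Ω] {S T κ : Type} {m k : ℕ}

/-- Conditioning on an event costs at most the logarithm of its probability. -/
theorem CH_cond_ge {p : Ω → ℝ} (hp : IsLaw p) (A : Ω → κ) (a : κ) (ha : 0 < law p A a)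
    (Y : Ω → S) (W : Ω → T) :
    Ex (cond p A a) (fun ω => -Real.log (law p (fun ω => (Y ω, W ω)) (Y ω, W ω) /
      law p W (W ω))) + Real.log (law p A a) ≤ CH (cond p A a) Y W := by
  classical
  obtain ⟨q, hq⟩ : ∃ q, q = cond p A a := ⟨_, rfl⟩
  rw [← hq]
  have hq0 : ∀ ω, 0 ≤ q ω := fun ω => hq ▸ cond_nonneg hp.nonneg A a ω
  have hq1 : ∑ ω, q ω = 1 := hq ▸ sum_cond p A ha.ne'
  have hqp : ∀ ω, 0 < q ω → 0 < p ω := fun ω h =>
    ((cond_pos_iff hp.nonneg A a ω).mp (hq ▸ h)).1
  -- Gibbs for the side information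
  have h1 := CH_le_cross hq0 hq1 W (fun _ => ()) (fun _ x => law p W x)
    (fun ω hω => law_pos hp.nonneg W (hqp ω hω)) (fun _ x => law_nonneg hp.nonneg W x) (by
      intro ω _ G
      have h2 : ∑ x ∈ G, law p W x ≤ ∑ x ∈ univ.image W ∪ G, law p W x :=
        Finset.sum_le_sum_of_subset_of_nonneg Finset.subset_union_right
          (fun _ _ _ => law_nonneg hp.nonneg W _)
      have h3 : ∑ x ∈ univ.image W ∪ G, law p W x = ∑ x ∈ univ.image W, law p W x := by
        symm
        refine Finset.sum_subset Finset.subset_union_left fun x _ hx => ?_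
        exact law_eq_zero_of_notMem p W hx
      rw [h3, sum_law, hp.sum_one] at h2
      exact h2)
  have e1 : CH q W (fun _ : Ω => ()) = H q W := by
    unfold CH
    rw [H_const hq1, sub_zero]
    exact H_congr hq0 (fun ω ω' _ _ h => Prod.ext h rfl)
      (fun ω ω' _ _ h => (Prod.ext_iff.mp h).1)
  rw [e1] at h1
  -- the joint law
  have h2 : Ex q (fun ω => -Real.log (law p (fun ω => (Y ω, W ω)) (Y ω, W ω))) +
      Real.log (law p A a) ≤ H q (fun ω => (Y ω, W ω)) := by
    have e2 : H q (fun ω => (Y ω, W ω)) =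
        Ex q (fun ω => -Real.log (law q (fun ω => (Y ω, W ω)) (Y ω, W ω))) := by
      unfold H Ex
      rw [← Finset.sum_neg_distrib]
      exact Finset.sum_congr rfl fun ω _ => by ring
    rw [e2, ← Ex_const hq1 (Real.log (law p A a)), ← Ex_add]
    refine Ex_mono hq0 fun ω hω => ?_
    have h3 : law q (fun ω => (Y ω, W ω)) (Y ω, W ω) ≤
        law p (fun ω => (Y ω, W ω)) (Y ω, W ω) / law p A a := by
      rw [hq, law_cond]
      refine div_le_div_of_nonneg_right ?_ ha.le
      unfold law
      refine Finset.sum_le_sum fun ω' _ => ?_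
      by_cases h4 : ((Y ω', W ω'), A ω') = ((Y ω, W ω), a)
      · rw [if_pos h4, if_pos (Prod.ext_iff.mp h4).1]
      · rw [if_neg h4]
        split_ifs
        exacts [hp.nonneg ω', le_rfl]
    have h4 := Real.log_le_log (law_pos hq0 (fun ω => (Y ω, W ω)) hω) h3
    rw [Real.log_div (law_pos hp.nonneg (fun ω => (Y ω, W ω)) (hqp ω hω)).ne' ha.ne'] at h4
    linarith
  have h5 : Ex q (fun ω => -Real.log (law p (fun ω => (Y ω, W ω)) (Y ω, W ω) / law p W (W ω))) =
      Ex q (fun ω => -Real.log (law p (fun ω => (Y ω, W ω)) (Y ω, W ω))) -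
      Ex q (fun ω => -Real.log (law p W (W ω))) := by
    rw [← Ex_sub]
    refine le_antisymm (Ex_mono hq0 fun ω hω => ?_) (Ex_mono hq0 fun ω hω => ?_) <;>
    · rw [Real.log_div (law_pos hp.nonneg (fun ω => (Y ω, W ω)) (hqp ω hω)).ne'
        (law_pos hp.nonneg W (hqp ω hω)).ne']
      linarith
  rw [h5]
  unfold CH
  linarith

/-- Jensen's inequality for the logarithm. -/
theorem avg_log_le {ι : Type} [Fintype ι] [Nonempty ι] (r : ι → ℝ) (hr : ∀ i, 0 < r i) :
    (∑ i, Real.log (r i)) / (Fintype.card ι : ℝ) ≤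
      Real.log ((∑ i, r i) / (Fintype.card ι : ℝ)) := by
  have hc : (0 : ℝ) < (Fintype.card ι : ℝ) := by exact_mod_cast Fintype.card_pos
  obtain ⟨R, hR⟩ : ∃ R : ℝ, R = (∑ i, r i) / (Fintype.card ι : ℝ) := ⟨_, rfl⟩
  have hR0 : 0 < R := by
    rw [hR]
    exact div_pos (Finset.sum_pos (fun i _ => hr i) Finset.univ_nonempty) hc
  rw [← hR, div_le_iff₀ hc]
  have h1 : ∀ i, Real.log (r i) ≤ Real.log R + (r i / R - 1) := by
    intro i
    have h2 := Real.log_le_sub_one_of_pos (div_pos (hr i) hR0)
    rw [Real.log_div (hr i).ne' hR0.ne'] at h2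
    linarith
  calc ∑ i, Real.log (r i) ≤ ∑ i, (Real.log R + (r i / R - 1)) :=
        Finset.sum_le_sum fun i _ => h1 i
    _ = Real.log R * (Fintype.card ι : ℝ) := by
        rw [Finset.sum_add_distrib, Finset.sum_sub_distrib, ← Finset.sum_div, Finset.sum_const,
          Finset.sum_const, Finset.card_univ, nsmul_eq_mul, nsmul_eq_mul, mul_one]
        have h3 : (∑ i, r i) / R = (Fintype.card ι : ℝ) := by
          rw [hR]
          have h4 : (∑ i, r i) ≠ 0 := (Finset.sum_pos (fun i _ => hr i) Finset.univ_nonempty).ne'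
          field_simp
        rw [h3]
        ring

open Classical in
/-- The mass of the samples with side information `w` and with the vector near `y`. -/
noncomputable def Nr (p : Ω → ℝ) (W : Ω → T) (E : Ω → Fin m → ℤ) (w : T) (y : Fin m → ℤ) : ℝ :=
  ∑ ω, if W ω = w ∧ ∀ s, |E ω s - y s| ≤ 3 then p ω else 0

lemma Nr_nonneg {p : Ω → ℝ} (hp : IsLaw p) (W : Ω → T) (E : Ω → Fin m → ℤ) (w : T)
    (y : Fin m → ℤ) : 0 ≤ Nr p W E w y := by
  classical
  unfold Nr
  exact Finset.sum_nonneg fun ω _ => by split_ifs; exacts [hp.nonneg ω, le_rfl]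

lemma Nr_pos {p : Ω → ℝ} (hp : IsLaw p) (W : Ω → T) (E : Ω → Fin m → ℤ) {ω : Ω}
    (hω : 0 < p ω) : 0 < Nr p W E (W ω) (E ω) := by
  classical
  unfold Nr
  refine lt_of_lt_of_le hω ?_
  have h := Finset.single_le_sum (f := fun ω' => if W ω' = W ω ∧ ∀ s, |E ω' s - E ω s| ≤ 3
    then p ω' else 0) (fun ω' _ => by split_ifs; exacts [hp.nonneg ω', le_rfl])
    (Finset.mem_univ ω)
  refine le_trans ?_ h
  rw [if_pos]
  exact ⟨rfl, fun s => by simp⟩

/-- Cross entropy of the neighbourhoods. -/
theorem CH_le_nbr {p q : Ω → ℝ} (hp : IsLaw p) (hq : IsLaw q) (hqp : ∀ ω, 0 < q ω → 0 < p ω)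
    (W : Ω → T) (E : Ω → Fin m → ℤ) :
    CH q E W ≤ Ex q (fun ω => -Real.log (Nr p W E (W ω) (E ω) / law p W (W ω))) +
      m * Real.log 7 := by
  classical
  have h7 : (0 : ℝ) < 7 ^ m := by positivity
  have h := CH_le_cross hq.nonneg hq.sum_one E W
    (fun w y => Nr p W E w y / law p W w / 7 ^ m)
    (fun ω hω => div_pos (div_pos (Nr_pos hp W E (hqp ω hω))
      (law_pos hp.nonneg W (hqp ω hω))) h7)
    (fun w y => div_nonneg (div_nonneg (Nr_nonneg hp W E w y) (law_nonneg hp.nonneg W w)) h7.le)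
    (by
      intro ω hω G
      have hl := law_pos hp.nonneg W (hqp ω hω)
      rw [← Finset.sum_div, ← Finset.sum_div, div_div, div_le_one (by positivity)]
      unfold Nr
      rw [Finset.sum_comm]
      unfold law
      rw [Finset.sum_mul]
      refine Finset.sum_le_sum fun ω' _ => ?_
      by_cases hw : W ω' = W ω
      · rw [if_pos hw]
        have e : ∑ y ∈ G, (if W ω' = W ω ∧ ∀ s, |E ω' s - y s| ≤ 3 then p ω' else 0) =
            ((G.filter fun y => ∀ s, |E ω' s - y s| ≤ 3).card : ℝ) * p ω' := by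
          rw [← Finset.sum_filter, Finset.sum_const, nsmul_eq_mul]
          congr 3
          ext y
          simp [hw]
        rw [e, mul_comm]
        refine mul_le_mul_of_nonneg_left ?_ (hp.nonneg ω')
        have hsub : (G.filter fun y => ∀ s, |E ω' s - y s| ≤ 3) ⊆
            Fintype.piFinset fun s => Finset.Icc (E ω' s - 3) (E ω' s + 3) := by
          intro y hy
          rw [Fintype.mem_piFinset]
          intro s
          have := abs_le.mp ((Finset.mem_filter.mp hy).2 s)
          rw [Finset.mem_Icc]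
          constructor <;> linarith [this.1, this.2]
        have hc := Finset.card_le_card hsub
        rw [Fintype.card_piFinset] at hc
        have e7 : ∏ s : Fin m, (Finset.Icc (E ω' s - 3) (E ω' s + 3)).card = 7 ^ m := by
          rw [Finset.prod_congr rfl (g := fun _ => 7) (fun s _ => by
            rw [Int.card_Icc]
            have : E ω' s + 3 + 1 - (E ω' s - 3) = 7 := by ring
            rw [this]
            rfl)]
          rw [Finset.prod_const, Finset.card_univ, Fintype.card_fin]
        rw [e7] at hc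
        exact_mod_cast hc
      · rw [if_neg hw, zero_mul]
        refine le_of_eq (Finset.sum_eq_zero fun y _ => ?_)
        rw [if_neg]
        exact fun h => hw h.1)
  refine h.trans ?_
  rw [← Ex_const hq.sum_one (m * Real.log 7), ← Ex_add]
  refine Ex_mono hq.nonneg fun ω hω => ?_
  rw [Real.log_div (div_pos (Nr_pos hp W E (hqp ω hω))
      (law_pos hp.nonneg W (hqp ω hω))).ne' h7.ne', Real.log_pow]
  linarith

end Pool.KRN
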