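import Pool.Agent.H9.KRN.Main
import Pool.Agent.H13.K2S.KP2
import Pool.Agent.H13.KAL.KP1
import Pool.Agent.H56.KPM.Thm

/-!
# The entropy bounds in dimensions five and six
-/

set_option autoImplicit false

namespace Pool.KRN

open Pool.KA
open Pool.K2S (kp_2)
open Pool.KAL.KP1 (kp_one)

/-- Lines in dimension five. -/
theorem ef_five : EF 5 (25 / 7) := by
  refine ef_of (k := 3) le_rfl kp_one kp_2 Pool.PB.kp3_thm Pool.PB.kp3_thm kp_2 (by norm_num) ?_
  intro S x h0 h1 h2 h3
  push_cast at h2 h3
  linarith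

/-- Lines in dimension six, from the Kakeya theorem for lines in dimension four. -/
theorem ef_six (h4 : KP 4) : EF 6 (9 / 2) := by
  refine ef_of (k := 4) (by norm_num) kp_one kp_2 Pool.PB.kp3_thm h4 Pool.PB.kp3_thm (by norm_num)
    ?_
  intro S x h0 h1 h2 h3
  push_cast at h2 h3
  linarith

end Pool.KRN
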